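import Pool.Agent.W_448ec_h63.EI
import Pool.Agent.W_448co_h5.PartD

/-!
The window series of a part is the window sum of the subposet.
-/

namespace Pool.Agent.GaussPoset

set_option linter.unusedSectionVars false

open Finset Win

universe u

variable {P : Type u} [Fintype P] [PartialOrder P] [DecidableEq P] {r i : ℕ} {C : Finset P}

lemma part_up (hC : Part i C) {x y : P} (hx : x ∈ C) (hxy : x ≤ y) : y ∈ C := by
  refine normb_induct (y := y) (C := fun x => x ∈ C → y ∈ C) (fun h => h) ?_ x hxy hx
  intro x z hxz _ ih hx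
  exact ih (hC.up hx hxz)

lemma part_dn (H : Gr P r) (hC : Part i C) {x y : P} (hy : y ∈ C) (hxy : x ≤ y)
    (hx : lev x ≤ i) : x ∈ C := by
  refine normb_induct (y := y) (C := fun x => lev x ≤ i → x ∈ C) (fun _ => hy) ?_ x hxy hx
  intro x z hxz _ ih hx
  have h1 := lev_uc H (mem_uc.2 hxz)
  exact hC.dn (ih (by omega)) (by omega) hxz

/-- the subposet of a part -/
abbrev PQ (C : Finset P) : Type u := {x : P // x ∈ C}

lemma lev_PQ (hC : Part i C) (x : PQ C) : lev x = lev (x : P) :=
  lev_subtype (p := fun x : P => x ∈ C) (fun _ _ hac ha => part_up hC ha hac) x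

/-- restriction -/
def resQ (C : Finset P) (e : P → ℕ) : PQ C → ℕ := fun x => e x

/-- extension by zero -/
def extQ (C : Finset P) (e : PQ C → ℕ) : P → ℕ := fun x => if h : x ∈ C then e ⟨x, h⟩ else 0

lemma res_ext (e : PQ C → ℕ) : resQ C (extQ C e) = e := by
  funext x
  unfold resQ extQ
  rw [dif_pos x.2]

lemma ext_res {e : P → ℕ} (he : Spt C e) : extQ C (resQ C e) = e := by
  funext x
  unfold resQ extQ
  split_ifs with h
  · rfl
  · exact (he x h).symm

lemma spt_ext (e : PQ C → ℕ) : Spt C (extQ C e) := by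
  intro x hx
  unfold extQ
  rw [dif_neg hx]

lemma sum_res {e : P → ℕ} : ∑ x : PQ C, resQ C e x = ∑ x ∈ C, e x := by
  unfold resQ
  rw [← Finset.sum_subtype C (fun x => Iff.rfl) e]

section one

variable {e : P → ℕ}

lemma rho_res (hC : Part i C) (x : PQ C) : rho i (resQ C e) x = rho i e (x : P) := by
  unfold rho resQ
  rw [lev_PQ hC]

lemma rho_out (he : Spt C e) {x : P} (hx : x ∉ C) : rho i e x = -((i - lev x : ℕ) : ℤ) := by
  unfold rho
  rw [he x hx]
  simp

lemma FI_res (hC : Part i C) (he : Spt C e) (x : PQ C) :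
    FI i (resQ C e) x ↔ FI i e (x : P) := by
  unfold FI
  rw [rho_res hC]
  constructor
  · rintro (h | ⟨z, hz, h⟩)
    · exact Or.inl h
    · rw [rho_res hC] at h
      exact Or.inr ⟨z, hz, h⟩
  · rintro (h | ⟨z, hz, h⟩)
    · exact Or.inl h
    · by_cases hzC : z ∈ C
      · refine Or.inr ⟨⟨z, hzC⟩, hz, ?_⟩
        rw [rho_res hC]
        exact h
      · left
        rw [rho_out he hzC] at h
        omega

lemma FA_res (hC : Part i C) (x : PQ C) : FA i (resQ C e) x ↔ FA i e (x : P) := by
  unfold FA
  rw [rho_res hC]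
  constructor
  · rintro ⟨y, hy, h⟩
    rw [rho_res hC] at h
    exact ⟨y, hy, h⟩
  · rintro ⟨y, hy, h⟩
    refine ⟨⟨y, part_up hC x.2 hy.le⟩, hy, ?_⟩
    rw [rho_res hC]
    exact h

lemma FI_out (hC : Part i C) (he : Spt C e) {x : P} (hx : x ∉ C) : FI i e x ↔ lev x < i := by
  unfold FI
  rw [rho_out he hx]
  constructor
  · rintro (h | ⟨z, hz, h⟩)
    · omega
    · have hzC : z ∉ C := fun h' => hx (part_up hC h' hz.le)
      rw [rho_out he hzC] at h
      omega
  · intro h
    left
    omega

lemma FA_out (H : Gr P r) (hC : Part i C) (he : Spt C e) {x : P} (hx : x ∉ C) :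
    FA i e x ↔ i < lev x := by
  unfold FA
  rw [rho_out he hx]
  constructor
  · rintro ⟨y, hy, h⟩
    by_contra hcon
    have hyC : y ∉ C := fun h' => hx (part_dn H hC h' hy.le (by omega))
    rw [rho_out he hyC] at h
    have := lev_strictAnti hy
    omega
  · intro h
    obtain ⟨y, hy, hyl⟩ := exists_above' (x := x) (j := i) h.le
    refine ⟨y, lt_of_le_of_ne hy (by rintro rfl; omega), ?_⟩
    unfold rho
    rw [hyl]
    omega

lemma adm_res (H : Gr P r) (hC : Part i C) (he : Spt C e) :
    Adm i (resQ C e) ↔ Adm i e := by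
  unfold Adm
  constructor
  · intro h x
    by_cases hx : x ∈ C
    · have := h ⟨x, hx⟩
      rwa [FI_res hC he, FA_res hC] at this
    · rw [FI_out hC he hx, FA_out H hC he hx]
      omega
  · intro h x
    rw [FI_res hC he, FA_res hC]
    exact h x

open Classical in
lemma card_res (R : P → Prop) : (univ.filter (fun x : P => R x)).card =
    (univ.filter (fun x : PQ C => R x)).card + (univ.filter (fun x : P => x ∉ C ∧ R x)).card := by
  have h1 : (univ.filter (fun x : PQ C => R x)).card =
      (univ.filter (fun x : P => x ∈ C ∧ R x)).card := by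
    refine Finset.card_bij (fun x _ => (x : P)) ?_ ?_ ?_
    · intro x hx
      rw [mem_filter] at hx ⊢
      exact ⟨mem_univ _, x.2, hx.2⟩
    · intro x _ y _ h
      exact Subtype.ext h
    · intro x hx
      rw [mem_filter] at hx
      exact ⟨⟨x, hx.2.1⟩, by rw [mem_filter]; exact ⟨mem_univ _, hx.2.2⟩, rfl⟩
  rw [h1, ← card_union_of_disjoint]
  · congr 1
    ext x
    rw [mem_union, mem_filter, mem_filter, mem_filter]
    tauto
  · rw [disjoint_left]
    intro x hx hx'
    rw [mem_filter] at hx hx'
    exact hx'.2.1 hx.2.1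

open Classical in
/-- the number of elements outside `C` above the window -/
noncomputable def nOut (i : ℕ) (C : Finset P) : ℕ := (univ.filter (fun x : P => x ∉ C ∧ lev x < i)).card

open Classical in
/-- the number of sites outside `C` -/
noncomputable def sOut (i : ℕ) (C : Finset P) : ℕ := (univ.filter (fun x : P => x ∉ C ∧ lev x = i)).card

lemma nf_res (hC : Part i C) (he : Spt C e) : nf i e = nf i (resQ C e) + nOut i C := by
  classical
  unfold nf nOut
  rw [card_res (C := C)]
  congr 1
  · refine congrArg Finset.card (Finset.filter_congr fun x _ => ?_)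
    rw [FI_res hC he]
  · refine congrArg Finset.card (Finset.filter_congr fun x _ => ?_)
    constructor
    · rintro ⟨h1, h2⟩
      exact ⟨h1, (FI_out hC he h1).1 h2⟩
    · rintro ⟨h1, h2⟩
      exact ⟨h1, (FI_out hC he h1).2 h2⟩

lemma pk_res (H : Gr P r) (hC : Part i C) (he : Spt C e) :
    (Pk i e).card = (Pk i (resQ C e)).card + sOut i C := by
  classical
  have h0 : (Pk i e).card = (univ.filter (fun x : P => ¬ FI i e x ∧ ¬ FA i e x)).card := by
    unfold Pk
    congr
  have h1 := card_res (C := C) (fun x : P => ¬ FI i e x ∧ ¬ FA i e x)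
  have h2 : (univ.filter (fun x : P => ¬ FI i e x ∧ ¬ FA i e x)).card =
      (univ.filter (fun x : PQ C => ¬ FI i e x ∧ ¬ FA i e x)).card +
      (univ.filter (fun x : P => x ∉ C ∧ ¬ FI i e x ∧ ¬ FA i e x)).card := by
    convert h1
  rw [h0, h2]
  unfold Pk sOut
  congr 1
  · refine congrArg Finset.card (Finset.filter_congr fun x _ => ?_)
    rw [FI_res hC he, FA_res hC]
  · refine congrArg Finset.card (Finset.filter_congr fun x _ => ?_)
    constructor
    · rintro ⟨h1, h2, h3⟩
      rw [FI_out hC he h1] at h2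
      rw [FA_out H hC he h1] at h3
      exact ⟨h1, by omega⟩
    · rintro ⟨h1, h2⟩
      refine ⟨h1, ?_, ?_⟩
      · rw [FI_out hC he h1]
        omega
      · rw [FA_out H hC he h1]
        omega

end one

/-- the window sum of the subposet -/
theorem sum_PQ (H : Gr P r) (hC : Part i C) (n : ℕ) :
    ∑ e ∈ C.piAntidiag n, (by classical exact if Adm i e then
      (Polynomial.X : Polynomial ℤ) ^ (nf i e) * (1 + Polynomial.X) ^ (Pk i e).card else 0) =
    Polynomial.X ^ (nOut i C) * (1 + Polynomial.X) ^ (sOut i C) * Z (PQ C) i n := by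
  classical
  unfold Z
  rw [Finset.mul_sum]
  symm
  refine Finset.sum_nbij' (fun e => extQ C e) (fun e => resQ C e) ?_ ?_ ?_ ?_ ?_
  · intro e he
    rw [mem_piAntidiag] at he ⊢
    refine ⟨?_, fun x hx => ?_⟩
    · rw [← sum_res (C := C) (e := extQ C e), res_ext]
      exact he.1
    · by_contra hxC
      exact hx (spt_ext e x hxC)
  · intro e he
    rw [mem_piAntidiag] at he ⊢
    refine ⟨?_, fun x _ => mem_univ x⟩
    rw [← he.1]
    exact sum_res
  · intro e _
    exact res_ext e
  · intro e he
    exact ext_res (spt_of_mem he)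
  · intro e _
    have hs := spt_ext (C := C) e
    have h1 := adm_res (i := i) H hC hs
    have h2 := nf_res (i := i) hC hs
    have h3 := pk_res (i := i) H hC hs
    rw [res_ext] at h1 h2 h3
    by_cases hA : Adm i e
    · rw [if_pos hA, if_pos (h1.1 hA), h2, h3]
      ring
    · rw [if_neg hA, if_neg (fun h => hA (h1.2 h)), mul_zero]

lemma card_sOut : (lv P i).card = (st i C).card + sOut i C := by
  classical
  unfold sOut
  rw [← card_union_of_disjoint]
  · congr 1
    ext x
    rw [mem_union, mem_lv, mem_st, mem_filter]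
    constructor
    · intro h
      by_cases hx : x ∈ C
      · exact Or.inl ⟨hx, h⟩
      · exact Or.inr ⟨mem_univ _, hx, h⟩
    · rintro (h | h)
      · exact h.2
      · exact h.2.2
  · rw [disjoint_left]
    intro x hx hx'
    rw [mem_st] at hx
    rw [mem_filter] at hx'
    exact hx'.2.1 hx.1

/-- the term of the whole poset and of the part -/
lemma trm_tC (H : Gr P r) (hC : Part i C) {e : P → ℕ} (he : Spt C e) :
    trm i e = dd ^ (sOut i C) * tC i C e := by
  unfold trm tC
  split_ifs with hd
  · have h1 := card_le_card (AL_sub hC he)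
    have h2 := card_le_card (AU_sub H hC he)
    have h3 : (AL i e).card + (AU i e).card ≤ (st i C).card := by
      rw [← card_union_of_disjoint hd]
      exact card_le_card (union_subset (AL_sub hC he) (AU_sub H hC he))
    have h4 := card_sOut (i := i) (C := C)
    have h5 : (lv P i).card - (AL i e).card - (AU i e).card =
        sOut i C + ((st i C).card - (AL i e).card - (AU i e).card) := by omega
    rw [h5, pow_add]
    ring
  · rw [mul_zero]

/-- THE BRIDGE -/
theorem ZC_PQ (H : Gr P r) (hi : i ≤ r) (hC : Part i C) (n : ℕ) :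
    ZC i C n = xx ^ (nOut i C) * xi ^ (below P i) * ev (Z (PQ C) i n) := by
  classical
  have h1 := congrArg ev (sum_PQ H hC n)
  rw [map_sum] at h1
  have h2 := congrArg (fun y => y * xi ^ (below P i)) h1
  simp only [Finset.sum_mul] at h2
  have h3 : ∑ e ∈ C.piAntidiag n, trm i e = dd ^ (sOut i C) * ZC i C n := by
    unfold ZC
    rw [Finset.mul_sum]
    exact Finset.sum_congr rfl fun e he => trm_tC H hC (spt_of_mem he)
  have h4 : ∑ e ∈ C.piAntidiag n, trm i e = ev (Polynomial.X ^ (nOut i C) *
      (1 + Polynomial.X) ^ (sOut i C) * Z (PQ C) i n) * xi ^ (below P i) := by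
    rw [← h2]
    refine Finset.sum_congr rfl fun e _ => ?_
    rw [← ev_term H hi e]
  rw [h3, map_mul, map_mul, map_pow, map_pow, ev_X, ev_one_add] at h4
  have h5 : dd ^ (sOut i C) * ZC i C n = dd ^ (sOut i C) *
      (xx ^ (nOut i C) * xi ^ (below P i) * ev (Z (PQ C) i n)) := by
    rw [h4]
    ring
  have h6 : (dd : A) ^ (sOut i C) ≠ 0 := by
    unfold dd
    exact pow_ne_zero _ PowerSeries.X_ne_zero
  exact mul_left_cancel₀ h6 h5

/-- divisibility -/
theorem dvd_ZC_of (H : Gr P r) (hi : i ≤ r) (hC : Part i C) {n b : ℕ}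
    (h : (1 + Polynomial.X : Polynomial ℤ) ^ b ∣ Z (PQ C) i n) : dd ^ b ∣ ZC i C n := by
  rw [ZC_PQ H hi hC]
  have h1 := map_dvd ev h
  rw [map_pow, ev_one_add] at h1
  exact Dvd.dvd.mul_left h1 _

end Pool.Agent.GaussPoset
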