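import Pool.Agent.W_448ec_h63.EP
import Pool.Agent.W_448i2_h61.TD

/-!
EARLY COMPONENTS AT NEAR WINDOWS (G2, (ii)): final statements.
-/

namespace Pool.Agent.GaussPoset

set_option linter.unusedSectionVars false

open Finset Win Cp

universe u

variable {P : Type u} [Fintype P] [PartialOrder P] [DecidableEq P] {r i J : ℕ} {S : Finset P}
variable {t : Tops P} {lo hi : ℕ → ℕ} {e : ℕ → ℕ → P}

lemma cov_PQ (hC : Part i S) {x y : PQ S} : x ⋖ y ↔ (x : P) ⋖ (y : P) := by
  constructor
  · intro h
    refine ⟨h.lt, fun z hz1 hz2 => ?_⟩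
    exact h.2 (c := ⟨z, part_up hC x.2 hz1.le⟩) hz1 hz2
  · intro h
    exact ⟨h.lt, fun z hz1 hz2 => h.2 (c := (z : P)) hz1 hz2⟩

lemma two_PQ (H : Gr P r) (hC : Part i S) : Two (PQ S) where
  up := by
    intro v a b c ha hb hc hab
    rw [cov_PQ hC] at ha hb hc
    by_contra hcon
    push Not at hcon
    exact Win.uc_three H ha hb hc (fun h => hab (Subtype.ext h))
      (fun h => hcon.1 (Subtype.ext h.symm)) (fun h => hcon.2 (Subtype.ext h.symm))
  dn := by
    intro v a b c ha hb hc hab
    rw [cov_PQ hC] at ha hb hc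
    by_contra hcon
    push Not at hcon
    exact Win.dc_three H ha hb hc (fun h => hab (Subtype.ext h))
      (fun h => hcon.1 (Subtype.ext h.symm)) (fun h => hcon.2 (Subtype.ext h.symm))

/-- STAIRCASES, order one less, all energies up to twice the distance -/
theorem ec_stair_all (E : Ext P i J (t : P) S) (H : Gr P r) (hJr : J ≤ r)
    (hg : ∀ l, l < J → Win.Good P l) (C : Cp.Comp J (t : P) lo hi e) (R : StairShape J lo hi)
    (h3 : i + 3 ≤ J) {n : ℕ} (hn : n ≤ 2 * (J - i)) : dd ^ ((st i S).card - 1) ∣ ZC i S n := by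
  have h1 := R.hi i (by omega)
  have h2 := C.lo_le i (by omega)
  refine dvd_ZC_of H (by omega) E.part ?_
  have h4 := (tru_stair E H hg C R h3).stair_all (two_PQ H E.part) (by omega) hn
  rw [card_st_ext E C (by omega)]
  rwa [show i / 2 + (i - lo i + 1) - i - 1 = hi i + 1 - lo i - 1 by omega] at h4

/-- the shapes of the early components, both orientations of the staircase -/
def Early (J : ℕ) (lo hi : ℕ → ℕ) : Prop :=
  RectShape J lo hi ∨ StairShape J lo hi ∨ StairShape J (fun k => k - hi k) (fun k => k - lo k)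

/-- EARLY COMPONENTS: clean up to the distance -/
theorem ec_clean (E : Ext P i J (t : P) S) (H : Gr P r) (hJr : J ≤ r)
    (hg : ∀ l, l < J → Win.Good P l) (C : Cp.Comp J (t : P) lo hi e) (R : Early J lo hi)
    (h3 : i + 3 ≤ J) {n : ℕ} (hn : n ≤ J - i) : dd ^ (st i S).card ∣ ZC i S n := by
  rcases R with R | R | R
  · exact ec_rect E H hJr hg C R h3 (by omega)
  · exact ec_stair E H hJr hg C R h3 (by omega) (by omega) (by omega) (by omega) (by omega)
  · exact ec_stair E H hJr hg (comp_swap C) R h3 (by omega) (by omega) (by omega) (by omega)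
      (by omega)

/-- EARLY COMPONENTS: order one less up to twice the distance -/
theorem ec_less (E : Ext P i J (t : P) S) (H : Gr P r) (hJr : J ≤ r)
    (hg : ∀ l, l < J → Win.Good P l) (C : Cp.Comp J (t : P) lo hi e) (R : Early J lo hi)
    (h3 : i + 3 ≤ J) {n : ℕ} (hn : n ≤ 2 * (J - i)) :
    dd ^ ((st i S).card - 1) ∣ ZC i S n := by
  rcases R with R | R | R
  · exact (pow_dvd_pow _ (Nat.sub_le _ _)).trans (ec_rect E H hJr hg C R h3 hn)
  · exact ec_stair_all E H hJr hg C R h3 hn
  · exact ec_stair_all E H hJr hg (comp_swap C) R h3 hn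

section coeffs

/-- the first order coefficients vanish -/
theorem ec_al (E : Ext P i J (t : P) S) (H : Gr P r) (hJr : J ≤ r)
    (hg : ∀ l, l < J → Win.Good P l) (C : Cp.Comp J (t : P) lo hi e) (R : Early J lo hi)
    (h3 : i + 3 ≤ J) {n : ℕ} (hn : n ≤ J - i) : I2.al n (st i S).card (ZS i S) = 0 := by
  unfold I2.al
  rw [coeff_ZS]
  refine I2.coeff_eq_zero_of_dvd ?_
  rw [pow_succ']
  exact mul_dvd_mul_left _ (ec_clean E H hJr hg C R h3 hn)

/-- the second order coefficients vanish -/
theorem ec_be (E : Ext P i J (t : P) S) (H : Gr P r) (hJr : J ≤ r)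
    (hg : ∀ l, l < J → Win.Good P l) (C : Cp.Comp J (t : P) lo hi e) (R : Early J lo hi)
    (h3 : i + 3 ≤ J) {n : ℕ} (hn : n ≤ 2 * (J - i)) :
    I2.be n (st i S).card (ZS i S) = 0 := by
  unfold I2.be
  rw [coeff_ZS]
  refine I2.coeff_eq_zero_of_dvd ?_
  have h1 := ec_less E H hJr hg C R h3 hn
  refine (pow_dvd_pow dd (show (st i S).card + 1 ≤ 2 + ((st i S).card - 1) by omega)).trans ?_
  rw [pow_add]
  exact mul_dvd_mul_left _ h1

/-- the order profile -/
theorem ec_prof (E : Ext P i J (t : P) S) (H : Gr P r) (hJr : J ≤ r)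
    (hg : ∀ l, l < J → Win.Good P l) (C : Cp.Comp J (t : P) lo hi e) (R : Early J lo hi)
    (h3 : i + 3 ≤ J) {n m : ℕ} (hn : n ≤ J - i + 1) (hm : m ≤ 2 * (J - i)) :
    I2.Prof n m (st i S).card (ZS i S) where
  lo := by
    intro k hk
    rw [coeff_ZS]
    exact ec_clean E H hJr hg C R h3 (by omega)
  mid := by
    intro k hk
    rw [coeff_ZS]
    have h1 := ec_less E H hJr hg C R h3 (n := k) (by omega)
    refine (pow_dvd_pow dd (show (st i S).card ≤ 1 + ((st i S).card - 1) by omega)).trans ?_
    rw [pow_add, pow_one]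
    exact mul_dvd_mul_left _ h1
  top := by
    rw [coeff_ZS]
    have h1 := ec_less E H hJr hg C R h3 (n := m) (by omega)
    refine (pow_dvd_pow dd (show (st i S).card ≤ 2 + ((st i S).card - 1) by omega)).trans ?_
    rw [pow_add]
    exact mul_dvd_mul_left _ h1

end coeffs

section split

/-- the top as label of the components -/
theorem split_top (H : Gr P r) (hg : ∀ l, l < J → Win.Good P l) :
    Split J (topOf : P → Tops P) := by
  intro x y hxy hx
  refine Subtype.ext ?_
  exact Cp.top_eq H hg hx (topOf x).2 (topOf y).2 (le_topOf x) (hxy.le.trans (le_topOf y))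

/-- the extended component of a top -/
theorem ext_top (H : Gr P r) (hg : ∀ l, l < J → Win.Good P l) (hiJ : i ≤ J) (t : Tops P) :
    Ext P i J (t : P) (cext J (topOf : P → Tops P) t) where
  part := part_cext H hiJ (split_top H hg) t
  mem := by
    intro x hx
    rw [mem_cext]
    constructor
    · intro h
      have h1 := h x le_rfl hx
      rw [← h1]
      exact le_topOf x
    · intro h y hy hly
      refine Subtype.ext ?_
      exact Cp.top_eq H hg hx (topOf y).2 t.2 (hy.trans (le_topOf y)) h

end split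

end Pool.Agent.GaussPoset
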