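import Pool.Agent.W_448tw_h76.TwD
import Pool.Agent.W_448s7_h27.HangA

/-!
Window sums: isomorphic posets, and removal of elements which are not excited at small energies.
-/

namespace Pool.Agent.GaussPoset

set_option linter.unusedSectionVars false

open Polynomial Finset

universe u v

section iso

lemma lev_iso_le {Q : Type u} {R : Type v} [Fintype Q] [PartialOrder Q] [Fintype R]
    [PartialOrder R] (e : Q ≃o R) (x : Q) : lev (e x) ≤ lev x := by
  obtain ⟨f, hf, hfx⟩ := Nat.sInf_mem (exists_strictAnti x)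
  have h1 : StrictAnti (fun y : R => f (e.symm y)) := by
    intro a b hab
    exact hf (e.symm.strictMono hab)
  have h2 := lev_le h1 (e x)
  simp only [OrderIso.symm_apply_apply] at h2
  exact h2.trans hfx.le

lemma Ec_lev_iso {Q : Type u} {R : Type v} [Fintype Q] [PartialOrder Q] [Fintype R]
    [PartialOrder R] (e : Q ≃o R) (x : Q) : lev (e x) = lev x := by
  refine le_antisymm (lev_iso_le e x) ?_
  have h := lev_iso_le e.symm (e x)
  rwa [OrderIso.symm_apply_apply] at h

variable {Q : Type u} {R : Type v} [Fintype Q] [PartialOrder Q] [DecidableEq Q] [Fintype R]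
    [PartialOrder R] [DecidableEq R]

lemma M0_iso (e : Q ≃o R) (i : ℕ) : M0 Q i = M0 R i := by
  unfold M0
  rw [← Equiv.sum_comp e.toEquiv]
  refine Finset.sum_congr rfl fun x _ => ?_
  change min i (lev x) = min i (lev (e x))
  rw [Ec_lev_iso]

/-- window sums of isomorphic posets -/
theorem EcZ_iso (e : Q ≃o R) (i n : ℕ) : Z Q i n = Z R i n := by
  have h1 := exq_W (P := Q) i (n + M0 Q i)
  have h2 := exq_W (P := R) i (n + M0 R i)
  rw [if_pos (Nat.le_add_left _ _), Nat.add_sub_cancel] at h1 h2
  rw [← h1, ← h2, W_iso e i, M0_iso e i]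

end iso

section cut

variable {P : Type u} [Fintype P] [PartialOrder P] [DecidableEq P]

open Classical in
/-- the number of elements of levels `> i` above `z` -/
noncomputable def ncone (i : ℕ) (z : P) : ℕ := (univ.filter (fun x : P => z ≤ x ∧ i < lev x)).card

lemma ncone_eq (i : ℕ) (z : P) [DecidablePred fun x : P => z ≤ x ∧ i < lev x] :
    ncone i z = (univ.filter (fun x : P => z ≤ x ∧ i < lev x)).card := by
  unfold ncone
  congr

lemma cst_one (i : ℕ) (z : P) : cst i (fun _ => 1) z = ncone i z := by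
  classical
  unfold cst ez ncone
  rw [Finset.card_filter]
  refine Finset.sum_congr rfl fun x _ => ?_
  by_cases h : z ≤ x
  · by_cases h2 : i < lev x
    · rw [if_pos h, if_pos ⟨h, h2⟩]
      change min 1 (lev x - i) = 1
      omega
    · rw [if_pos h, if_neg (fun h' => h2 h'.2)]
      change min 1 (lev x - i) = 0
      omega
  · rw [if_neg h, if_neg (fun h' => h h'.1)]

/-- an upper cover outside the lower set -/
lemma exists_bd {D : Finset P} (hlev : ∀ x ∈ D, 0 < lev x) {x : P} (hx : x ∈ D) :
    ∃ z ∈ bdR D, x ≤ z := by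
  classical
  let S : Finset P := D.filter (fun z => x ≤ z)
  obtain ⟨z, hz⟩ := S.exists_maximal ⟨x, mem_filter.mpr ⟨hx, le_rfl⟩⟩
  have hz1 : z ∈ D ∧ x ≤ z := mem_filter.mp hz.1
  obtain ⟨y, hy, -⟩ := exists_lev_succ (x := z) (k := lev z - 1) (by have := hlev z hz1.1; omega)
  let T : Finset P := univ.filter (fun w => z < w)
  obtain ⟨w, hw⟩ := T.exists_minimal ⟨y, by simp [T, hy]⟩
  have hw1 : z < w := by simpa [T] using hw.1
  have hcov : z ⋖ w := ⟨hw1, fun v hv1 hv2 => by
    have hvT : v ∈ T := by simp [T, hv1]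
    exact absurd (hw.2 hvT hv2.le) (not_le_of_gt hv2)⟩
  refine ⟨z, mem_filter.mpr ⟨hz1.1, w, ?_, hcov⟩, hz1.2⟩
  intro hwD
  exact absurd (hz.2 (mem_filter.mpr ⟨hwD, hz1.2.trans hw1.le⟩) hw1.le) (not_le_of_gt hw1)

/-- elements which cannot be excited at energy `n` can be removed -/
theorem Z_cut {D : Finset P} (hD : ∀ x y, x ≤ y → y ∈ D → x ∈ D) {i n : ℕ}
    (hlev : ∀ x ∈ D, i < lev x) (hn : ∀ z ∈ D, n < ncone i z) :
    Z P i n = Z {x : P // x ∉ D} i n := by
  classical
  have h1 : DG i D (fun _ => 1) n = 0 := by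
    refine DG_eq_zero hlev fun z hz => ?_
    rw [cst_one]
    exact hn z (mem_filter.mp hz).1
  rw [Z_split i D (fun _ => 1) n, h1, add_zero, ← ZB_off hD hlev]
  unfold ND ZB
  refine Finset.sum_congr rfl fun F _ => ?_
  refine Finset.sum_congr (Finset.filter_congr fun e _ => ?_) fun _ _ => rfl
  unfold Cst
  constructor
  · rintro ⟨hV, hnd⟩
    refine ⟨hV, fun x hx => ?_, fun x _ hxF => ?_⟩
    · have hxF := not_mem_of_not_dg hlev hV hnd x hx
      obtain ⟨z, hz, hxz⟩ := exists_bd (fun x hx => by have := hlev x hx; omega) hx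
      have hzD := (mem_filter.mp hz).1
      have hzF := not_mem_of_not_dg hlev hV hnd z hzD
      have h2 := hnd z hz
      unfold Dgz at h2
      have h3 := hV.2.2.1 x z hxz hxF hzF
      rw [rho_of_lt (hlev x hx), rho_of_lt (hlev z hzD)] at h3
      refine ⟨hxF, ?_⟩
      have h4 : e z = 0 := by
        by_contra h
        exact h2 (Or.inr (by change 1 ≤ e z; omega))
      have h5 : (e x : ℤ) ≤ 0 := by
        rw [h4] at h3
        exact_mod_cast h3
      change e x = 0
      omega
    · have := hV.2.1 x hxF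
      simpa using this
  · rintro ⟨hV, h2, -⟩
    refine ⟨hV, fun z hz => ?_⟩
    obtain ⟨h3, h4⟩ := h2 z (mem_filter.mp hz).1
    rintro (h5 | h5)
    · exact h3 h5
    · have h6 : e z = 0 := h4
      have h7 : 1 ≤ e z := h5
      omega

end cut

end Pool.Agent.GaussPoset
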