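import Pool.Agent.W_448ec_h63.EA

/-!
Completion of a truncated shape: the window sums at small energies are those of the completed
shape; truncated Young shapes and truncated shifted shapes are clean.
-/

namespace Pool.Agent.GaussPoset

set_option linter.unusedSectionVars false

open Polynomial Finset OrderDual

universe u

/-- the poset of the cells of `S` (the cell `(0,0)` is the greatest one) -/
abbrev CelS (S : Finset (ℕ × ℕ)) : Type := {p : ℕ × ℕ // p ∈ S}ᵒᵈ

/-- the cell -/
def cel {S : Finset (ℕ × ℕ)} (x : CelS S) : ℕ × ℕ := (ofDual x).1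

lemma cel_inj {S : Finset (ℕ × ℕ)} : Function.Injective (cel (S := S)) := by
  intro x y h
  exact ofDual.injective (Subtype.ext h)

lemma cel_le {S : Finset (ℕ × ℕ)} (x y : CelS S) : x ≤ y ↔ cel y ≤ cel x := Iff.rfl

lemma cel_mem {S : Finset (ℕ × ℕ)} (x : CelS S) : cel x ∈ S := (ofDual x).2

lemma cel_surj {S : Finset (ℕ × ℕ)} {c : ℕ × ℕ} (hc : c ∈ S) : ∃ x : CelS S, cel x = c :=
  ⟨toDual ⟨c, hc⟩, rfl⟩

/-- levels from coordinates -/
lemma lev_co {Q : Type u} [Fintype Q] [PartialOrder Q] (co : Q → ℕ × ℕ)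
    (hle : ∀ x y : Q, x ≤ y ↔ co y ≤ co x)
    (hpred : ∀ x, co x ≠ (0, 0) → ∃ y, co y ≤ co x ∧ (co y).1 + (co y).2 + 1 = (co x).1 + (co x).2)
    (x : Q) : lev x = (co x).1 + (co x).2 := by
  apply le_antisymm
  · have h1 : StrictAnti (fun x : Q => (co x).1 + (co x).2) := by
      intro a b hab
      have h2 := (hle a b).1 hab.le
      have h3 : ¬ co a ≤ co b := fun h => not_le_of_gt hab ((hle b a).2 h)
      have h4 : (co b).1 ≤ (co a).1 := h2.1
      have h5 : (co b).2 ≤ (co a).2 := h2.2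
      have h6 : ¬ ((co a).1 ≤ (co b).1 ∧ (co a).2 ≤ (co b).2) := h3
      change (co b).1 + (co b).2 < (co a).1 + (co a).2
      omega
    exact lev_le h1 x
  · have key : ∀ m : ℕ, ∀ x : Q, (co x).1 + (co x).2 = m → m ≤ lev x := by
      intro m
      induction m with
      | zero => intro _ _; exact Nat.zero_le _
      | succ m ih =>
        intro x hx
        obtain ⟨y, hy, hy2⟩ := hpred x (by
          intro h
          rw [h] at hx
          simp at hx)
        have h1 := ih y (by omega)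
        have h2 : x < y := by
          refine lt_of_le_of_ne ((hle x y).2 hy) ?_
          rintro rfl
          omega
        have h3 := lev_strictAnti h2
        omega
    exact key _ x rfl

section complete

variable {Q : Type u} [Fintype Q] [PartialOrder Q] [DecidableEq Q]

/-- the completed shape has the same window sums at small energies -/
theorem Z_complete (co : Q → ℕ × ℕ) (hinj : Function.Injective co)
    (hle : ∀ x y : Q, x ≤ y ↔ co y ≤ co x) (S : Finset (ℕ × ℕ)) (hsub : ∀ x, co x ∈ S)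
    (hlow : ∀ x, ∀ c ≤ co x, c ∈ S → ∃ y, co y = c) {i n : ℕ}
    (hlevS : ∀ y : CelS S, lev y = (cel y).1 + (cel y).2)
    (hadd : ∀ c ∈ S, (∀ x, co x ≠ c) → i < c.1 + c.2 ∧
      n < (S.filter (fun c' => c' ≤ c ∧ i < c'.1 + c'.2)).card) :
    Z Q i n = Z (CelS S) i n := by
  classical
  set D : Finset (CelS S) := univ.filter (fun y => ∀ x, co x ≠ cel y) with hDdef
  have hmem : ∀ y, y ∈ D ↔ ∀ x, co x ≠ cel y := by
    intro y
    rw [hDdef, mem_filter]
    simp
  have hD : ∀ x y, x ≤ y → y ∈ D → x ∈ D := by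
    intro x y hxy hy
    rw [hmem] at hy ⊢
    intro z hz
    obtain ⟨w, hw⟩ := hlow z (cel y) (by rw [hz]; exact hxy) (cel_mem y)
    exact hy w hw
  have hlev : ∀ y ∈ D, i < lev y := by
    intro y hy
    rw [hlevS]
    exact (hadd (cel y) (cel_mem y) ((hmem y).1 hy)).1
  have hn : ∀ z ∈ D, n < ncone i z := by
    intro z hz
    refine lt_of_lt_of_le (hadd (cel z) (cel_mem z) ((hmem z).1 hz)).2 ?_
    have h1 : (S.filter (fun c' => c' ≤ cel z ∧ i < c'.1 + c'.2)) ⊆
        (univ.filter (fun x : CelS S => z ≤ x ∧ i < lev x)).image cel := by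
      intro c hc
      rw [mem_filter] at hc
      obtain ⟨y, hy⟩ := cel_surj hc.1
      rw [mem_image]
      refine ⟨y, ?_, hy⟩
      rw [mem_filter]
      refine ⟨mem_univ _, ?_, ?_⟩
      · rw [cel_le, hy]
        exact hc.2.1
      · rw [hlevS, hy]
        exact hc.2.2
    rw [ncone_eq]
    exact (card_le_card h1).trans card_image_le
  rw [Z_cut hD hlev hn]
  let f : Q → {y : CelS S // y ∉ D} := fun x =>
    ⟨toDual ⟨co x, hsub x⟩, fun h => (hmem _).1 h x rfl⟩
  have hbij : Function.Bijective f := by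
    constructor
    · intro x y hxy
      have h1 := congrArg (fun z => cel z.1) hxy
      exact hinj h1
    · rintro ⟨y, hy⟩
      rw [hmem] at hy
      push Not at hy
      obtain ⟨x, hx⟩ := hy
      refine ⟨x, Subtype.ext (cel_inj ?_)⟩
      exact hx
  let e : Q ≃o {y : CelS S // y ∉ D} :=
    { toEquiv := Equiv.ofBijective f hbij
      map_rel_iff' := by
        intro x y
        rw [hle]
        exact Iff.rfl }
  exact EcZ_iso e i n

/-- levels in a lower set of cells -/
lemma lev_cel {S : Finset (ℕ × ℕ)} (hS : ∀ c ∈ S, ∀ c' ≤ c, c' ∈ S) (y : CelS S) :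
    lev y = (cel y).1 + (cel y).2 := by
  refine lev_co cel cel_le (fun x hx => ?_) y
  rcases Nat.eq_zero_or_pos (cel x).1 with h | h
  · have h2 : 0 < (cel x).2 := by
      rcases Nat.eq_zero_or_pos (cel x).2 with h3 | h3
      · exact absurd (Prod.ext h h3) hx
      · exact h3
    have h4 : ((cel x).1, (cel x).2 - 1) ≤ cel x := ⟨le_rfl, Nat.sub_le _ _⟩
    obtain ⟨z, hz⟩ := cel_surj (hS _ (cel_mem x) _ h4)
    refine ⟨z, by rw [hz]; exact h4, ?_⟩
    rw [hz]
    simp only
    omega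
  · have h4 : ((cel x).1 - 1, (cel x).2) ≤ cel x := ⟨Nat.sub_le _ _, le_rfl⟩
    obtain ⟨z, hz⟩ := cel_surj (hS _ (cel_mem x) _ h4)
    refine ⟨z, by rw [hz]; exact h4, ?_⟩
    rw [hz]
    simp only
    omega

/-- levels in a lower set of shifted cells -/
lemma lev_cel_shift {S : Finset (ℕ × ℕ)} (hd : ∀ c ∈ S, c.1 ≤ c.2)
    (hS : ∀ c ∈ S, ∀ c' ≤ c, c'.1 ≤ c'.2 → c' ∈ S) (y : CelS S) :
    lev y = (cel y).1 + (cel y).2 := by
  refine lev_co cel cel_le (fun x hx => ?_) y
  have hdx := hd _ (cel_mem x)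
  rcases Nat.eq_zero_or_pos (cel x).1 with h | h
  · have h2 : 0 < (cel x).2 := by
      rcases Nat.eq_zero_or_pos (cel x).2 with h3 | h3
      · exact absurd (Prod.ext h h3) hx
      · exact h3
    have h4 : ((cel x).1, (cel x).2 - 1) ≤ cel x := ⟨le_rfl, Nat.sub_le _ _⟩
    obtain ⟨z, hz⟩ := cel_surj (hS _ (cel_mem x) _ h4 (by simp only; omega))
    refine ⟨z, by rw [hz]; exact h4, ?_⟩
    rw [hz]
    simp only
    omega
  · have h4 : ((cel x).1 - 1, (cel x).2) ≤ cel x := ⟨Nat.sub_le _ _, le_rfl⟩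
    obtain ⟨z, hz⟩ := cel_surj (hS _ (cel_mem x) _ h4 (by simp only; omega))
    refine ⟨z, by rw [hz]; exact h4, ?_⟩
    rw [hz]
    simp only
    omega

/-- the cone of an added cell -/
lemma cone_card {S : Finset (ℕ × ℕ)} {i r s c : ℕ} (hs : r ≤ s) (hc : r ≤ c)
    (hl : i + r + 1 ≤ s + c) (h1 : ∀ j ≤ r, (s - j, c) ∈ S) (h2 : ∀ j ≤ r, (s, c - j) ∈ S) :
    2 * r + 1 ≤ (S.filter (fun c' => c' ≤ (s, c) ∧ i < c'.1 + c'.2)).card := by
  classical
  have h3 : ((range (r + 1)).image (fun j => (s - j, c)) ∪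
      (range r).image (fun j => (s, c - (j + 1)))) ⊆
      S.filter (fun c' => c' ≤ (s, c) ∧ i < c'.1 + c'.2) := by
    intro p hp
    rw [mem_union, mem_image, mem_image] at hp
    rw [mem_filter]
    rcases hp with ⟨j, hj, rfl⟩ | ⟨j, hj, rfl⟩
    · rw [mem_range] at hj
      exact ⟨h1 j (by omega), ⟨Nat.sub_le _ _, le_rfl⟩, by simp only; omega⟩
    · rw [mem_range] at hj
      exact ⟨h2 (j + 1) (by omega), ⟨le_rfl, Nat.sub_le _ _⟩, by simp only; omega⟩
  refine le_trans ?_ (card_le_card h3)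
  rw [card_union_of_disjoint, card_image_of_injOn, card_image_of_injOn, card_range, card_range]
  · omega
  · intro a ha b hb hab
    rw [mem_coe, mem_range] at ha hb
    simp only [Prod.mk.injEq, true_and] at hab
    omega
  · intro a ha b hb hab
    rw [mem_coe, mem_range] at ha hb
    simp only [Prod.mk.injEq, and_true] at hab
    omega
  · rw [disjoint_left]
    intro p hp hp'
    rw [mem_image] at hp hp'
    obtain ⟨j, hj, rfl⟩ := hp
    obtain ⟨j', hj', h⟩ := hp'
    rw [mem_range] at hj hj'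
    simp only [Prod.mk.injEq] at h
    omega

/-- TRUNCATED YOUNG SHAPES: if the cells `(s,c)` with `s < k`, `c ≤ i`, `s + c ≤ J` are present then
the window `i` has order `k` at the energies up to `2 (J - i)` -/
theorem young_trunc (co : Q → ℕ × ℕ) (hinj : Function.Injective co)
    (hle : ∀ x y : Q, x ≤ y ↔ co y ≤ co x) (hlow : ∀ x : Q, ∀ c ≤ co x, ∃ y, co y = c)
    {i k J : ℕ} (hk : k ≤ i + 1) (hiJ : i ≤ J)
    (hbase : ∀ s c, s < k → c ≤ i → s + c ≤ J → ∃ x, co x = (s, c)) {n : ℕ}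
    (hn : n ≤ 2 * (J - i)) : (1 + X : ℤ[X]) ^ k ∣ Z Q i n := by
  classical
  set S : Finset (ℕ × ℕ) := univ.image co ∪ (range k ×ˢ range (i + 1)) with hSdef
  have hmem : ∀ p, p ∈ S ↔ (∃ x, co x = p) ∨ (p.1 < k ∧ p.2 ≤ i) := by
    intro p
    rw [hSdef, mem_union, mem_image, mem_product, mem_range, mem_range, Nat.lt_succ_iff]
    simp
  have hSlow : ∀ c ∈ S, ∀ c' ≤ c, c' ∈ S := by
    intro c hc c' hc'
    rw [hmem] at hc ⊢
    rcases hc with ⟨x, rfl⟩ | ⟨h1, h2⟩
    · exact Or.inl (hlow x c' hc')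
    · have h3 : c'.1 ≤ c.1 := hc'.1
      have h4 : c'.2 ≤ c.2 := hc'.2
      exact Or.inr ⟨by omega, by omega⟩
  have hZ := Z_complete co hinj hle S (fun x => (hmem _).2 (Or.inl ⟨x, rfl⟩))
    (fun x c hc _ => hlow x c hc) (i := i) (n := n) (lev_cel hSlow) (by
      rintro ⟨s, c⟩ hc hno
      have h1 : s < k ∧ c ≤ i := by
        rcases (hmem _).1 hc with ⟨x, hx⟩ | h
        · exact absurd hx (hno x)
        · exact h
      have h2 : J < s + c := by
        by_contra hcon
        obtain ⟨x, hx⟩ := hbase s c h1.1 h1.2 (by omega)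
        exact hno x hx
      refine ⟨by simp only; omega, ?_⟩
      have h3 := cone_card (S := S) (i := i) (r := J - i) (s := s) (c := c) (by omega) (by omega)
        (by omega) (fun j _ => (hmem _).2 (Or.inr ⟨by simp only; omega, h1.2⟩))
        (fun j _ => (hmem _).2 (Or.inr ⟨h1.1, by simp only; omega⟩))
      omega)
  rw [hZ]
  refine dvd_Z_of_dvd_W ?_ n
  refine Yg.young_dvd_co cel cel_inj cel_le (fun x c hc => cel_surj (hSlow _ (cel_mem x) c hc)) hk
    (fun s hs => cel_surj ((hmem _).2 (Or.inr ⟨by simp only; omega, le_rfl⟩)))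

end complete

end Pool.Agent.GaussPoset
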