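import Pool.Agent.W_448ec_h63.EB
import Pool.Agent.W_448win_h16.NormB

/-!
Duality: the window sums of a pure graded poset of rank `r` at the windows `i` and `r - i` of the
dual poset have the same divisibility by powers of `1 + X`.
-/

namespace Pool.Agent.GaussPoset

set_option linter.unusedSectionVars false

open Polynomial Finset OrderDual

universe u

/-- graded and pure of rank `r` -/
structure Pure' (Q : Type u) [Fintype Q] [PartialOrder Q] (r : ℕ) : Prop where
  cov : ∀ x y : Q, x ⋖ y → lev x = lev y + 1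
  le : ∀ x : Q, lev x ≤ r
  dual : ∀ x : Q, lev (toDual x) = r - lev x

section dual

variable {Q : Type u} [Fintype Q] [PartialOrder Q] [DecidableEq Q] {r : ℕ}

lemma Pure'.od (H : Pure' Q r) : Pure' Qᵒᵈ r where
  cov := by
    intro x y hxy
    have h1 : ofDual y ⋖ ofDual x := hxy.ofDual
    have h2 := H.cov _ _ h1
    have h3 := H.dual (ofDual x)
    have h4 := H.dual (ofDual y)
    have h5 := H.le (ofDual x)
    have h6 := H.le (ofDual y)
    rw [toDual_ofDual] at h3 h4
    omega
  le := by
    intro x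
    have h3 := H.dual (ofDual x)
    rw [toDual_ofDual] at h3
    omega
  dual := by
    intro x
    have h3 := H.dual (ofDual x)
    have h5 := H.le (ofDual x)
    rw [toDual_ofDual] at h3
    have h6 : lev (toDual x) = lev (ofDual x) := by
      have e : Qᵒᵈᵒᵈ ≃o Q := OrderIso.dualDual Q |>.symm
      have h7 := Ec_lev_iso (OrderIso.dualDual Q) (ofDual x)
      exact h7
    rw [h6, h3]
    omega

/-- the label function of the dual -/
def dlab (e : Q → ℕ) : Qᵒᵈ → ℕ := fun x => e (ofDual x)

/-- the filter of the dual -/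
def dfil (F : Finset Q) : Finset Qᵒᵈ := univ.filter (fun x => ofDual x ∉ F)

lemma mem_dfil {F : Finset Q} {x : Qᵒᵈ} : x ∈ dfil F ↔ ofDual x ∉ F := by
  unfold dfil
  rw [mem_filter]
  simp

lemma rho_dual (H : Pure' Q r) {i : ℕ} (hi : i ≤ r) (e : Q → ℕ) (x : Q) :
    rho (r - i) (dlab e) (toDual x) = rho i e x + (i : ℤ) - (lev x : ℤ) := by
  unfold rho dlab
  rw [H.dual]
  have h1 := H.le x
  simp only [ofDual_toDual]
  omega

/-- valid filters of the dual, one direction -/
lemma vd_dual (H : Pure' Q r) {i : ℕ} (hi : i ≤ r) {e : Q → ℕ} {F : Finset Q} (hV : Vd i e F) :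
    Vd (r - i) (dlab e) (dfil F) := by
  obtain ⟨h1, h2, h3, h4⟩ := hV
  -- on the filter: `rho - lev` is monotone downwards
  have key : ∀ y : Q, y ∈ F → ∀ x, x ≤ y → x ∈ F → rho i e y - lev y ≤ rho i e x - lev x := by
    intro y hy
    refine Win.normb_induct (C := fun x => x ∈ F → rho i e y - lev y ≤ rho i e x - lev x)
      (fun _ => le_rfl) ?_
    intro x z hxz hzy ih hx
    have hz : z ∈ F := h1 x z hxz.le hx
    have h5 := ih hz
    have h6 := h4 x z hxz.lt hx hz
    have h7 := H.cov x z hxz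
    omega
  refine ⟨?_, ?_, ?_, ?_⟩
  · intro a b hab ha
    rw [mem_dfil] at ha ⊢
    intro hb
    exact ha (h1 (ofDual b) (ofDual a) hab hb)
  · intro a ha
    rw [mem_dfil, not_not] at ha
    have h5 := rho_dual H hi e (ofDual a)
    rw [toDual_ofDual] at h5
    rw [h5]
    obtain ⟨t, ht, ht0⟩ := exists_above' (x := ofDual a) (j := 0) (Nat.zero_le _)
    have htF := h1 _ _ ht ha
    have h6 := key t htF (ofDual a) ht ha
    have h7 : -(i : ℤ) ≤ rho i e t := by
      unfold rho
      omega
    omega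
  · intro a b hab ha hb
    rw [mem_dfil, not_not] at ha hb
    have h5 := rho_dual H hi e (ofDual a)
    have h6 := rho_dual H hi e (ofDual b)
    rw [toDual_ofDual] at h5 h6
    rw [h5, h6]
    have h7 := key (ofDual a) ha (ofDual b) hab hb
    omega
  · intro a b hab ha hb
    rw [mem_dfil] at ha hb
    have h5 := rho_dual H hi e (ofDual a)
    have h6 := rho_dual H hi e (ofDual b)
    rw [toDual_ofDual] at h5 h6
    rw [h5, h6]
    have h7 : ofDual b < ofDual a := hab
    have h8 := h3 (ofDual b) (ofDual a) h7.le hb ha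
    have h9 := lev_strictAnti h7
    omega

lemma card_dfil (F : Finset Q) : (dfil F).card = Fintype.card Q - F.card := by
  have h1 : (dfil F).card = (Fᶜ).card := by
    refine Finset.card_bij (fun x _ => ofDual x) ?_ ?_ ?_
    · intro x hx
      rw [mem_dfil] at hx
      exact mem_compl.2 hx
    · intro x _ y _ h
      exact ofDual.injective h
    · intro y hy
      exact ⟨toDual y, mem_dfil.2 (mem_compl.1 hy), rfl⟩
  rw [h1, card_compl]

/-- the window sums of the dual -/
theorem Z_reflect (H : Pure' Q r) {i : ℕ} (hi : i ≤ r) (n : ℕ) :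
    Z Q i n = (Z Qᵒᵈ (r - i) n).reflect (Fintype.card Q) := by
  classical
  rw [Z_eq_sum, Z_eq_sum]
  have hrefl : (∑ e ∈ (univ : Finset Qᵒᵈ).piAntidiag n, ∑ F : Finset Qᵒᵈ,
      (if Vd (r - i) e F then (X : ℤ[X]) ^ F.card else 0)).reflect (Fintype.card Q) =
      ∑ e ∈ (univ : Finset Qᵒᵈ).piAntidiag n, ∑ F : Finset Qᵒᵈ,
        (if Vd (r - i) e F then (X : ℤ[X]) ^ (Fintype.card Q - F.card) else 0) := by
    have hadd : ∀ (ι : Type u) (s : Finset ι) (f : ι → ℤ[X]) (N : ℕ),
        (∑ a ∈ s, f a).reflect N = ∑ a ∈ s, (f a).reflect N := by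
      intro ι s f N
      induction s using Finset.induction_on with
      | empty => simp
      | insert a s ha ih => rw [sum_insert ha, sum_insert ha, reflect_add, ih]
    rw [hadd]
    refine Finset.sum_congr rfl fun e _ => ?_
    rw [hadd]
    refine Finset.sum_congr rfl fun F _ => ?_
    split_ifs
    · have h1 : F.card ≤ Fintype.card Q := by
        have := card_le_univ F
        rwa [Fintype.card_orderDual] at this
      have h2 := reflect_monomial (R := ℤ) (Fintype.card Q) F.card
      rw [h2, revAt_le h1]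
    · simp
  refine Eq.trans ?_ hrefl.symm
  rw [Finset.sum_sigma', Finset.sum_sigma']
  refine Finset.sum_bij' (fun a _ => (⟨dlab a.1, dfil a.2⟩ : (_ : Qᵒᵈ → ℕ) × (Finset Qᵒᵈ)))
    (fun a _ => (⟨fun x => a.1 (toDual x), univ.filter (fun x => toDual x ∉ a.2)⟩ :
      (_ : Q → ℕ) × (Finset Q))) ?_ ?_ ?_ ?_ ?_
  · rintro ⟨e, F⟩ ha
    simp only [mem_sigma, mem_univ, and_true, mem_piAntidiag] at ha ⊢
    refine ⟨?_, fun _ _ => trivial⟩
    rw [← ha.1]
    rfl
  · rintro ⟨e, F⟩ ha
    simp only [mem_sigma, mem_univ, and_true, mem_piAntidiag] at ha ⊢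
    refine ⟨?_, fun _ _ => trivial⟩
    rw [← ha.1]
    rfl
  · rintro ⟨e, F⟩ _
    simp only [Sigma.mk.injEq, heq_eq_eq]
    refine ⟨rfl, ?_⟩
    ext x
    simp [mem_dfil]
  · rintro ⟨e, F⟩ _
    simp only [Sigma.mk.injEq, heq_eq_eq]
    refine ⟨rfl, ?_⟩
    ext x
    rw [mem_dfil]
    simp
  · rintro ⟨e, F⟩ _
    simp only
    have h1 : F.card ≤ Fintype.card Q := card_le_univ F
    rw [card_dfil, Nat.sub_sub_self h1]
    have hiff : Vd i e F ↔ Vd (r - i) (dlab e) (dfil F) := by
      constructor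
      · exact vd_dual H hi
      · intro h
        have h2 := vd_dual H.od (Nat.sub_le r i) h
        rw [Nat.sub_sub_self hi] at h2
        obtain ⟨g1, g2, g3, g4⟩ := h2
        have hr : ∀ x : Q, rho i (dlab (dlab e)) (toDual (toDual x)) = rho i e x := by
          intro x
          unfold rho dlab
          have h7 : lev (toDual (toDual x)) = lev x := Ec_lev_iso (OrderIso.dualDual Q) x
          rw [h7]
          simp
        have hm : ∀ x : Q, toDual (toDual x) ∈ dfil (dfil F) ↔ x ∈ F := by
          intro x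
          rw [mem_dfil, mem_dfil]
          simp
        refine ⟨?_, ?_, ?_, ?_⟩
        · intro x y hxy hx
          rw [← hm] at hx ⊢
          exact g1 _ _ hxy hx
        · intro x hx
          rw [← hr]
          exact g2 _ (fun h => hx ((hm x).1 h))
        · intro x y hxy hx hy
          rw [← hr, ← hr]
          exact g3 _ _ hxy (fun h => hx ((hm x).1 h)) (fun h => hy ((hm y).1 h))
        · intro x y hxy hx hy
          rw [← hr, ← hr]
          exact g4 _ _ hxy ((hm x).2 hx) ((hm y).2 hy)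
    by_cases hV : Vd i e F
    · rw [if_pos hV, if_pos (hiff.1 hV)]
    · rw [if_neg hV, if_neg (fun h => hV (hiff.2 h))]

lemma reflect_one_add_pow (b : ℕ) : ((1 + X : ℤ[X]) ^ b).reflect b = (1 + X) ^ b := by
  induction b with
  | zero => simp
  | succ b ih =>
    have h1 : ((1 + X : ℤ[X]) ^ b).natDegree ≤ b := by
      have := natDegree_pow_le (p := (1 + X : ℤ[X])) (n := b)
      have h2 : (1 + X : ℤ[X]).natDegree = 1 := by
        rw [add_comm]
        exact natDegree_X_add_C (1 : ℤ)
      rw [h2] at this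
      omega
    have h2 : (1 + X : ℤ[X]).natDegree ≤ 1 := by
      rw [add_comm]
      exact (natDegree_X_add_C (1 : ℤ)).le
    rw [pow_succ, reflect_mul _ _ h1 h2, ih]
    congr 1
    rw [reflect_add]
    have h3 : (1 : ℤ[X]).reflect 1 = X := by
      have := reflect_C (1 : ℤ) 1
      simpa using this
    have h4 : (X : ℤ[X]).reflect 1 = 1 := by
      have := reflect_monomial (R := ℤ) 1 1
      simpa using this
    rw [h3, h4, add_comm]

lemma Ec_dvd_reflect {b N : ℕ} {p : ℤ[X]} (hN : p.natDegree ≤ N) (h : (1 + X : ℤ[X]) ^ b ∣ p) :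
    (1 + X : ℤ[X]) ^ b ∣ p.reflect N := by
  obtain ⟨q, hq⟩ := h
  have hm : (1 + X : ℤ[X]).Monic := by
    have := monic_X_add_C (1 : ℤ)
    rwa [map_one, add_comm] at this
  have hmb := hm.pow b
  have hd : ((1 + X : ℤ[X]) ^ b).natDegree = b := by
    rw [hm.natDegree_pow]
    have h2 : (1 + X : ℤ[X]).natDegree = 1 := by
      rw [add_comm]
      exact natDegree_X_add_C (1 : ℤ)
    rw [h2, mul_one]
  by_cases hq0 : q = 0
  · rw [hq, hq0, mul_zero, reflect_zero]
    exact dvd_zero _
  have h3 : p.natDegree = b + q.natDegree := by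
    rw [hq, hmb.natDegree_mul' hq0, hd]
  have h4 := reflect_mul ((1 + X : ℤ[X]) ^ b) q hd.le (show q.natDegree ≤ N - b by omega)
  rw [show b + (N - b) = N by omega, ← hq, reflect_one_add_pow] at h4
  rw [h4]
  exact dvd_mul_right _ _

lemma Z_natDegree {R : Type u} [Fintype R] [PartialOrder R] [DecidableEq R] (i n : ℕ) :
    (Z R i n).natDegree ≤ Fintype.card R := by
  classical
  rw [Z_eq_sum]
  refine natDegree_sum_le_of_forall_le _ _ fun e _ => ?_
  refine natDegree_sum_le_of_forall_le _ _ fun F _ => ?_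
  split_ifs
  · rw [natDegree_X_pow]
    exact card_le_univ F
  · simp

/-- DUALITY -/
theorem dvd_Z_dual (H : Pure' Q r) {i b : ℕ} (hi : i ≤ r) {n : ℕ}
    (h : (1 + X : ℤ[X]) ^ b ∣ Z Qᵒᵈ (r - i) n) : (1 + X : ℤ[X]) ^ b ∣ Z Q i n := by
  rw [Z_reflect H hi n]
  refine Ec_dvd_reflect ?_ h
  have := Z_natDegree (R := Qᵒᵈ) (r - i) n
  rwa [Fintype.card_orderDual] at this

end dual

end Pool.Agent.GaussPoset
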