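import Pool.Agent.W_448ec_h63.EC
import Pool.Agent.W_448fw_h5.FwT

/-!
Closed rectangles and closed staircases at the windows below the width, truncated versions.
-/

namespace Pool.Agent.GaussPoset

set_option linter.unusedSectionVars false

open Polynomial Finset OrderDual

universe u

/-- covers in a lower set of cells -/
lemma cel_cov {S : Finset (ℕ × ℕ)} {T : ℕ × ℕ → Prop} (hT : Conn T) (hST : ∀ c ∈ S, T c)
    (hlow : ∀ c ∈ S, ∀ c' ≤ c, T c' → c' ∈ S)
    (hlev : ∀ y : CelS S, lev y = (cel y).1 + (cel y).2) (x y : CelS S) (h : x ⋖ y) :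
    lev x = lev y + 1 := by
  have h1 : cel y ≤ cel x := h.le
  have h2 : cel y ≠ cel x := fun h' => h.lt.ne (cel_inj h').symm
  obtain ⟨p', hp', hcp, hpr⟩ := hT (cel y) (cel x) (hST _ (cel_mem y)) (hST _ (cel_mem x)) h1 h2
  obtain ⟨z, hz⟩ := cel_surj (hlow _ (cel_mem x) p' hpr.le hp')
  have h3 : x < z := by
    refine lt_of_le_of_ne ?_ ?_
    · rw [cel_le, hz]
      exact hpr.le
    · rintro rfl
      exact hpr.ne hz.symm
  have h4 : z ≤ y := by
    rw [cel_le, hz]
    exact hcp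
  have h5 : z = y := by
    rcases eq_or_lt_of_le h4 with h5 | h5
    · exact h5
    · exact absurd h5 (h.2 h3)
  rw [hlev, hlev, ← h5, hz]
  rcases hpr with h6 | h6 <;> omega

section rect

variable {p q : ℕ}

/-- the rectangle -/
def rec2 (p q : ℕ) : Finset (ℕ × ℕ) := range p ×ˢ range q

lemma mem_rec2 {p q : ℕ} {c : ℕ × ℕ} : c ∈ rec2 p q ↔ c.1 < p ∧ c.2 < q := by
  unfold rec2
  rw [mem_product, mem_range, mem_range]

lemma rec2_low : ∀ c ∈ rec2 p q, ∀ c' ≤ c, c' ∈ rec2 p q := by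
  intro c hc c' hc'
  rw [mem_rec2] at hc ⊢
  have h1 : c'.1 ≤ c.1 := hc'.1
  have h2 : c'.2 ≤ c.2 := hc'.2
  omega

/-- coordinates of the dual rectangle -/
def drec (p q : ℕ) (x : (CelS (rec2 p q))ᵒᵈ) : ℕ × ℕ :=
  (p - 1 - (cel (ofDual x)).1, q - 1 - (cel (ofDual x)).2)

lemma drec_lt (x : (CelS (rec2 p q))ᵒᵈ) : (cel (ofDual x)).1 < p ∧ (cel (ofDual x)).2 < q :=
  mem_rec2.1 (cel_mem _)

lemma drec_le (x y : (CelS (rec2 p q))ᵒᵈ) : x ≤ y ↔ drec p q y ≤ drec p q x := by
  have hx := drec_lt x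
  have hy := drec_lt y
  have h1 : x ≤ y ↔ cel (ofDual x) ≤ cel (ofDual y) := Iff.rfl
  rw [h1]
  unfold drec
  constructor
  · intro h
    have h2 : (cel (ofDual x)).1 ≤ (cel (ofDual y)).1 := h.1
    have h3 : (cel (ofDual x)).2 ≤ (cel (ofDual y)).2 := h.2
    exact ⟨by simp only; omega, by simp only; omega⟩
  · intro h
    have h2 : p - 1 - (cel (ofDual y)).1 ≤ p - 1 - (cel (ofDual x)).1 := h.1
    have h3 : q - 1 - (cel (ofDual y)).2 ≤ q - 1 - (cel (ofDual x)).2 := h.2
    exact ⟨by omega, by omega⟩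

lemma drec_inj : Function.Injective (drec p q) := by
  intro x y h
  have h1 := (drec_le x y).2 h.symm.le
  have h2 := (drec_le y x).2 h.le
  exact le_antisymm h1 h2

lemma drec_surj {c : ℕ × ℕ} (hc : c.1 < p ∧ c.2 < q) : ∃ x, drec p q x = c := by
  obtain ⟨y, hy⟩ := cel_surj (S := rec2 p q) (c := (p - 1 - c.1, q - 1 - c.2))
    (mem_rec2.2 ⟨by simp only; omega, by simp only; omega⟩)
  refine ⟨toDual y, ?_⟩
  unfold drec
  rw [ofDual_toDual, hy]
  simp only
  exact Prod.ext (by simp only; omega) (by simp only; omega)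

lemma drec_mem (x : (CelS (rec2 p q))ᵒᵈ) : (drec p q x).1 < p ∧ (drec p q x).2 < q := by
  have hx := drec_lt x
  unfold drec
  simp only
  omega

lemma pure_rect : Pure' (CelS (rec2 p q)) (p + q - 2) where
  cov := fun x y h => cel_cov conn_true (fun _ _ => trivial)
    (fun c hc c' hc' _ => rec2_low c hc c' hc') (lev_cel rec2_low) x y h
  le := by
    intro x
    rw [lev_cel rec2_low]
    have h1 := mem_rec2.1 (cel_mem x)
    omega
  dual := by
    intro x
    have h1 := mem_rec2.1 (cel_mem x)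
    have h2 : lev (toDual x) = (drec p q (toDual x)).1 + (drec p q (toDual x)).2 := by
      refine lev_co (drec p q) drec_le ?_ (toDual x)
      intro y hy
      have h3 := drec_mem y
      rcases Nat.eq_zero_or_pos (drec p q y).1 with h | h
      · have h2 : 0 < (drec p q y).2 := by
          rcases Nat.eq_zero_or_pos (drec p q y).2 with h3 | h3
          · exact absurd (Prod.ext h h3) hy
          · exact h3
        obtain ⟨z, hz⟩ := drec_surj (p := p) (q := q) (c := ((drec p q y).1, (drec p q y).2 - 1))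
          ⟨by simp only; omega, by simp only; omega⟩
        exact ⟨z, by rw [hz]; exact ⟨le_rfl, Nat.sub_le _ _⟩, by rw [hz]; simp only; omega⟩
      · obtain ⟨z, hz⟩ := drec_surj (p := p) (q := q) (c := ((drec p q y).1 - 1, (drec p q y).2))
          ⟨by simp only; omega, by simp only; omega⟩
        exact ⟨z, by rw [hz]; exact ⟨Nat.sub_le _ _, le_rfl⟩, by rw [hz]; simp only; omega⟩
    rw [h2, lev_cel rec2_low]
    unfold drec
    simp only [ofDual_toDual]
    omega

/-- the closed rectangle at a window below its width -/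
theorem rect_full {i : ℕ} (hp : p ≤ i + 1) (hq : q ≤ i + 1) (hr : i + 2 ≤ p + q) (n : ℕ) :
    (1 + X : ℤ[X]) ^ (p + q - 1 - i) ∣ Z (CelS (rec2 p q)) i n := by
  classical
  refine dvd_Z_dual (pure_rect (p := p) (q := q)) (by omega) ?_
  refine dvd_Z_of_dvd_W ?_ n
  refine Yg.young_dvd_co (drec p q) drec_inj drec_le ?_ (by omega) ?_
  · intro x c hc
    have h1 := drec_mem x
    have h2 : c.1 ≤ (drec p q x).1 := hc.1
    have h3 : c.2 ≤ (drec p q x).2 := hc.2
    exact drec_surj ⟨by omega, by omega⟩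
  · intro s hs
    exact drec_surj ⟨by simp only; omega, by simp only; omega⟩

/-- truncated rectangle -/
theorem rect_trunc {Q : Type u} [Fintype Q] [PartialOrder Q] [DecidableEq Q] (co : Q → ℕ × ℕ)
    (hinj : Function.Injective co) (hle : ∀ x y : Q, x ≤ y ↔ co y ≤ co x)
    (hlow : ∀ x : Q, ∀ c ≤ co x, ∃ y, co y = c) {i J : ℕ} (hp : p ≤ i + 1) (hq : q ≤ i + 1)
    (hr : i + 2 ≤ p + q) (hiJ : i ≤ J) (hsub : ∀ x, (co x).1 < p ∧ (co x).2 < q)
    (hbase : ∀ s c, s < p → c < q → s + c ≤ J → ∃ x, co x = (s, c)) {n : ℕ}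
    (hn : n ≤ 2 * (J - i)) : (1 + X : ℤ[X]) ^ (p + q - 1 - i) ∣ Z Q i n := by
  classical
  have hZ := Z_complete co hinj hle (rec2 p q) (fun x => mem_rec2.2 (hsub x))
    (fun x c hc _ => hlow x c hc) (i := i) (n := n) (lev_cel rec2_low) (by
      rintro ⟨s, c⟩ hc hno
      have h1 := mem_rec2.1 hc
      simp only at h1
      have h2 : J < s + c := by
        by_contra hcon
        obtain ⟨x, hx⟩ := hbase s c h1.1 h1.2 (by omega)
        exact hno x hx
      refine ⟨by simp only; omega, ?_⟩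
      have h3 := cone_card (S := rec2 p q) (i := i) (r := J - i) (s := s) (c := c) (by omega)
        (by omega) (by omega) (fun j _ => mem_rec2.2 ⟨by simp only; omega, h1.2⟩)
        (fun j _ => mem_rec2.2 ⟨h1.1, by simp only; omega⟩)
      omega)
  rw [hZ]
  exact rect_full hp hq hr n

end rect

section stair

variable {C : ℕ}

/-- the closed staircase -/
def stc (C : ℕ) : Finset (ℕ × ℕ) := (range C ×ˢ range C).filter (fun c => c.1 ≤ c.2)

lemma mem_stc {C : ℕ} {c : ℕ × ℕ} : c ∈ stc C ↔ c.1 ≤ c.2 ∧ c.2 < C := by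
  unfold stc
  rw [mem_filter, mem_product, mem_range, mem_range]
  omega

lemma stc_low : ∀ c ∈ stc C, ∀ c' ≤ c, c'.1 ≤ c'.2 → c' ∈ stc C := by
  intro c hc c' hc' h
  rw [mem_stc] at hc ⊢
  have h2 : c'.2 ≤ c.2 := hc'.2
  omega

lemma stc_shift : ∀ c ∈ stc C, c.1 ≤ c.2 := fun _ hc => (mem_stc.1 hc).1

/-- coordinates of the dual staircase -/
def dstc (C : ℕ) (x : (CelS (stc C))ᵒᵈ) : ℕ × ℕ :=
  (C - 1 - (cel (ofDual x)).2, C - 1 - (cel (ofDual x)).1)

lemma dstc_lt (x : (CelS (stc C))ᵒᵈ) :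
    (cel (ofDual x)).1 ≤ (cel (ofDual x)).2 ∧ (cel (ofDual x)).2 < C :=
  mem_stc.1 (cel_mem _)

lemma dstc_le (x y : (CelS (stc C))ᵒᵈ) : x ≤ y ↔ dstc C y ≤ dstc C x := by
  have hx := dstc_lt x
  have hy := dstc_lt y
  have h1 : x ≤ y ↔ cel (ofDual x) ≤ cel (ofDual y) := Iff.rfl
  rw [h1]
  unfold dstc
  constructor
  · intro h
    have h2 : (cel (ofDual x)).1 ≤ (cel (ofDual y)).1 := h.1
    have h3 : (cel (ofDual x)).2 ≤ (cel (ofDual y)).2 := h.2
    exact ⟨by simp only; omega, by simp only; omega⟩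
  · intro h
    have h2 : C - 1 - (cel (ofDual y)).2 ≤ C - 1 - (cel (ofDual x)).2 := h.1
    have h3 : C - 1 - (cel (ofDual y)).1 ≤ C - 1 - (cel (ofDual x)).1 := h.2
    exact ⟨by omega, by omega⟩

lemma dstc_inj : Function.Injective (dstc C) := by
  intro x y h
  have h1 := (dstc_le x y).2 h.symm.le
  have h2 := (dstc_le y x).2 h.le
  exact le_antisymm h1 h2

lemma dstc_surj {c : ℕ × ℕ} (hc : c.1 ≤ c.2 ∧ c.2 < C) : ∃ x, dstc C x = c := by
  obtain ⟨y, hy⟩ := cel_surj (S := stc C) (c := (C - 1 - c.2, C - 1 - c.1))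
    (mem_stc.2 ⟨by simp only; omega, by simp only; omega⟩)
  refine ⟨toDual y, ?_⟩
  unfold dstc
  rw [ofDual_toDual, hy]
  simp only
  exact Prod.ext (by simp only; omega) (by simp only; omega)

lemma dstc_mem (x : (CelS (stc C))ᵒᵈ) : (dstc C x).1 ≤ (dstc C x).2 ∧ (dstc C x).2 < C := by
  have hx := dstc_lt x
  unfold dstc
  simp only
  omega

lemma pure_stair : Pure' (CelS (stc C)) (2 * C - 2) where
  cov := fun x y h => cel_cov conn_shift stc_shift stc_low (lev_cel_shift stc_shift stc_low) x y h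
  le := by
    intro x
    rw [lev_cel_shift stc_shift stc_low]
    have h1 := mem_stc.1 (cel_mem x)
    omega
  dual := by
    intro x
    have h1 := mem_stc.1 (cel_mem x)
    have h2 : lev (toDual x) = (dstc C (toDual x)).1 + (dstc C (toDual x)).2 := by
      refine lev_co (dstc C) dstc_le ?_ (toDual x)
      intro y hy
      have h3 := dstc_mem y
      rcases Nat.eq_zero_or_pos (dstc C y).1 with h | h
      · have h2 : 0 < (dstc C y).2 := by
          rcases Nat.eq_zero_or_pos (dstc C y).2 with h3 | h3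
          · exact absurd (Prod.ext h h3) hy
          · exact h3
        obtain ⟨z, hz⟩ := dstc_surj (C := C) (c := ((dstc C y).1, (dstc C y).2 - 1))
          ⟨by simp only; omega, by simp only; omega⟩
        exact ⟨z, by rw [hz]; exact ⟨le_rfl, Nat.sub_le _ _⟩, by rw [hz]; simp only; omega⟩
      · obtain ⟨z, hz⟩ := dstc_surj (C := C) (c := ((dstc C y).1 - 1, (dstc C y).2))
          ⟨by simp only; omega, by simp only; omega⟩
        exact ⟨z, by rw [hz]; exact ⟨Nat.sub_le _ _, le_rfl⟩, by rw [hz]; simp only; omega⟩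
    rw [h2, lev_cel_shift stc_shift stc_low]
    unfold dstc
    simp only [ofDual_toDual]
    omega

/-- the closed staircase at a window below its width -/
theorem stair_full {i : ℕ} (hC : C ≤ i + 1) (hi : i + 2 ≤ 2 * C) (n : ℕ) :
    (1 + X : ℤ[X]) ^ ((2 * C - 2 - i) / 2 + 1) ∣ Z (CelS (stc C)) i n := by
  classical
  refine dvd_Z_dual (pure_stair (C := C)) (by omega) ?_
  refine dvd_Z_of_dvd_W ?_ n
  refine Yg.shift_dvd_cell (dstc C) dstc_inj (fun x => (dstc_mem x).1) dstc_le ?_ ?_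
  · intro x c hc hs
    have h1 := dstc_mem x
    have h3 : c.2 ≤ (dstc C x).2 := hc.2
    exact dstc_surj ⟨hs, by omega⟩
  · exact dstc_surj ⟨by simp only; omega, by simp only; omega⟩

end stair

end Pool.Agent.GaussPoset
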