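import Pool.Agent.W_448ec_h63.ED

/-!
Truncated staircases.
-/

namespace Pool.Agent.GaussPoset

set_option linter.unusedSectionVars false

open Polynomial Finset OrderDual

universe u

/-- a segment of a column -/
def sgm (a c L : ℕ) : Finset (ℕ × ℕ) := (range L).image (fun j => (a - j, c))

lemma sgm_card {a c L : ℕ} (h : L ≤ a + 1) : (sgm a c L).card = L := by
  unfold sgm
  rw [card_image_of_injOn, card_range]
  intro x hx y hy hxy
  rw [mem_coe, mem_range] at hx hy
  simp only [Prod.mk.injEq, and_true] at hxy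
  omega

lemma mem_sgm {a c L : ℕ} {p : ℕ × ℕ} (hp : p ∈ sgm a c L) : ∃ j < L, p = (a - j, c) := by
  unfold sgm at hp
  rw [mem_image] at hp
  obtain ⟨j, hj, rfl⟩ := hp
  exact ⟨j, mem_range.1 hj, rfl⟩

lemma sgm_disj {a c L a' c' L' : ℕ} (h : c ≠ c') : Disjoint (sgm a c L) (sgm a' c' L') := by
  rw [disjoint_left]
  intro p hp hp'
  obtain ⟨j, -, rfl⟩ := mem_sgm hp
  obtain ⟨j', -, h2⟩ := mem_sgm hp'
  simp only [Prod.mk.injEq] at h2
  exact h h2.2

/-- the cone of an added cell of a staircase -/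
lemma cone_stair {S : Finset (ℕ × ℕ)} {i q J n s c : ℕ}
    (hS : ∀ s' c', s' ≤ c' → c' < q → (s', c') ∈ S) (hq : q ≤ i + 1) (hsc : s ≤ c) (hc : c < q)
    (hJ : J < s + c) (h3 : i + 3 ≤ J) (hn : n ≤ 2 * (J - i))
    (hex : J = i + 3 → n = 6 → s = c → s + c = J + 1 → False) :
    n < (S.filter (fun c' => c' ≤ (s, c) ∧ i < c'.1 + c'.2)).card := by
  classical
  rcases Nat.eq_or_lt_of_le hsc with hf | hf
  · subst hf
    have hsub : sgm s s (2 * s - i) ∪ (sgm (s - 1) (s - 1) (2 * s - 2 - i) ∪
        sgm (s - 2) (s - 2) (2 * s - 4 - i)) ⊆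
        S.filter (fun c' => c' ≤ (s, s) ∧ i < c'.1 + c'.2) := by
      intro p hp
      rw [mem_filter]
      rw [mem_union, mem_union] at hp
      rcases hp with hp | hp | hp
      · obtain ⟨j, hj, rfl⟩ := mem_sgm hp
        exact ⟨hS _ _ (by omega) (by omega), ⟨Nat.sub_le _ _, le_rfl⟩, by simp only; omega⟩
      · obtain ⟨j, hj, rfl⟩ := mem_sgm hp
        exact ⟨hS _ _ (by omega) (by omega), ⟨by simp only; omega, by simp only; omega⟩,
          by simp only; omega⟩
      · obtain ⟨j, hj, rfl⟩ := mem_sgm hp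
        exact ⟨hS _ _ (by omega) (by omega), ⟨by simp only; omega, by simp only; omega⟩,
          by simp only; omega⟩
    have h4 := card_le_card hsub
    rw [card_union_of_disjoint (disjoint_union_right.2 ⟨sgm_disj (by omega), sgm_disj (by omega)⟩),
      card_union_of_disjoint (sgm_disj (by omega)), sgm_card (by omega), sgm_card (by omega),
      sgm_card (by omega)] at h4
    by_cases h6 : J = i + 3
    · by_cases h7 : n = 6
      · by_cases h8 : s + s = J + 1
        · exact (hex h6 h7 rfl h8).elim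
        · omega
      · omega
    · omega
  · have hsub : sgm s c (J - i + 1) ∪ sgm s (c - 1) (J - i) ⊆
        S.filter (fun c' => c' ≤ (s, c) ∧ i < c'.1 + c'.2) := by
      intro p hp
      rw [mem_filter]
      rw [mem_union] at hp
      rcases hp with hp | hp
      · obtain ⟨j, hj, rfl⟩ := mem_sgm hp
        exact ⟨hS _ _ (by omega) (by omega), ⟨Nat.sub_le _ _, le_rfl⟩, by simp only; omega⟩
      · obtain ⟨j, hj, rfl⟩ := mem_sgm hp
        exact ⟨hS _ _ (by omega) (by omega), ⟨Nat.sub_le _ _, by simp only; omega⟩,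
          by simp only; omega⟩
    have h4 := card_le_card hsub
    rw [card_union_of_disjoint (sgm_disj (by omega)), sgm_card (by omega),
      sgm_card (by omega)] at h4
    omega

/-- levels in the union of a shape and a base -/
theorem stair_trunc {Q : Type u} [Fintype Q] [PartialOrder Q] [DecidableEq Q] (co : Q → ℕ × ℕ)
    (hinj : Function.Injective co) (hge : ∀ x, (co x).1 ≤ (co x).2)
    (hle : ∀ x y : Q, x ≤ y ↔ co y ≤ co x)
    (hlow : ∀ x : Q, ∀ c ≤ co x, c.1 ≤ c.2 → ∃ y, co y = c) {i q J : ℕ} (hq : q ≤ i + 1)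
    (hr : i + 2 ≤ 2 * q) (hiJ : i + 3 ≤ J) (hsub : q = i + 1 ∨ ∀ x, (co x).2 < q)
    (hbase : ∀ s c, s ≤ c → c < q → s + c ≤ J → ∃ x, co x = (s, c)) {n : ℕ}
    (hn : n ≤ 2 * (J - i)) (hex : J = i + 3 → n = 6 → 2 * (J / 2) = J) :
    (1 + X : ℤ[X]) ^ (i / 2 + q - i) ∣ Z Q i n := by
  classical
  rcases hsub with hqi | hsub
  · set S : Finset (ℕ × ℕ) := univ.image co ∪ stc q with hSdef
    have hmem : ∀ p, p ∈ S ↔ (∃ x, co x = p) ∨ p ∈ stc q := by
      intro p
      rw [hSdef, mem_union, mem_image]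
      simp
    have hSge : ∀ c ∈ S, c.1 ≤ c.2 := by
      intro c hc
      rcases (hmem c).1 hc with ⟨x, rfl⟩ | h
      · exact hge x
      · exact stc_shift c h
    have hSlow : ∀ c ∈ S, ∀ c' ≤ c, c'.1 ≤ c'.2 → c' ∈ S := by
      intro c hc c' hc' hs
      rw [hmem] at hc ⊢
      rcases hc with ⟨x, rfl⟩ | h
      · exact Or.inl (hlow x c' hc' hs)
      · exact Or.inr (stc_low c h c' hc' hs)
    have hZ := Z_complete co hinj hle S (fun x => (hmem _).2 (Or.inl ⟨x, rfl⟩))
      (fun x c hc hcS => hlow x c hc (hSge c hcS)) (i := i) (n := n)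
      (lev_cel_shift hSge hSlow) (by
        rintro ⟨s, c⟩ hc hno
        have h1 : s ≤ c ∧ c < q := by
          rcases (hmem _).1 hc with ⟨x, hx⟩ | h
          · exact absurd hx (hno x)
          · exact mem_stc.1 h
        have h2 : J < s + c := by
          by_contra hcon
          obtain ⟨x, hx⟩ := hbase s c h1.1 h1.2 (by omega)
          exact hno x hx
        exact ⟨by simp only; omega, cone_stair
          (fun s' c' h h' => (hmem _).2 (Or.inr (mem_stc.2 ⟨h, h'⟩))) hq h1.1 h1.2 h2 hiJ hn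
          (fun h h' _ _ => by have := hex h h'; omega)⟩)
    rw [hZ]
    refine dvd_Z_of_dvd_W ?_ n
    have h1 := Yg.shift_dvd_cell (Q := CelS S) (i := i) cel cel_inj (fun x => hSge _ (cel_mem x))
      cel_le (fun x c hc hs => cel_surj (hSlow _ (cel_mem x) c hc hs))
      (cel_surj ((hmem _).2 (Or.inr (mem_stc.2 ⟨by simp only; omega, by simp only; omega⟩))))
    rwa [show i / 2 + q - i = i / 2 + 1 by omega]
  · have hZ := Z_complete co hinj hle (stc q) (fun x => mem_stc.2 ⟨hge x, hsub x⟩)
      (fun x c hc hcS => hlow x c hc (stc_shift c hcS)) (i := i) (n := n)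
      (lev_cel_shift stc_shift stc_low) (by
        rintro ⟨s, c⟩ hc hno
        have h1 := mem_stc.1 hc
        simp only at h1
        have h2 : J < s + c := by
          by_contra hcon
          obtain ⟨x, hx⟩ := hbase s c h1.1 h1.2 (by omega)
          exact hno x hx
        exact ⟨by simp only; omega, cone_stair
          (fun s' c' h h' => mem_stc.2 ⟨h, h'⟩) hq h1.1 h1.2 h2 hiJ hn
          (fun h h' _ _ => by have := hex h h'; omega)⟩)
    rw [hZ, show i / 2 + q - i = (2 * q - 2 - i) / 2 + 1 by omega]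
    exact stair_full hq hr n

end Pool.Agent.GaussPoset
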