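import Pool.Agent.W_448ec_h63.EE

/-!
Far data for a poset whose levels up to `J` are a truncated rectangle or staircase.
-/

namespace Pool.Agent.GaussPoset

set_option linter.unusedSectionVars false

open Polynomial Finset OrderDual

universe u

variable {Q : Type u} [Fintype Q] [PartialOrder Q] [DecidableEq Q]

open Classical in
/-- the elements of levels `≤ J` -/
noncomputable def loN (Q : Type u) [Fintype Q] [PartialOrder Q] (J : ℕ) : Finset Q :=
  univ.filter (fun x => lev x ≤ J)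

open Classical in
/-- the elements of levels `> J` -/
noncomputable def hiN (Q : Type u) [Fintype Q] [PartialOrder Q] (J : ℕ) : Finset Q :=
  univ.filter (fun x => J < lev x)

lemma mem_loN {J : ℕ} {x : Q} : x ∈ loN Q J ↔ lev x ≤ J := by
  unfold loN
  simp

lemma mem_hiN {J : ℕ} {x : Q} : x ∈ hiN Q J ↔ J < lev x := by
  unfold hiN
  simp

lemma lev_le_of_le {x y : Q} (h : x ≤ y) : lev y ≤ lev x := by
  rcases eq_or_lt_of_le h with h1 | h1
  · rw [h1]
  · exact (lev_strictAnti h1).le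

/-- the thresholds -/
def thE (p q : ℕ) (co : Q → ℕ × ℕ) (x : Q) : ℕ := ((co x).1 + 1 - p) + ((co x).2 + 1 - q)

open Classical in
/-- the thresholds, zero on the junk -/
noncomputable def thJ (J p q : ℕ) (co : Q → ℕ × ℕ) (x : Q) : ℕ :=
  if J < lev x then 0 else thE p q co x

lemma thJ_lo {J p q : ℕ} {co : Q → ℕ × ℕ} {x : Q} (h : lev x ≤ J) :
    thJ J p q co x = thE p q co x := by
  unfold thJ
  rw [if_neg (by omega)]

lemma thJ_pos {J p q : ℕ} {co : Q → ℕ × ℕ} {x : Q} (h : 1 ≤ thJ J p q co x) : lev x ≤ J := by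
  unfold thJ at h
  split_ifs at h with h1
  · omega
  · omega

/-- a poset whose levels up to `J` are a truncated shape -/
structure Tru (t : Q) (T : ℕ × ℕ → Prop) (co : Q → ℕ × ℕ) (i J p q : ℕ) : Prop where
  graded : GradedBelow Q
  chart : Chart t T (loN Q J) co
  hp : p ≤ i + 1
  hq : q ≤ i + 1
  hiJ : i + 3 ≤ J
  pcl : p = i + 1 ∨ ∀ x, lev x ≤ J → (co x).1 < p
  qcl : q = i + 1 ∨ ∀ x, lev x ≤ J → (co x).2 < q
  base : ∀ s c, T (s, c) → s < p → c < q → s + c ≤ J → ∃ x, lev x ≤ J ∧ co x = (s, c)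

variable {t : Q} {T : ℕ × ℕ → Prop} {co : Q → ℕ × ℕ} {i J p q : ℕ}

lemma Tru.mono (H : Tru t T co i J p q) {x y : Q} (hxy : x ≤ y) (hx : lev x ≤ J) :
    thE p q co y ≤ thE p q co x := by
  have hy : lev y ≤ J := (lev_le_of_le hxy).trans hx
  have h1 := (H.chart.le_iff x (mem_loN.2 hx) y (mem_loN.2 hy)).1 hxy
  have h2 : (co y).1 ≤ (co x).1 := h1.1
  have h3 : (co y).2 ≤ (co x).2 := h1.2
  unfold thE
  omega

lemma Tru.lev_pos (H : Tru t T co i J p q) {x : Q} (hx : lev x ≤ J) (h : 1 ≤ thE p q co x) :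
    i < lev x := by
  have h1 := H.chart.lev x (mem_loN.2 hx)
  unfold thE at h
  rcases H.pcl with h2 | h2
  · rcases H.qcl with h3 | h3
    · omega
    · have := h3 x hx
      omega
  · have h4 := h2 x hx
    rcases H.qcl with h3 | h3
    · omega
    · have := h3 x hx
      omega

lemma Tru.le_sub (H : Tru t T co i J p q) {x : Q} (hx : lev x ≤ J) :
    thE p q co x ≤ lev x - i := by
  have h1 := H.chart.lev x (mem_loN.2 hx)
  unfold thE
  rcases H.pcl with h2 | h2
  · rcases H.qcl with h3 | h3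
    · omega
    · have := h3 x hx
      omega
  · have h4 := h2 x hx
    rcases H.qcl with h3 | h3
    · omega
    · have := h3 x hx
      omega

/-- the shape minus elements with positive threshold -/
def Cln (Q : Type u) [Fintype Q] [PartialOrder Q] [DecidableEq Q] (co : Q → ℕ × ℕ)
    (i J p q b n0 : ℕ) : Prop :=
  ∀ D : Finset Q, (∀ x y, x ≤ y → y ∈ D → x ∈ D) → hiN Q J ⊆ D → (∀ x ∈ D, i < lev x) →
    (∀ x ∈ D, lev x ≤ J → 1 ≤ thE p q co x) → ∀ n < n0,
      (1 + X : ℤ[X]) ^ b ∣ Z {x : Q // x ∉ D} i n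

theorem Tru.farT (H : Tru t T co i J p q) {b n0 : ℕ} (hc : Cln Q co i J p q b n0) :
    FarT Q i (hiN Q J) b (hcan (hiN Q J) (thJ J p q co)) n0 := by
  classical
  have hiJ := H.hiJ
  have hR : ∀ x y : Q, x ≤ y → y ∈ hiN Q J → x ∈ hiN Q J := by
    intro x y hxy hy
    rw [mem_hiN] at hy ⊢
    exact hy.trans_le (lev_le_of_le hxy)
  have hRl : ∀ x ∈ hiN Q J, i < lev x := by
    intro x hx
    rw [mem_hiN] at hx
    omega
  let DD : Set (Finset Q) := {D | (∀ x y, x ≤ y → y ∈ D → x ∈ D) ∧ hiN Q J ⊆ D ∧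
    (∀ x ∈ D, i < lev x) ∧ ∀ x ∈ D, lev x ≤ J → 1 ≤ thE p q co x}
  have hRD : hiN Q J ∈ DD := ⟨hR, Subset.refl _, hRl, fun x hx hx2 => by
    rw [mem_hiN] at hx
    omega⟩
  have hbound := dvd_ZB_bounds_lt i ((1 + X : ℤ[X]) ^ b) n0 DD (thJ J p q co)
    (fun D hD => hD.1) (fun D hD => hD.2.2.1) (fun x hx => by
      have h1 := thJ_pos hx
      rw [thJ_lo h1] at hx
      exact H.lev_pos h1 hx) (fun D hD n hn => by
      rw [ZB_off hD.1 hD.2.2.1]
      exact hc D hD.1 hD.2.1 hD.2.2.1 hD.2.2.2 n hn) (by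
      intro D hD x hx hθ
      have h1 := thJ_pos hθ
      rw [thJ_lo h1] at hθ
      have h2 := H.lev_pos h1 hθ
      refine ⟨?_, hD.2.1.trans subset_union_left, ?_, ?_⟩
      · intro a c hac hc
        rw [mem_union, mem_dnf] at hc ⊢
        rcases hc with hc | hc
        · exact Or.inl (hD.1 a c hac hc)
        · exact Or.inr (hac.trans hc)
      · intro a ha
        rw [mem_union, mem_dnf] at ha
        rcases ha with ha | ha
        · exact hD.2.2.1 a ha
        · exact h2.trans_le (lev_le_of_le ha)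
      · intro a ha haJ
        rw [mem_union, mem_dnf] at ha
        rcases ha with ha | ha
        · exact hD.2.2.2 a ha haJ
        · exact hθ.trans (H.mono ha haJ)) (by
      intro D hD x hx hθ y hyx hyD x' hyx' hx'x
      have h1 := thJ_pos hθ
      have hyJ : lev y ≤ J := by
        by_contra hcon
        exact hyD (hD.2.1 (mem_hiN.2 (by omega)))
      have hx'J : lev x' ≤ J := (lev_le_of_le hyx'.le).trans hyJ
      rw [thJ_lo h1, thJ_lo hx'J]
      have e1 := (H.chart.le_iff y (mem_loN.2 hyJ) x (mem_loN.2 h1)).1 hyx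
      have e2 := (H.chart.le_iff y (mem_loN.2 hyJ) x' (mem_loN.2 hx'J)).1 hyx'.le
      have e3 : ¬ co x ≤ co x' := fun h =>
        hx'x ((H.chart.le_iff x' (mem_loN.2 hx'J) x (mem_loN.2 h1)).2 h)
      have e4 := H.chart.lev y (mem_loN.2 hyJ)
      have e5 := H.chart.lev x' (mem_loN.2 hx'J)
      have e6 := H.graded.lev_covBy hyx'
      have e7 : (co x).1 ≤ (co y).1 := e1.1
      have e8 : (co x).2 ≤ (co y).2 := e1.2
      have e9 : (co x').1 ≤ (co y).1 := e2.1
      have e10 : (co x').2 ≤ (co y).2 := e2.2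
      have e11 : ¬ ((co x).1 ≤ (co x').1 ∧ (co x).2 ≤ (co x').2) := e3
      unfold thE
      omega)
  refine ⟨H.graded, hRl, ?_, ?_, ?_⟩
  · intro g hg0 hg n hn
    refine dvd_ZB_labels_lt i _ n0 DD (thJ J p q co) (fun D hD => hD.1)
      (fun D hD => hD.2.2.1) hbound hRD g hg0 ?_ n hn
    intro y hy x hx hyx
    have h1 : y ∈ bdR (hiN Q J) := mem_filter.mpr ⟨hy, x, hx, hyx⟩
    have h2 := hg y h1
    have h3 := hcan_le (θ := thJ J p q co) hx hyx
    omega
  · intro z hz
    obtain ⟨x, -, -, hx⟩ := hcan_spec (θ := thJ J p q co) hz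
    omega
  · intro z hz
    obtain ⟨x, hxR, hzx, hx⟩ := hcan_spec (θ := thJ J p q co) hz
    have h1 := H.graded.lev_covBy hzx
    have h0 : lev x ≤ J := by
      rw [mem_hiN] at hxR
      omega
    have h2 := H.le_sub h0
    rw [thJ_lo h0] at hx
    have h3 := hRl z (mem_filter.mp hz).1
    omega

/-- coordinates of the complement of a lower set -/
lemma Tru.sub_facts (H : Tru t T co i J p q) {D : Finset Q}
    (hD : ∀ x y, x ≤ y → y ∈ D → x ∈ D) (hRD : hiN Q J ⊆ D)
    (hDθ : ∀ x ∈ D, lev x ≤ J → 1 ≤ thE p q co x) :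
    (∀ x : {x : Q // x ∉ D}, lev (x : Q) ≤ J) ∧
    (Function.Injective (fun x : {x : Q // x ∉ D} => co (x : Q))) ∧
    (∀ x y : {x : Q // x ∉ D}, x ≤ y ↔ co (y : Q) ≤ co (x : Q)) ∧
    (∀ x : {x : Q // x ∉ D}, ∀ c ≤ co (x : Q), T c → ∃ y : {x : Q // x ∉ D}, co (y : Q) = c) ∧
    (∀ s c, T (s, c) → s < p → c < q → s + c ≤ J →
      ∃ x : {x : Q // x ∉ D}, co (x : Q) = (s, c)) := by
  have h1 : ∀ x : {x : Q // x ∉ D}, lev (x : Q) ≤ J := by
    intro x
    by_contra hcon
    exact x.2 (hRD (mem_hiN.2 (by omega)))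
  refine ⟨h1, ?_, ?_, ?_, ?_⟩
  · intro x y h
    exact Subtype.ext (H.chart.inj x (mem_loN.2 (h1 x)) y (mem_loN.2 (h1 y)) h)
  · intro x y
    rw [← H.chart.le_iff x (mem_loN.2 (h1 x)) y (mem_loN.2 (h1 y))]
    exact Iff.rfl
  · intro x c hc hT
    obtain ⟨y, hy, hcy⟩ := H.chart.low x (mem_loN.2 (h1 x)) c hc hT
    have h2 : (x : Q) ≤ y := by
      rw [H.chart.le_iff x (mem_loN.2 (h1 x)) y hy, hcy]
      exact hc
    exact ⟨⟨y, fun h => x.2 (hD _ _ h2 h)⟩, hcy⟩
  · intro s c hT hs hc hsc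
    obtain ⟨x, hx, hcx⟩ := H.base s c hT hs hc hsc
    refine ⟨⟨x, fun h => ?_⟩, hcx⟩
    have h2 := hDθ x h hx
    unfold thE at h2
    rw [hcx] at h2
    simp only at h2
    omega

/-- truncated rectangles are clean -/
theorem Tru.cln_rect (H : Tru t (fun _ => True) co i J p q) (hr : i + 2 ≤ p + q) {n0 : ℕ}
    (hn0 : n0 ≤ 2 * (J - i) + 1) : Cln Q co i J p q (p + q - 1 - i) n0 := by
  classical
  intro D hD hRD hDi hDθ n hn
  obtain ⟨h1, h2, h3, h4, h5⟩ := H.sub_facts hD hRD hDθ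
  have hiJ := H.hiJ
  have hp := H.hp
  have hq := H.hq
  by_cases hqi : q = i + 1
  · have e1 : p + q - 1 - i = p := by omega
    rw [e1]
    exact young_trunc (fun x : {x : Q // x ∉ D} => co (x : Q)) h2 h3
      (fun x c hc => h4 x c hc trivial) (J := J) H.hp (by omega)
      (fun s c hs hc hsc => h5 s c trivial hs (by omega) hsc) (by omega)
  · by_cases hpi : p = i + 1
    · have e1 : p + q - 1 - i = q := by omega
      rw [e1]
      refine young_trunc (fun x : {x : Q // x ∉ D} => (co (x : Q)).swap) ?_ ?_ ?_ (J := J) H.hq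
        (by omega) ?_ (by omega)
      · intro x y h
        exact h2 (Prod.swap_injective h)
      · intro x y
        rw [h3 x y]
        exact Prod.swap_le_swap.symm
      · intro x c hc
        obtain ⟨y, hy⟩ := h4 x c.swap ⟨hc.2, hc.1⟩ trivial
        exact ⟨y, by rw [hy, Prod.swap_swap]⟩
      · intro s c hs hc hsc
        obtain ⟨y, hy⟩ := h5 c s trivial (by omega) hs (by omega)
        exact ⟨y, by rw [hy]; rfl⟩
    · have hsub : ∀ x : {x : Q // x ∉ D}, (co (x : Q)).1 < p ∧ (co (x : Q)).2 < q := fun x =>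
        ⟨H.pcl.resolve_left hpi x (h1 x), H.qcl.resolve_left hqi x (h1 x)⟩
      exact rect_trunc (fun x : {x : Q // x ∉ D} => co (x : Q)) h2 h3
        (fun x c hc => h4 x c hc trivial) H.hp H.hq hr (by omega) hsub
        (fun s c hs hc hsc => h5 s c trivial hs hc hsc) (by omega)

/-- truncated staircases are clean, with one exception -/
theorem Tru.cln_stair (H : Tru t (fun c => c.1 ≤ c.2) co i J (i + 1) q) (hr : i + 2 ≤ 2 * q)
    {n0 : ℕ} (hn0 : n0 ≤ 2 * (J - i) + 1) (hex : J = i + 3 → 7 ≤ n0 → 2 * (J / 2) = J) :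
    Cln Q co i J (i + 1) q (i / 2 + q - i) n0 := by
  classical
  intro D hD hRD hDi hDθ n hn
  obtain ⟨h1, h2, h3, h4, h5⟩ := H.sub_facts hD hRD hDθ
  have hiJ := H.hiJ
  have hq := H.hq
  refine stair_trunc (fun x : {x : Q // x ∉ D} => co (x : Q)) h2
    (fun x => H.chart.mem x (mem_loN.2 (h1 x))) h3 h4 H.hq hr H.hiJ ?_
    (fun s c hsc hc hJ => h5 s c hsc (by omega) hc hJ) (by omega) (fun h h' => hex h (by omega))
  rcases H.qcl with h | h
  · exact Or.inl h
  · exact Or.inr fun x => h x (h1 x)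

end Pool.Agent.GaussPoset
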