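import Pool.Agent.W_448ec_h63.EF

/-!
The exceptional energy of a truncated staircase.
-/

namespace Pool.Agent.GaussPoset

set_option linter.unusedSectionVars false

open Polynomial Finset OrderDual

universe u

section cut

variable {P : Type u} [Fintype P] [PartialOrder P] [DecidableEq P]

/-- the part of the window sum in which the elements of `D` are not excited -/
theorem ND_one {D : Finset P} (hD : ∀ x y, x ≤ y → y ∈ D → x ∈ D) {i n : ℕ}
    (hlev : ∀ x ∈ D, i < lev x) : ND i D (fun _ => 1) n = Z {x : P // x ∉ D} i n := by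
  classical
  rw [← ZB_off hD hlev]
  unfold ND ZB
  refine Finset.sum_congr rfl fun F _ => ?_
  refine Finset.sum_congr (Finset.filter_congr fun e _ => ?_) fun _ _ => rfl
  unfold Cst
  constructor
  · rintro ⟨hV, hnd⟩
    refine ⟨hV, fun x hx => ?_, fun x _ hxF => ?_⟩
    · have hxF := not_mem_of_not_dg hlev hV hnd x hx
      obtain ⟨z, hz, hxz⟩ := exists_bd (fun x hx => by have := hlev x hx; omega) hx
      have hzD := (mem_filter.mp hz).1
      have hzF := not_mem_of_not_dg hlev hV hnd z hzD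
      have h2 := hnd z hz
      unfold Dgz at h2
      have h3 := hV.2.2.1 x z hxz hxF hzF
      rw [rho_of_lt (hlev x hx), rho_of_lt (hlev z hzD)] at h3
      refine ⟨hxF, ?_⟩
      have h4 : e z = 0 := by
        by_contra h
        exact h2 (Or.inr (by change 1 ≤ e z; omega))
      have h5 : (e x : ℤ) ≤ 0 := by
        rw [h4] at h3
        exact_mod_cast h3
      change e x = 0
      omega
    · have := hV.2.1 x hxF
      simpa using this
  · rintro ⟨hV, h2, -⟩
    refine ⟨hV, fun z hz => ?_⟩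
    obtain ⟨h3, h4⟩ := h2 z (mem_filter.mp hz).1
    rintro (h5 | h5)
    · exact h3 h5
    · have h6 : e z = 0 := h4
      have h7 : 1 ≤ e z := h5
      omega

/-- removal of elements which can only be excited by the cheapest configuration -/
theorem dvd_Z_cut {D : Finset P} (hgr : GradedBelow P) (hD : ∀ x y, x ≤ y → y ∈ D → x ∈ D)
    {i n k : ℕ} (hlev : ∀ x ∈ D, i < lev x) (hn : ∀ z ∈ D, n ≤ ncone i z)
    (hk : ∀ z ∈ D, ncone i z = n → k + nab i z ≤ (lv P i).card + nab (i + 1) z)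
    (h : (1 + X : ℤ[X]) ^ k ∣ Z P i n) : (1 + X : ℤ[X]) ^ k ∣ Z {x : P // x ∉ D} i n := by
  classical
  have h0 := Z_split i D (fun _ => 1) n
  rw [ND_one hD hlev] at h0
  have h1 : (1 + X : ℤ[X]) ^ k ∣ DG i D (fun _ => 1) n := by
    rw [DG_eq (R := D) (h := fun _ => 1) hlev (fun _ _ => le_rfl) (fun z hz => by
      have := hlev z (mem_filter.1 hz).1
      omega) (fun z hz => by
        rw [cst_one]
        exact hn z (mem_filter.1 hz).1)]
    refine dvd_sum fun z hz => ?_
    rw [mem_filter, cst_one] at hz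
    have hzD := (mem_filter.1 hz.1).1
    have h2 := hk z hzD hz.2
    split_ifs with hA
    · refine Dvd.dvd.mul_left (pow_dvd_pow _ ?_) _
      have h3 := pk_ez (i := i) (h := fun _ : P => 1) (z := z) hgr
        (by have := hlev z hzD; omega) le_rfl
      omega
    · exact dvd_zero _
  have h2 : Z {x : P // x ∉ D} i n = Z P i n - DG i D (fun _ => 1) n := by
    rw [h0, add_sub_cancel_right]
  rw [h2]
  exact dvd_sub h h1

end cut

section cells

variable {S : Finset (ℕ × ℕ)}

/-- the number of cells of level `l` above `z` -/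
lemma nab_cel (hlev : ∀ y : CelS S, lev y = (cel y).1 + (cel y).2) (l : ℕ) (z : CelS S) :
    nab l z = (S.filter (fun c => c ≤ cel z ∧ c.1 + c.2 = l)).card := by
  have h0 : nab l z = ((lv (CelS S) l).filter (fun x => z ≤ x)).card := by
    unfold nab
    congr
  rw [h0]
  refine Finset.card_bij (fun y _ => cel y) ?_ ?_ ?_
  · intro y hy
    rw [mem_filter, mem_lv, hlev] at hy
    rw [mem_filter]
    exact ⟨cel_mem y, hy.2, hy.1⟩
  · intro y _ y' _ h
    exact cel_inj h
  · intro c hc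
    rw [mem_filter] at hc
    obtain ⟨y, hy⟩ := cel_surj hc.1
    refine ⟨y, ?_, hy⟩
    rw [mem_filter, mem_lv, hlev, hy]
    refine ⟨hc.2.2, ?_⟩
    rw [cel_le, hy]
    exact hc.2.1

lemma lv_cel (hlev : ∀ y : CelS S, lev y = (cel y).1 + (cel y).2) (l : ℕ) :
    (lv (CelS S) l).card = (S.filter (fun c => c.1 + c.2 = l)).card := by
  classical
  refine Finset.card_bij (fun y _ => cel y) ?_ ?_ ?_
  · intro y hy
    rw [mem_lv, hlev] at hy
    rw [mem_filter]
    exact ⟨cel_mem y, hy⟩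
  · intro y _ y' _ h
    exact cel_inj h
  · intro c hc
    rw [mem_filter] at hc
    obtain ⟨y, hy⟩ := cel_surj hc.1
    refine ⟨y, ?_, hy⟩
    rw [mem_lv, hlev, hy]
    exact hc.2

lemma cel_graded {T : ℕ × ℕ → Prop} (hT : Conn T) (hST : ∀ c ∈ S, T c)
    (hlow : ∀ c ∈ S, ∀ c' ≤ c, T c' → c' ∈ S)
    (hlev : ∀ y : CelS S, lev y = (cel y).1 + (cel y).2) : GradedBelow (CelS S) := by
  classical
  intro z x hzx
  let T' : Finset (CelS S) := univ.filter (fun w => z ≤ w ∧ w < x)
  obtain ⟨w, hw⟩ := T'.exists_maximal ⟨z, by simp [T', hzx]⟩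
  have hw1 : z ≤ w ∧ w < x := by simpa [T'] using hw.1
  refine ⟨w, hw1.1, hw1.2, cel_cov hT hST hlow hlev w x ⟨hw1.2, fun v hv1 hv2 => ?_⟩⟩
  have hvT : v ∈ T' := by simp [T', hv2, hw1.1.trans hv1.le]
  exact absurd (hw.2 hvT hv1.le) (not_le_of_gt hv1)

variable {Q : Type u} [Fintype Q] [PartialOrder Q] [DecidableEq Q]

/-- completion, with elements which can only be excited by the cheapest configuration -/
theorem dvd_complete (co : Q → ℕ × ℕ) (hinj : Function.Injective co)
    (hle : ∀ x y : Q, x ≤ y ↔ co y ≤ co x) (hsub : ∀ x, co x ∈ S)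
    (hlow : ∀ x, ∀ c ≤ co x, c ∈ S → ∃ y, co y = c) {i n k : ℕ} (hgr : GradedBelow (CelS S))
    (hlevS : ∀ y : CelS S, lev y = (cel y).1 + (cel y).2)
    (hadd : ∀ c ∈ S, (∀ x, co x ≠ c) → i < c.1 + c.2 ∧
      n ≤ (S.filter (fun c' => c' ≤ c ∧ i < c'.1 + c'.2)).card ∧
      ((S.filter (fun c' => c' ≤ c ∧ i < c'.1 + c'.2)).card = n →
        k + (S.filter (fun c' => c' ≤ c ∧ c'.1 + c'.2 = i)).card ≤
        (S.filter (fun c' => c'.1 + c'.2 = i)).card +
          (S.filter (fun c' => c' ≤ c ∧ c'.1 + c'.2 = i + 1)).card))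
    (h : (1 + X : ℤ[X]) ^ k ∣ Z (CelS S) i n) : (1 + X : ℤ[X]) ^ k ∣ Z Q i n := by
  classical
  set D : Finset (CelS S) := univ.filter (fun y => ∀ x, co x ≠ cel y) with hDdef
  have hmem : ∀ y, y ∈ D ↔ ∀ x, co x ≠ cel y := by
    intro y
    rw [hDdef, mem_filter]
    simp
  have hD : ∀ x y, x ≤ y → y ∈ D → x ∈ D := by
    intro x y hxy hy
    rw [hmem] at hy ⊢
    intro z hz
    obtain ⟨w, hw⟩ := hlow z (cel y) (by rw [hz]; exact hxy) (cel_mem y)
    exact hy w hw
  have hlev : ∀ y ∈ D, i < lev y := by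
    intro y hy
    rw [hlevS]
    exact (hadd (cel y) (cel_mem y) ((hmem y).1 hy)).1
  have hcone : ∀ z : CelS S, ncone i z =
      (S.filter (fun c' => c' ≤ cel z ∧ i < c'.1 + c'.2)).card := by
    intro z
    rw [ncone_eq]
    refine Finset.card_bij (fun y _ => cel y) ?_ ?_ ?_
    · intro y hy
      rw [mem_filter, hlevS] at hy
      rw [mem_filter]
      exact ⟨cel_mem y, hy.2.1, hy.2.2⟩
    · intro y _ y' _ h
      exact cel_inj h
    · intro c hc
      rw [mem_filter] at hc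
      obtain ⟨y, hy⟩ := cel_surj hc.1
      refine ⟨y, ?_, hy⟩
      rw [mem_filter, hlevS, hy]
      refine ⟨mem_univ _, ?_, hc.2.2⟩
      rw [cel_le, hy]
      exact hc.2.1
  have hcut := dvd_Z_cut (k := k) hgr hD hlev (fun z hz => by
    rw [hcone]
    exact (hadd (cel z) (cel_mem z) ((hmem z).1 hz)).2.1) (fun z hz hzn => by
    rw [hcone] at hzn
    rw [nab_cel hlevS, nab_cel hlevS, lv_cel hlevS]
    exact (hadd (cel z) (cel_mem z) ((hmem z).1 hz)).2.2 hzn) h
  let f : Q → {y : CelS S // y ∉ D} := fun x =>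
    ⟨toDual ⟨co x, hsub x⟩, fun h => (hmem _).1 h x rfl⟩
  have hbij : Function.Bijective f := by
    constructor
    · intro x y hxy
      have h1 := congrArg (fun z => cel z.1) hxy
      exact hinj h1
    · rintro ⟨y, hy⟩
      rw [hmem] at hy
      push Not at hy
      obtain ⟨x, hx⟩ := hy
      refine ⟨x, Subtype.ext (cel_inj ?_)⟩
      exact hx
  let e : Q ≃o {y : CelS S // y ∉ D} :=
    { toEquiv := Equiv.ofBijective f hbij
      map_rel_iff' := by
        intro x y
        rw [hle]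
        exact Iff.rfl }
  rw [EcZ_iso e i n]
  exact hcut

end cells

section exc

/-- counts at the fold -/
lemma fold_counts {S : Finset (ℕ × ℕ)} {i q s : ℕ} (hSge : ∀ c ∈ S, c.1 ≤ c.2)
    (hS : ∀ s' c', s' ≤ c' → c' < q → (s', c') ∈ S) (hs : s < q) (hi : i + 4 = 2 * s)
    (hq : q ≤ i + 1) (hr : i + 2 ≤ 2 * q) :
    (i / 2 + q - i - 1) + (S.filter (fun c' => c' ≤ (s, s) ∧ c'.1 + c'.2 = i)).card ≤
        (S.filter (fun c' => c'.1 + c'.2 = i)).card +
          (S.filter (fun c' => c' ≤ (s, s) ∧ c'.1 + c'.2 = i + 1)).card := by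
  classical
  have h1 : (S.filter (fun c' => c' ≤ (s, s) ∧ c'.1 + c'.2 = i)).card ≤ 3 := by
    have h2 : S.filter (fun c' => c' ≤ (s, s) ∧ c'.1 + c'.2 = i) ⊆
        {(s - 4, s), (s - 3, s - 1), (s - 2, s - 2)} := by
      intro p hp
      rw [mem_filter] at hp
      obtain ⟨h3, h4, h5⟩ := hp
      have h6 := hSge p h3
      have h7 : p.1 ≤ s := h4.1
      have h8 : p.2 ≤ s := h4.2
      rw [mem_insert, mem_insert, mem_singleton]
      by_cases h9 : p.2 = s
      · exact Or.inl (Prod.ext (by simp only; omega) h9)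
      · by_cases h10 : p.2 = s - 1
        · exact Or.inr (Or.inl (Prod.ext (by simp only; omega) h10))
        · exact Or.inr (Or.inr (Prod.ext (by simp only; omega) (by simp only; omega)))
    exact (card_le_card h2).trans (card_le_three)
  have h2 : 2 ≤ (S.filter (fun c' => c' ≤ (s, s) ∧ c'.1 + c'.2 = i + 1)).card := by
    have h3 : ({(s - 3, s), (s - 2, s - 1)} : Finset (ℕ × ℕ)) ⊆
        S.filter (fun c' => c' ≤ (s, s) ∧ c'.1 + c'.2 = i + 1) := by
      intro p hp
      rw [mem_insert, mem_singleton] at hp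
      rw [mem_filter]
      rcases hp with rfl | rfl
      · exact ⟨hS _ _ (by omega) hs, ⟨Nat.sub_le _ _, le_rfl⟩, by simp only; omega⟩
      · exact ⟨hS _ _ (by omega) (by omega), ⟨Nat.sub_le _ _, Nat.sub_le _ _⟩,
          by simp only; omega⟩
    have h4 := card_le_card h3
    rwa [card_pair (by
      intro h
      have := congrArg Prod.snd h
      simp only at this
      omega)] at h4
  have h3 : i / 2 + q - i ≤ (S.filter (fun c' => c'.1 + c'.2 = i)).card := by
    have h4 : (range (i / 2 + q - i)).image (fun a => (i / 2 - a, i - (i / 2 - a))) ⊆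
        S.filter (fun c' => c'.1 + c'.2 = i) := by
      intro p hp
      rw [mem_image] at hp
      obtain ⟨a, ha, rfl⟩ := hp
      rw [mem_range] at ha
      rw [mem_filter]
      exact ⟨hS _ _ (by omega) (by omega), by simp only; omega⟩
    have h5 := card_le_card h4
    rwa [card_image_of_injOn, card_range] at h5
    intro a ha b hb hab
    rw [mem_coe, mem_range] at ha hb
    simp only [Prod.mk.injEq] at hab
    omega
  omega

/-- TRUNCATED STAIRCASES, EXCEPTIONAL ENERGY: order one less -/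
theorem stair_trunc_exc {Q : Type u} [Fintype Q] [PartialOrder Q] [DecidableEq Q]
    (co : Q → ℕ × ℕ) (hinj : Function.Injective co) (hge : ∀ x, (co x).1 ≤ (co x).2)
    (hle : ∀ x y : Q, x ≤ y ↔ co y ≤ co x)
    (hlow : ∀ x : Q, ∀ c ≤ co x, c.1 ≤ c.2 → ∃ y, co y = c) {i q J : ℕ} (hq : q ≤ i + 1)
    (hr : i + 2 ≤ 2 * q) (hiJ : J = i + 3) (hsub : q = i + 1 ∨ ∀ x, (co x).2 < q)
    (hbase : ∀ s c, s ≤ c → c < q → s + c ≤ J → ∃ x, co x = (s, c)) :
    (1 + X : ℤ[X]) ^ (i / 2 + q - i - 1) ∣ Z Q i 6 := by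
  classical
  have key : ∀ S : Finset (ℕ × ℕ), (∀ c ∈ S, c.1 ≤ c.2) →
      (∀ c ∈ S, ∀ c' ≤ c, c'.1 ≤ c'.2 → c' ∈ S) →
      (∀ s' c', s' ≤ c' → c' < q → (s', c') ∈ S) → (∀ x, co x ∈ S) →
      (∀ c ∈ S, (∀ x, co x ≠ c) → c.1 ≤ c.2 ∧ c.2 < q) →
      (1 + X : ℤ[X]) ^ (i / 2 + q - i) ∣ Z (CelS S) i 6 →
      (1 + X : ℤ[X]) ^ (i / 2 + q - i - 1) ∣ Z Q i 6 := by
    intro S hSge hSlow hS hsubS hadd hd
    refine dvd_complete co hinj hle hsubS (fun x c hc hcS => hlow x c hc (hSge c hcS))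
      (cel_graded conn_shift hSge hSlow (lev_cel_shift hSge hSlow))
      (lev_cel_shift hSge hSlow) ?_ ((pow_dvd_pow _ (Nat.sub_le _ _)).trans hd)
    rintro ⟨s, c⟩ hc hno
    obtain ⟨h1, h1'⟩ := hadd _ hc hno
    simp only at h1 h1'
    have h2 : J < s + c := by
      by_contra hcon
      obtain ⟨x, hx⟩ := hbase s c h1 h1' (by omega)
      exact hno x hx
    have h3 := cone_stair (n := 5) hS hq h1 h1' h2 (by omega) (by omega) (fun _ h _ _ => by omega)
    refine ⟨by simp only; omega, by omega, fun h4 => ?_⟩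
    by_cases h5 : s = c ∧ s + c = J + 1
    · obtain ⟨h5, h6⟩ := h5
      subst h5
      exact fold_counts hSge hS h1' (by omega) hq hr
    · have h6 := cone_stair (n := 6) hS hq h1 h1' h2 (by omega) (by omega)
        (fun _ _ h h' => h5 ⟨h, h'⟩)
      omega
  rcases hsub with hqi | hsub
  · set S : Finset (ℕ × ℕ) := univ.image co ∪ stc q with hSdef
    have hmem : ∀ p, p ∈ S ↔ (∃ x, co x = p) ∨ p ∈ stc q := by
      intro p
      rw [hSdef, mem_union, mem_image]
      simp
    have hSge : ∀ c ∈ S, c.1 ≤ c.2 := by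
      intro c hc
      rcases (hmem c).1 hc with ⟨x, rfl⟩ | h
      · exact hge x
      · exact stc_shift c h
    have hSlow : ∀ c ∈ S, ∀ c' ≤ c, c'.1 ≤ c'.2 → c' ∈ S := by
      intro c hc c' hc' hs
      rw [hmem] at hc ⊢
      rcases hc with ⟨x, rfl⟩ | h
      · exact Or.inl (hlow x c' hc' hs)
      · exact Or.inr (stc_low c h c' hc' hs)
    refine key S hSge hSlow (fun s' c' h h' => (hmem _).2 (Or.inr (mem_stc.2 ⟨h, h'⟩)))
      (fun x => (hmem _).2 (Or.inl ⟨x, rfl⟩)) (fun c hc hno => ?_) ?_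
    · rcases (hmem _).1 hc with ⟨x, hx⟩ | h
      · exact absurd hx (hno x)
      · exact mem_stc.1 h
    · refine dvd_Z_of_dvd_W ?_ 6
      have h1 := Yg.shift_dvd_cell (Q := CelS S) (i := i) cel cel_inj
        (fun x => hSge _ (cel_mem x))
        cel_le (fun x c hc hs => cel_surj (hSlow _ (cel_mem x) c hc hs))
        (cel_surj ((hmem _).2 (Or.inr (mem_stc.2 ⟨by simp only; omega, by simp only; omega⟩))))
      rwa [show i / 2 + q - i = i / 2 + 1 by omega]
  · refine key (stc q) stc_shift stc_low (fun s' c' h h' => mem_stc.2 ⟨h, h'⟩)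
      (fun x => mem_stc.2 ⟨hge x, hsub x⟩) (fun c hc _ => mem_stc.1 hc) ?_
    rw [show i / 2 + q - i = (2 * q - 2 - i) / 2 + 1 by omega]
    exact stair_full hq hr 6

end exc

/-- the exceptional energy, all lower sets -/
theorem Tru.cln_exc {Q : Type u} [Fintype Q] [PartialOrder Q] [DecidableEq Q] {t : Q}
    {co : Q → ℕ × ℕ} {i J q : ℕ} (H : Tru t (fun c => c.1 ≤ c.2) co i J (i + 1) q)
    (hr : i + 2 ≤ 2 * q) (hJ : J = i + 3) : Cln Q co i J (i + 1) q (i / 2 + q - i - 1) 7 := by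
  classical
  intro D hD hRD hDi hDθ n hn
  obtain ⟨h1, h2, h3, h4, h5⟩ := H.sub_facts hD hRD hDθ
  have hq := H.hq
  have hs : q = i + 1 ∨ ∀ x : {x : Q // x ∉ D}, (co (x : Q)).2 < q := by
    rcases H.qcl with h | h
    · exact Or.inl h
    · exact Or.inr fun x => h x (h1 x)
  by_cases hn6 : n = 6
  · subst hn6
    exact stair_trunc_exc (fun x : {x : Q // x ∉ D} => co (x : Q)) h2
      (fun x => H.chart.mem x (mem_loN.2 (h1 x))) h3 h4 H.hq hr hJ hs
      (fun s c hsc hc hJ => h5 s c hsc (by omega) hc hJ)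
  · exact (pow_dvd_pow _ (Nat.sub_le _ _)).trans
      (stair_trunc (fun x : {x : Q // x ∉ D} => co (x : Q)) h2
      (fun x => H.chart.mem x (mem_loN.2 (h1 x))) h3 h4 H.hq hr H.hiJ hs
      (fun s c hsc hc hJ => h5 s c hsc (by omega) hc hJ) (by omega)
      (fun _ h' => absurd h' hn6))

end Pool.Agent.GaussPoset
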