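import Pool.Agent.W_448ec_h63.EG

/-!
Costs of the elements of level `J + 1`.
-/

namespace Pool.Agent.GaussPoset

set_option linter.unusedSectionVars false

open Polynomial Finset OrderDual

universe u

variable {Q : Type u} [Fintype Q] [PartialOrder Q] [DecidableEq Q]
variable {t : Q} {T : ℕ × ℕ → Prop} {co : Q → ℕ × ℕ} {i J p q : ℕ}

/-- the elements of the boundary have level `J + 1` -/
lemma bd_lev (hgr : GradedBelow Q) {z x : Q} (hz : J < lev z) (hx : lev x ≤ J) (h : z ⋖ x) :
    lev z = J + 1 ∧ lev x = J := by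
  have := hgr.lev_covBy h
  omega

lemma sum_min_two (i : ℕ) : ∀ L : ℕ, ∑ k ∈ range (i + L + 2), min 2 (k - i) * 1 = 2 * L + 1 := by
  intro L
  induction L with
  | zero =>
    rw [Finset.sum_range_succ]
    have h1 : ∑ k ∈ range (i + 0 + 1), min 2 (k - i) * 1 = 0 := by
      refine Finset.sum_eq_zero fun k hk => ?_
      rw [mem_range] at hk
      omega
    rw [h1]
    omega
  | succ L ih =>
    rw [show i + (L + 1) + 2 = (i + L + 2) + 1 by ring, Finset.sum_range_succ, ih]
    omega

/-- label at least two -/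
lemma cost_two {h : Q → ℕ} {z : Q} (hz : lev z = J + 1) (hiJ : i ≤ J) (h2 : 2 ≤ h z) :
    2 * (J - i) + 1 ≤ cst i h z := by
  have h3 := cst_ge (h := h) (z := z) (i := i) (fun _ => 1) (fun k _ hk => one_le_nab hk)
  refine le_trans ?_ h3
  obtain ⟨L, hL⟩ : ∃ L, J = i + L := ⟨J - i, by omega⟩
  rw [hz, hL, show i + L + 1 + 1 = i + L + 2 by ring]
  have h4 := sum_min_two i L
  rw [show i + L - i = L by omega, ← h4]
  refine Finset.sum_le_sum fun k _ => ?_
  have : min 2 (k - i) ≤ min (h z) (k - i) := min_le_min_right _ h2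
  omega

/-- label one -/
lemma cost_one {h : Q → ℕ} {z : Q} (hz : lev z = J + 1) (hiJ : i ≤ J) (h1 : h z = 1) (g : ℕ → ℕ)
    (hg : ∀ m < J - i, g m ≤ nab (J - m) z) :
    1 + ∑ m ∈ range (J - i), g m ≤ cst i h z ∧
      (cst i h z = 1 + ∑ m ∈ range (J - i), g m → ∀ m < J - i, nab (J - m) z = g m) := by
  classical
  have e1 : cst i h z = nab (J + 1) z + ∑ k ∈ range (J + 1), min (h z) (k - i) * nab k z := by
    rw [cst_eq, hz, Finset.sum_range_succ, h1, add_comm]
    congr 1
    rw [Nat.min_eq_left (by omega), one_mul]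
  have e2 : ∑ m ∈ range (J - i), nab (J - m) z ≤
      ∑ k ∈ range (J + 1), min (h z) (k - i) * nab k z := by
    have h3 : (range (J - i)).image (fun m => J - m) ⊆ range (J + 1) := by
      intro k hk
      rw [mem_image] at hk
      obtain ⟨m, -, rfl⟩ := hk
      rw [mem_range]
      omega
    refine le_trans (le_of_eq ?_) (Finset.sum_le_sum_of_subset h3)
    rw [Finset.sum_image]
    · refine Finset.sum_congr rfl fun m hm => ?_
      rw [mem_range] at hm
      rw [h1, Nat.min_eq_left (by omega), one_mul]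
    · intro a ha b hb hab
      rw [mem_coe, mem_range] at ha hb
      simp only at hab
      omega
  have e3 : ∑ m ∈ range (J - i), g m ≤ ∑ m ∈ range (J - i), nab (J - m) z :=
    Finset.sum_le_sum fun m hm => hg m (mem_range.1 hm)
  have e4 : 1 ≤ nab (J + 1) z := one_le_nab hz.ge
  refine ⟨by omega, fun h5 => ?_⟩
  have h6 : ∑ m ∈ range (J - i), g m = ∑ m ∈ range (J - i), nab (J - m) z := by omega
  have h7 := (Finset.sum_eq_sum_iff_of_le (fun m hm => hg m (mem_range.1 hm))).1 h6
  exact fun m hm => (h7 m (mem_range.2 hm)).symm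

/-- lower bounds from the chart: two elements -/
lemma nab_two (H : Tru t T co i J p q) {x : Q} (hx : lev x ≤ J) {l a b a' b' : ℕ}
    (h1 : a + b = l) (h2 : a' + b' = l) (hne : a ≠ a') (ha : a ≤ (co x).1) (hb : b ≤ (co x).2)
    (ha' : a' ≤ (co x).1) (hb' : b' ≤ (co x).2) (hT : T (a, b)) (hT' : T (a', b')) :
    2 ≤ nab l x := by
  classical
  rw [nab_chart H.chart (mem_loN.2 hx)]
  have h3 : ({a, a'} : Finset ℕ) ⊆ cellsAt T l (co x) := by
    intro c hc
    rw [mem_insert, mem_singleton] at hc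
    rw [mem_cellsAt]
    rcases hc with rfl | rfl
    · have e : l - c = b := by omega
      rw [e]
      exact ⟨ha, by omega, hb, hT⟩
    · have e : l - c = b' := by omega
      rw [e]
      exact ⟨ha', by omega, hb', hT'⟩
  have h4 := card_le_card h3
  rwa [card_pair hne] at h4

/-- lower bounds from the chart: three elements -/
lemma nab_three (H : Tru t T co i J p q) {x : Q} (hx : lev x ≤ J) {l a b : ℕ}
    (h1 : a + b = l) (ha : a + 2 ≤ (co x).1) (hb : b ≤ (co x).2) (hb2 : 2 ≤ b)
    (hT : T (a, b)) (hT1 : T (a + 1, b - 1)) (hT2 : T (a + 2, b - 2)) :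
    3 ≤ nab l x := by
  classical
  rw [nab_chart H.chart (mem_loN.2 hx)]
  have h3 : ({a, a + 1, a + 2} : Finset ℕ) ⊆ cellsAt T l (co x) := by
    intro c hc
    rw [mem_insert, mem_insert, mem_singleton] at hc
    rw [mem_cellsAt]
    rcases hc with rfl | rfl | rfl
    · have e : l - c = b := by omega
      rw [e]
      exact ⟨by omega, by omega, hb, hT⟩
    · have e : l - (a + 1) = b - 1 := by omega
      rw [e]
      exact ⟨by omega, by omega, by omega, hT1⟩
    · have e : l - (a + 2) = b - 2 := by omega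
      rw [e]
      exact ⟨by omega, by omega, by omega, hT2⟩
  have h4 := card_le_card h3
  have h5 : ({a, a + 1, a + 2} : Finset ℕ).card = 3 := by
    rw [card_insert_of_notMem, card_pair]
    · omega
    · rw [mem_insert, mem_singleton]
      omega
  omega

/-- upper bound from the chart -/
lemma nab_upper (H : Tru t T co i J p q) {x : Q} (hx : lev x ≤ J) {l lo hi : ℕ}
    (h : ∀ a, a ≤ (co x).1 → a ≤ l → l - a ≤ (co x).2 → T (a, l - a) → lo ≤ a ∧ a < hi) :
    nab l x ≤ hi - lo := by
  classical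
  rw [nab_chart H.chart (mem_loN.2 hx)]
  have h3 : cellsAt T l (co x) ⊆ Finset.Ico lo hi := by
    intro c hc
    rw [mem_cellsAt] at hc
    rw [Finset.mem_Ico]
    exact h c hc.1 hc.2.1 hc.2.2.1 hc.2.2.2
  have h4 := card_le_card h3
  rwa [Nat.card_Ico] at h4

/-- an only element of level `l` above `z` -/
lemma nab_of_single (hgr : GradedBelow Q) {z x : Q} (hzx : z ≤ x) (h1 : nab (lev x) z = 1) {l : ℕ}
    (hl : l ≤ lev x) : nab l z = nab l x := by
  classical
  refine le_antisymm ?_ (nab_mono hzx)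
  unfold nab
  refine Finset.card_le_card fun y hy => ?_
  rw [mem_filter, mem_lv] at hy ⊢
  refine ⟨hy.1, ?_⟩
  obtain ⟨w, hw1, hw2, hw3⟩ := exists_between hgr hy.2 (l := lev x) (by omega) (lev_le_of_le hzx)
  have hwx : w = x := by
    by_contra hne
    have := two_le_nab hw1 hzx hw3 rfl hne
    omega
  rw [← hwx]
  exact hw2

/-- sums of the bounds -/
def gR (m : ℕ) : ℕ := if m = 0 then 1 else if m = 1 then 2 else 3
/-- sums of the bounds -/
def gS (m : ℕ) : ℕ := if m = 0 then 1 else if m < 3 then 2 else 3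
/-- sums of the bounds -/
def gT (m : ℕ) : ℕ := if m < 2 then 1 else if m < 4 then 2 else 3

lemma sum_gR : ∀ L : ℕ, ∑ m ∈ range (L + 2), gR m = 3 * L + 3 := by
  intro L
  induction L with
  | zero => decide
  | succ L ih =>
    rw [show L + 1 + 2 = (L + 2) + 1 by ring, Finset.sum_range_succ, ih]
    unfold gR
    rw [if_neg (by omega), if_neg (by omega)]
    ring

lemma sum_gS : ∀ L : ℕ, ∑ m ∈ range (L + 3), gS m = 3 * L + 5 := by
  intro L
  induction L with
  | zero => decide
  | succ L ih =>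
    rw [show L + 1 + 3 = (L + 3) + 1 by ring, Finset.sum_range_succ, ih]
    unfold gS
    rw [if_neg (by omega), if_neg (by omega)]
    ring

lemma sum_gT : ∀ L : ℕ, ∑ m ∈ range (L + 4), gT m = 3 * L + 6 := by
  intro L
  induction L with
  | zero => decide
  | succ L ih =>
    rw [show L + 1 + 4 = (L + 4) + 1 by ring, Finset.sum_range_succ, ih]
    unfold gT
    rw [if_neg (by omega), if_neg (by omega)]
    ring

/-- the free cover of a boundary element with label one -/
lemma free_cover (H : Tru t T co i J p q) {z : Q} (hz : z ∈ bdR (hiN Q J))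
    (h1 : hcan (hiN Q J) (thJ J p q co) z = 1) :
    ∃ x, z ⋖ x ∧ lev x = J ∧ lev z = J + 1 ∧ (co x).1 < p ∧ (co x).2 < q ∧
      (co x).1 + (co x).2 = J := by
  classical
  obtain ⟨x, hxR, hzx, hx⟩ := hcan_spec (θ := thJ J p q co) hz
  have h0 : lev x ≤ J := by
    rw [mem_hiN] at hxR
    omega
  have hzJ : J < lev z := by
    have := (mem_filter.1 hz).1
    rwa [mem_hiN] at this
  obtain ⟨h2, h3⟩ := bd_lev H.graded hzJ h0 hzx
  rw [thJ_lo h0] at hx
  have h4 : thE p q co x = 0 := by omega
  unfold thE at h4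
  have h5 := H.chart.lev x (mem_loN.2 h0)
  exact ⟨x, hzx, h3, h2, by omega, by omega, by omega⟩

lemma bd_lev' (H : Tru t T co i J p q) {z : Q} (hz : z ∈ bdR (hiN Q J)) : lev z = J + 1 := by
  classical
  obtain ⟨x, hxR, hzx⟩ := (mem_filter.1 hz).2
  have hzJ : J < lev z := by
    have := (mem_filter.1 hz).1
    rwa [mem_hiN] at this
  have h0 : lev x ≤ J := by
    rw [mem_hiN] at hxR
    omega
  exact (bd_lev H.graded hzJ h0 hzx).1

/-- RECTANGLES: everything of level `> J` is expensive -/
theorem Tru.cost_rect (H : Tru t (fun _ => True) co i J p q) {z : Q} (hz : z ∈ bdR (hiN Q J)) :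
    2 * (J - i) + 1 ≤ cst i (hcan (hiN Q J) (thJ J p q co)) z := by
  classical
  have hiJ := H.hiJ
  have hp := H.hp
  have hq := H.hq
  have hl := bd_lev' H hz
  rcases Nat.lt_or_ge (hcan (hiN Q J) (thJ J p q co) z) 2 with h2 | h2
  · have h1 : hcan (hiN Q J) (thJ J p q co) z = 1 := by
      obtain ⟨x, -, -, hx⟩ := hcan_spec (θ := thJ J p q co) hz
      omega
    obtain ⟨x, hzx, hxl, -, hs, hc, hsc⟩ := free_cover H hz h1
    have h3 := (cost_one (i := i) hl (by omega) h1 gR (by
      intro m hm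
      refine le_trans ?_ (nab_mono hzx.le)
      unfold gR
      split_ifs with e1 e2
      · exact one_le_nab (by omega)
      · exact nab_two H (by omega) (a := (co x).1 - 1) (b := (co x).2) (a' := (co x).1)
          (b' := (co x).2 - 1) (by omega) (by omega) (by omega) (by omega) (by omega) (by omega)
          (by omega) trivial trivial
      · exact nab_three H (by omega) (a := (co x).1 - 2) (b := (co x).2 - (m - 2)) (by omega)
          (by omega) (by omega) (by omega) trivial trivial trivial)).1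
    obtain ⟨L, hL⟩ : ∃ L, J - i = L + 2 := ⟨J - i - 2, by omega⟩
    rw [hL, sum_gR] at h3
    omega
  · exact cost_two hl (by omega) h2

/-- RECTANGLES ARE CLEAN UP TO `2 (J - i)` -/
theorem Tru.rect_clean (H : Tru t (fun _ => True) co i J p q) (hr : i + 2 ≤ p + q) {n : ℕ}
    (hn : n ≤ 2 * (J - i)) : (1 + X : ℤ[X]) ^ (p + q - 1 - i) ∣ Z Q i n := by
  refine (H.farT (H.cln_rect hr le_rfl)).dvd_of_lt (by omega) fun z hz => ?_
  have := H.cost_rect hz
  omega

end Pool.Agent.GaussPoset
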