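import Pool.Agent.W_448ec_h63.EH

/-!
Staircases: costs, cleanness.
-/

namespace Pool.Agent.GaussPoset

set_option linter.unusedSectionVars false

open Polynomial Finset OrderDual

universe u

variable {Q : Type u} [Fintype Q] [PartialOrder Q] [DecidableEq Q]
variable {t : Q} {co : Q → ℕ × ℕ} {i J q : ℕ}

/-- the canonical labels of a staircase -/
noncomputable abbrev hS (co : Q → ℕ × ℕ) (i J q : ℕ) : Q → ℕ :=
  hcan (hiN Q J) (thJ J (i + 1) q co)

/-- cost of a boundary element with label one over a cell `(s, c)`, `s ≤ c` -/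
theorem stair_cost_one (H : Tru t (fun c => c.1 ≤ c.2) co i J (i + 1) q) {z : Q}
    (hz : z ∈ bdR (hiN Q J)) (h1 : hS co i J q z = 1) :
    ∃ x, z ⋖ x ∧ lev x = J ∧ (co x).1 + (co x).2 = J ∧ (co x).2 < q ∧
      (((co x).1 + 2 ≤ (co x).2 ∧ 1 + ∑ m ∈ range (J - i), gR m ≤ cst i (hS co i J q) z) ∨
      ((co x).2 = (co x).1 + 1 ∧ 1 + ∑ m ∈ range (J - i), gS m ≤ cst i (hS co i J q) z ∧
        (cst i (hS co i J q) z = 1 + ∑ m ∈ range (J - i), gS m →
          ∀ m < J - i, nab (J - m) z = gS m)) ∨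
      ((co x).2 = (co x).1 ∧ 1 + ∑ m ∈ range (J - i), gT m ≤ cst i (hS co i J q) z ∧
        (cst i (hS co i J q) z = 1 + ∑ m ∈ range (J - i), gT m →
          ∀ m < J - i, nab (J - m) z = gT m))) := by
  classical
  have hiJ := H.hiJ
  have hq := H.hq
  obtain ⟨x, hzx, hxl, hl, hs, hc, hsc⟩ := free_cover H hz h1
  have hge : (co x).1 ≤ (co x).2 := H.chart.mem x (mem_loN.2 hxl.le)
  refine ⟨x, hzx, hxl, hsc, hc, ?_⟩
  rcases Nat.lt_or_ge ((co x).1 + 1) (co x).2 with hf | hf
  · left
    refine ⟨by omega, (cost_one (i := i) hl (by omega) h1 gR (by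
      intro m hm
      refine le_trans ?_ (nab_mono hzx.le)
      unfold gR
      split_ifs with e1 e2
      · exact one_le_nab (by omega)
      · exact nab_two H (by omega) (a := (co x).1 - 1) (b := (co x).2) (a' := (co x).1)
          (b' := (co x).2 - 1) (by omega) (by omega) (by omega) (by omega) (by omega) (by omega)
          (by omega) (by simp only; omega) (by simp only; omega)
      · exact nab_three H (by omega) (a := (co x).1 - m) (b := (co x).2) (by omega)
          (by omega) (by omega) (by omega) (by simp only; omega) (by simp only; omega)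
          (by simp only; omega))).1⟩
  · rcases Nat.lt_or_ge (co x).1 (co x).2 with hf' | hf'
    · right; left
      refine ⟨by omega, cost_one (i := i) hl (by omega) h1 gS ?_⟩
      intro m hm
      refine le_trans ?_ (nab_mono hzx.le)
      unfold gS
      split_ifs with e1 e2
      · exact one_le_nab (by omega)
      · exact nab_two H (by omega) (a := (co x).1 - m) (b := (co x).2) (a' := (co x).1 - m + 1)
          (b' := (co x).2 - 1) (by omega) (by omega) (by omega) (by omega) (by omega) (by omega)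
          (by omega) (by simp only; omega) (by simp only; omega)
      · exact nab_three H (by omega) (a := (co x).1 - m) (b := (co x).2) (by omega)
          (by omega) (by omega) (by omega) (by simp only; omega) (by simp only; omega)
          (by simp only; omega)
    · right; right
      refine ⟨by omega, cost_one (i := i) hl (by omega) h1 gT ?_⟩
      intro m hm
      refine le_trans ?_ (nab_mono hzx.le)
      unfold gT
      split_ifs with e1 e2
      · exact one_le_nab (by omega)
      · exact nab_two H (by omega) (a := (co x).1 - m) (b := (co x).2) (a' := (co x).1 - m + 1)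
          (b' := (co x).2 - 1) (by omega) (by omega) (by omega) (by omega) (by omega) (by omega)
          (by omega) (by simp only; omega) (by simp only; omega)
      · exact nab_three H (by omega) (a := (co x).1 - m) (b := (co x).2) (by omega)
          (by omega) (by omega) (by omega) (by simp only; omega) (by simp only; omega)
          (by simp only; omega)

/-- costs of staircases -/
theorem Tru.cost_stair (H : Tru t (fun c => c.1 ≤ c.2) co i J (i + 1) q) {z : Q}
    (hz : z ∈ bdR (hiN Q J)) :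
    2 * (J - i) + 1 ≤ cst i (hS co i J q) z ∨
    (J = i + 3 ∧ 2 * (J / 2) + 1 = J ∧ 6 ≤ cst i (hS co i J q) z) ∨
    (J = i + 3 ∧ 2 * (J / 2) = J ∧ 5 ≤ cst i (hS co i J q) z) ∨
    (J = i + 4 ∧ 2 * (J / 2) = J ∧ 7 ≤ cst i (hS co i J q) z) ∨
    (J = i + 5 ∧ 2 * (J / 2) = J ∧ 10 ≤ cst i (hS co i J q) z) := by
  classical
  have hiJ := H.hiJ
  rcases Nat.lt_or_ge (hS co i J q z) 2 with h2 | h2
  swap
  · exact Or.inl (cost_two (bd_lev' H hz) (by omega) h2)
  have h1 : hS co i J q z = 1 := by
    obtain ⟨x, -, -, hx⟩ := hcan_spec (θ := thJ J (i + 1) q co) hz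
    change hcan (hiN Q J) (thJ J (i + 1) q co) z < 2 at h2
    change hcan (hiN Q J) (thJ J (i + 1) q co) z = 1
    omega
  obtain ⟨x, -, -, hsc, -, h | h | h⟩ := stair_cost_one H hz h1
  · obtain ⟨L, hL⟩ : ∃ L, J - i = L + 2 := ⟨J - i - 2, by omega⟩
    rw [hL, sum_gR] at h
    omega
  · obtain ⟨L, hL⟩ : ∃ L, J - i = L + 3 := ⟨J - i - 3, by omega⟩
    rw [hL, sum_gS] at h
    omega
  · by_cases h3 : J = i + 3
    · have h4 : J - i = 3 := by omega
      rw [h4] at h
      have h5 : ∑ m ∈ range 3, gT m = 4 := by decide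
      rw [h5] at h
      omega
    · obtain ⟨L, hL⟩ : ∃ L, J - i = L + 4 := ⟨J - i - 4, by omega⟩
      rw [hL, sum_gT] at h
      omega

/-- STAIRCASES ARE CLEAN, apart from the exceptional energies -/
theorem Tru.stair_clean (H : Tru t (fun c => c.1 ≤ c.2) co i J (i + 1) q) (hr : i + 2 ≤ 2 * q)
    {n : ℕ} (hn : n ≤ 2 * (J - i)) (e1 : J = i + 3 → 2 * (J / 2) + 1 = J → n ≤ 5)
    (e2 : J = i + 3 → 2 * (J / 2) = J → n ≤ 4) (e3 : J = i + 4 → 2 * (J / 2) = J → n ≤ 6)
    (e4 : J = i + 5 → 2 * (J / 2) = J → n ≤ 9) :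
    (1 + X : ℤ[X]) ^ (i / 2 + q - i) ∣ Z Q i n := by
  have hF := H.farT (H.cln_stair hr (n0 := n + 1) (by omega) (fun h h' => by omega))
  refine hF.dvd_of_lt (by omega) fun z hz => ?_
  have := H.cost_stair hz
  change n < cst i (hS co i J q) z
  omega

/-- sites of a staircase -/
lemma Tru.lv_stair (H : Tru t (fun c => c.1 ≤ c.2) co i J (i + 1) q) :
    i / 2 + q - i ≤ (lv Q i).card := by
  classical
  have hiJ := H.hiJ
  have hq := H.hq
  have h1 : (range (i / 2 + q - i)).image (fun a => (i / 2 - a, i - (i / 2 - a))) ⊆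
      (lv Q i).image co := by
    intro c hc
    rw [mem_image] at hc
    obtain ⟨a, ha, rfl⟩ := hc
    rw [mem_range] at ha
    obtain ⟨x, hx, hcx⟩ := H.base (i / 2 - a) (i - (i / 2 - a)) (by simp only; omega) (by omega)
      (by omega) (by omega)
    rw [mem_image]
    refine ⟨x, ?_, hcx⟩
    rw [mem_lv, H.chart.lev x (mem_loN.2 hx), hcx]
    simp only
    omega
  have h2 := (card_le_card h1).trans card_image_le
  rwa [card_image_of_injOn, card_range] at h2
  intro a ha b hb hab
  rw [mem_coe, mem_range] at ha hb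
  simp only [Prod.mk.injEq] at hab
  omega

/-- the drop of the exceptional elements is at most one -/
theorem Tru.drop_stair (H : Tru t (fun c => c.1 ≤ c.2) co i J (i + 1) q) {z : Q}
    (hz : z ∈ bdR (hiN Q J)) (h1 : hS co i J q z = 1)
    (hn : (J = i + 3 ∧ 2 * (J / 2) + 1 = J ∧ cst i (hS co i J q) z = 6) ∨
      (J = i + 3 ∧ 2 * (J / 2) = J ∧ cst i (hS co i J q) z = 5) ∨
      (J = i + 4 ∧ 2 * (J / 2) = J ∧ cst i (hS co i J q) z = 7) ∨
      (J = i + 5 ∧ 2 * (J / 2) = J ∧ cst i (hS co i J q) z = 10)) :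
    nab i z ≤ nab (i + 1) z + 1 := by
  classical
  have hiJ := H.hiJ
  obtain ⟨x, hzx, hxl, hsc, hcq, h | h | h⟩ := stair_cost_one H hz h1
  · exfalso
    obtain ⟨L, hL⟩ : ∃ L, J - i = L + 2 := ⟨J - i - 2, by omega⟩
    rw [hL, sum_gR] at h
    omega
  · obtain ⟨L, hL⟩ : ∃ L, J - i = L + 3 := ⟨J - i - 3, by omega⟩
    obtain ⟨hf, h2, h3⟩ := h
    rw [hL, sum_gS] at h2 h3
    have hL0 : L = 0 := by omega
    have h4 := h3 (by omega)
    have h5 := h4 0 (by omega)
    have h6 := h4 (J - i - 1) (by omega)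
    rw [show J - (J - i - 1) = i + 1 by omega, show J - i - 1 = 2 by omega] at h6
    rw [show J - 0 = lev x by omega] at h5
    have h7 := nab_of_single H.graded hzx.le h5 (l := i) (by omega)
    have h8 := nab_upper H hxl.le (l := i) (lo := (co x).1 - 3) (hi := (co x).1) (by
      intro a ha1 ha2 ha3 ha4
      simp only at ha4
      omega)
    have h9 : gS 2 = 2 := rfl
    omega
  · obtain ⟨hf, h2, h3⟩ := h
    have hcase : J = i + 3 ∨ J = i + 4 ∨ J = i + 5 := by omega
    have key : cst i (hS co i J q) z = 1 + ∑ m ∈ range (J - i), gT m := by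
      rcases hcase with h4 | h4 | h4
      · have h5 : J - i = 3 := by omega
        rw [h5] at h2 ⊢
        have h6 : ∑ m ∈ range 3, gT m = 4 := by decide
        omega
      · have h5 : J - i = 4 := by omega
        rw [h5] at h2 ⊢
        have h6 : ∑ m ∈ range 4, gT m = 6 := by decide
        omega
      · have h5 : J - i = 5 := by omega
        rw [h5] at h2 ⊢
        have h6 : ∑ m ∈ range 5, gT m = 9 := by decide
        omega
    have h4 := h3 key
    have h5 := h4 0 (by omega)
    have h6 := h4 (J - i - 1) (by omega)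
    rw [show J - (J - i - 1) = i + 1 by omega] at h6
    rw [show J - 0 = lev x by omega] at h5
    have h7 := nab_of_single H.graded hzx.le h5 (l := i) (by omega)
    have h8 := nab_upper H hxl.le (l := i) (lo := (co x).1 - (J - i)) (hi := i / 2 + 1) (by
      intro a ha1 ha2 ha3 ha4
      simp only at ha4
      omega)
    rcases hcase with h9 | h9 | h9
    · rw [show J - i - 1 = 2 by omega] at h6
      have h10 : gT 2 = 2 := rfl
      omega
    · rw [show J - i - 1 = 3 by omega] at h6
      have h10 : gT 3 = 2 := rfl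
      omega
    · rw [show J - i - 1 = 4 by omega] at h6
      have h10 : gT 4 = 3 := rfl
      omega

/-- STAIRCASES, ORDER ONE LESS -/
theorem Tru.stair_less (H : Tru t (fun c => c.1 ≤ c.2) co i J (i + 1) q) (hr : i + 2 ≤ 2 * q)
    {n : ℕ} (hn : n ≤ 2 * (J - i)) (e2 : J = i + 3 → 2 * (J / 2) = J → n ≤ 5)
    (e3 : J = i + 4 → 2 * (J / 2) = J → n ≤ 7) :
    (1 + X : ℤ[X]) ^ (i / 2 + q - i - 1) ∣ Z Q i n := by
  classical
  have hiJ := H.hiJ
  have hlv := H.lv_stair
  by_cases hc : (J = i + 3 → 2 * (J / 2) + 1 = J → n ≤ 5) ∧ (J = i + 3 → 2 * (J / 2) = J → n ≤ 4) ∧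
      (J = i + 4 → 2 * (J / 2) = J → n ≤ 6) ∧ (J = i + 5 → 2 * (J / 2) = J → n ≤ 9)
  · exact (pow_dvd_pow _ (Nat.sub_le _ _)).trans
      (H.stair_clean hr hn hc.1 hc.2.1 hc.2.2.1 hc.2.2.2)
  have hexc : (J = i + 3 ∧ 2 * (J / 2) + 1 = J ∧ n = 6) ∨ (J = i + 3 ∧ 2 * (J / 2) = J ∧ n = 5) ∨
      (J = i + 4 ∧ 2 * (J / 2) = J ∧ n = 7) ∨ (J = i + 5 ∧ 2 * (J / 2) = J ∧ n = 10) := by
    omega
  have hle : ∀ z ∈ bdR (hiN Q J), n ≤ cst i (hS co i J q) z := by
    intro z hz
    have := H.cost_stair hz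
    omega
  have hdrop : ∀ z ∈ (bdR (hiN Q J)).filter (fun z => cst i (hS co i J q) z = n),
      (1 + X : ℤ[X]) ^ (i / 2 + q - i - 1) ∣ Lt i (hS co i J q) z := by
    intro z hz
    rw [mem_filter] at hz
    have h1 : hS co i J q z = 1 := by
      by_contra hne
      obtain ⟨x, -, -, hx⟩ := hcan_spec (θ := thJ J (i + 1) q co) hz.1
      change ¬ hcan (hiN Q J) (thJ J (i + 1) q co) z = 1 at hne
      have h2 := cost_two (h := hS co i J q) (i := i) (bd_lev' H hz.1) (by omega)
        (show 2 ≤ hcan (hiN Q J) (thJ J (i + 1) q co) z by omega)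
      omega
    have h2 := H.drop_stair hz.1 h1 (by
      rw [hz.2]
      exact hexc)
    unfold Lt
    refine Dvd.dvd.mul_left (pow_dvd_pow _ ?_) _
    rw [h1]
    omega
  have hsum : (1 + X : ℤ[X]) ^ (i / 2 + q - i - 1) ∣
      ∑ z ∈ (bdR (hiN Q J)).filter (fun z => cst i (hS co i J q) z = n), Lt i (hS co i J q) z :=
    dvd_sum hdrop
  have hmain : (1 + X : ℤ[X]) ^ (i / 2 + q - i - 1) ∣ Z Q i n -
      ∑ z ∈ (bdR (hiN Q J)).filter (fun z => cst i (hS co i J q) z = n), Lt i (hS co i J q) z := by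
    rcases hexc with h | h | h | h
    · exact (H.farT (H.cln_exc hr h.1)).dvd_lead (by omega) hle
    · exact (pow_dvd_pow _ (Nat.sub_le _ _)).trans
        ((H.farT (H.cln_stair hr (n0 := n + 1) (by omega) (fun _ _ => h.2.1))).dvd_lead
          (by omega) hle)
    · exact (pow_dvd_pow _ (Nat.sub_le _ _)).trans
        ((H.farT (H.cln_stair hr (n0 := n + 1) (by omega) (fun _ _ => h.2.1))).dvd_lead
          (by omega) hle)
    · exact (pow_dvd_pow _ (Nat.sub_le _ _)).trans
        ((H.farT (H.cln_stair hr (n0 := n + 1) (by omega) (fun _ _ => h.2.1))).dvd_lead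
          (by omega) hle)
  have h3 := dvd_add hmain hsum
  rwa [sub_add_cancel] at h3

end Pool.Agent.GaussPoset
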