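import Pool.Agent.W_448ec_h63.EJ
import Pool.Agent.W_448cp_h96.CE
import Pool.Agent.W_448al_h63.LJ

/-!
Early components: the window sums of a component of the shape of a rectangle or of a staircase,
natural up to level `J`, are clean up to twice the distance of the window to `J`.
-/

namespace Pool.Agent.GaussPoset

set_option linter.unusedSectionVars false

open Finset Win Cp

universe u

variable {P : Type u} [Fintype P] [PartialOrder P] [DecidableEq P] {r i J : ℕ} {S : Finset P}
variable {t : Tops P} {lo hi : ℕ → ℕ} {e : ℕ → ℕ → P}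

/-- the part `S` is the extension of the component `t` -/
structure Ext (P : Type u) [Fintype P] [PartialOrder P] [DecidableEq P] (i J : ℕ) (t : P)
    (S : Finset P) : Prop where
  part : Part i S
  mem : ∀ x, lev x ≤ J → (x ∈ S ↔ x ≤ t)

section tru

variable {T : ℕ × ℕ → Prop}

/-- the top of the subposet -/
def topQ (E : Ext P i J (t : P) S) : PQ S := ⟨t, (E.mem t (by rw [t.2]; exact Nat.zero_le _)).2 le_rfl⟩

lemma chart_PQ (E : Ext P i J (t : P) S)
    (Ch : Chart (t : P) T (lowPart J (t : P)) (ccoord lo hi e)) :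
    Chart (topQ E) T (loN (PQ S) J) (fun x : PQ S => ccoord lo hi e (x : P)) := by
  have hlow : ∀ x : PQ S, x ∈ loN (PQ S) J → (x : P) ∈ lowPart J (t : P) := by
    intro x hx
    rw [mem_loN, lev_PQ E.part] at hx
    rw [mem_lowPart]
    exact ⟨(E.mem x hx).1 x.2, hx⟩
  constructor
  · intro x hx y hxy
    rw [mem_loN] at hx ⊢
    exact (lev_le_of_le hxy).trans hx
  · intro x hx
    exact (mem_lowPart.1 (hlow x hx)).1
  · intro x hx y hy h
    exact Subtype.ext (Ch.inj x (hlow x hx) y (hlow y hy) h)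
  · intro x hx y hy
    exact Ch.le_iff x (hlow x hx) y (hlow y hy)
  · intro x hx
    exact Ch.mem x (hlow x hx)
  · intro x hx c hc hT
    obtain ⟨y, hy, hcy⟩ := Ch.low x (hlow x hx) c hc hT
    rw [mem_lowPart] at hy
    refine ⟨⟨y, (E.mem y hy.2).2 hy.1⟩, ?_, hcy⟩
    rw [mem_loN, lev_PQ E.part]
    exact hy.2
  · intro x hx
    rw [lev_PQ E.part]
    exact Ch.lev x (hlow x hx)

lemma graded_PQ (H : Gr P r) (hC : Part i S) : GradedBelow (PQ S) := by
  intro z x hzx
  obtain ⟨w, hw1, hw2, hw3⟩ := H.gradedBelow (z : P) (x : P) hzx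
  refine ⟨⟨w, part_up hC z.2 hw1⟩, hw1, hw2, ?_⟩
  rw [lev_PQ hC, lev_PQ hC]
  exact hw3

/-- membership of a cell, in the subposet -/
lemma cell_PQ (E : Ext P i J (t : P) S) (C : Cp.Comp J (t : P) lo hi e) {a b : ℕ}
    (hab : a + b ≤ J) (h1 : lo (a + b) ≤ a) (h2 : a ≤ hi (a + b)) :
    ∃ x : PQ S, lev x ≤ J ∧ ccoord lo hi e (x : P) = (a, b) := by
  obtain ⟨x, hx, hcx⟩ := cell_mem C hab h1 h2
  rw [mem_lowPart] at hx
  refine ⟨⟨x, (E.mem x hx.2).2 hx.1⟩, ?_, hcx⟩
  rw [lev_PQ E.part]
  exact hx.2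

lemma cell_low (E : Ext P i J (t : P) S) (C : Cp.Comp J (t : P) lo hi e) {x : PQ S}
    (hx : lev x ≤ J) :
    lo ((ccoord lo hi e (x : P)).1 + (ccoord lo hi e (x : P)).2) ≤ (ccoord lo hi e (x : P)).1 ∧
      (ccoord lo hi e (x : P)).1 ≤
        hi ((ccoord lo hi e (x : P)).1 + (ccoord lo hi e (x : P)).2) ∧
      (ccoord lo hi e (x : P)).1 + (ccoord lo hi e (x : P)).2 ≤ J := by
  rw [lev_PQ E.part] at hx
  have h1 : (x : P) ∈ lowPart J (t : P) := mem_lowPart.2 ⟨(E.mem x hx).1 x.2, hx⟩
  have h2 := cell_of C h1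
  refine ⟨h2.1, h2.2, ?_⟩
  obtain ⟨h3, h4, -⟩ := scoord_spec C (mem_lowPart.1 h1).1 hx
  have h5 := C.hi_le hx
  have h6 : (ccoord lo hi e (x : P)).1 + (ccoord lo hi e (x : P)).2 = lev (x : P) := by
    unfold ccoord
    simp only
    omega
  rw [h6]
  exact hx

/-- the columns -/
lemma col_bound (C : Cp.Comp J (t : P) lo hi e)
    (hlo : ∀ k, k < J → lo (k + 1) = 0 ∨ lo (k + 1) = lo k + 1) (hiJ : i ≤ J)
    (h0 : 1 ≤ lo i) {k : ℕ} (hk : k ≤ J) : k - lo k ≤ i - lo i := by
  rcases Nat.lt_or_ge k i with h | h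
  · have h1 : ∀ d, k + d ≤ J → (k + d) - lo (k + d) ≥ k - lo k := by
      intro d
      induction d with
      | zero => intro _; exact le_rfl
      | succ d ih =>
        intro hd
        have h2 := ih (by omega)
        have h3 := C.lo_step (k + d) (by omega)
        have h4 := C.lo_le (k + d) (by omega)
        have h5 := C.hi_le (k := k + d) (by omega)
        rw [← Nat.add_assoc]
        omega
    have h2 := h1 (i - k) (by omega)
    rw [show k + (i - k) = i by omega] at h2
    exact h2
  · have h1 := shape_lo C hlo h0 (k - i) (by omega)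
    rw [show i + (k - i) = k by omega] at h1
    omega

/-- the columns, lower bound -/
lemma col_base (C : Cp.Comp J (t : P) lo hi e)
    (hlo : ∀ k, k < J → lo (k + 1) = 0 ∨ lo (k + 1) = lo k + 1) (hiJ : i ≤ J)
    {k c : ℕ} (hk : k ≤ J) (hck : c ≤ k) (hc : c < i - lo i + 1) : lo k ≤ k - c := by
  have hmono : ∀ a d, a + d ≤ J → a - lo a ≤ (a + d) - lo (a + d) := by
    intro a d
    induction d with
    | zero => intro _; exact le_rfl
    | succ d ih =>
      intro hd
      have h2 := ih (by omega)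
      have h3 := C.lo_step (a + d) (by omega)
      have h4 := C.lo_le (a + d) (by omega)
      have h5 := C.hi_le (k := a + d) (by omega)
      rw [← Nat.add_assoc]
      omega
  have h6 := C.lo_le k hk
  have h7 := C.hi_le hk
  rcases Nat.lt_or_ge k i with h | h
  · rcases Nat.eq_zero_or_pos (lo k) with h1 | h1
    · omega
    · have h2 := shape_lo C hlo h1 (i - k) (by omega)
      rw [show k + (i - k) = i by omega] at h2
      omega
  · have h1 := hmono i (k - i) (by omega)
    rw [show i + (k - i) = k by omega] at h1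
    omega

/-- the rows -/
lemma row_base (C : Cp.Comp J (t : P) lo hi e)
    (hhi : ∀ k, k < J → hi (k + 1) = k + 1 ∨ hi (k + 1) = hi k) (hiJ : i ≤ J)
    {k s : ℕ} (hk : k ≤ J) (hsk : s ≤ k) (hs : s < hi i + 1) : s ≤ hi k := by
  rcases Nat.lt_or_ge k i with h | h
  · rcases Nat.lt_or_ge (hi k) k with h1 | h1
    · have h2 := shape_hi C hhi h1 (i - k) (by omega)
      rw [show k + (i - k) = i by omega] at h2
      omega
    · omega
  · have h1 := C.hi_mono (l := i) (d := k - i) (by omega)
    rw [show i + (k - i) = k by omega] at h1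
    omega

/-- rectangles -/
theorem tru_rect (E : Ext P i J (t : P) S) (H : Gr P r) (hg : ∀ l, l < J → Win.Good P l)
    (C : Cp.Comp J (t : P) lo hi e) (R : RectShape J lo hi) (h3 : i + 3 ≤ J) :
    Tru (topQ E) (fun _ => True) (fun x : PQ S => ccoord lo hi e (x : P)) i J (hi i + 1)
      (i - lo i + 1) where
  graded := graded_PQ H E.part
  chart := chart_PQ E (chart_rect C H hg R)
  hp := by
    have := C.hi_le (k := i) (by omega)
    omega
  hq := by omega
  hiJ := h3
  pcl := by
    have h1 := C.hi_le (k := i) (by omega)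
    rcases Nat.lt_or_ge (hi i) i with h | h
    · right
      intro x hx
      obtain ⟨-, h4, h5⟩ := cell_low E C hx
      rcases Nat.lt_or_ge ((ccoord lo hi e (x : P)).1 + (ccoord lo hi e (x : P)).2) i with h6 | h6
      · have h7 := C.hi_mono (l := (ccoord lo hi e (x : P)).1 + (ccoord lo hi e (x : P)).2)
          (d := i - ((ccoord lo hi e (x : P)).1 + (ccoord lo hi e (x : P)).2)) (by omega)
        rw [Nat.add_sub_cancel' h6.le] at h7
        omega
      · have h7 := shape_hi C R.hi h
          ((ccoord lo hi e (x : P)).1 + (ccoord lo hi e (x : P)).2 - i) (by omega)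
        rw [Nat.add_sub_cancel' h6] at h7
        omega
    · left
      omega
  qcl := by
    rcases Nat.eq_zero_or_pos (lo i) with h | h
    · left
      omega
    · right
      intro x hx
      obtain ⟨h4, -, h5⟩ := cell_low E C hx
      have h6 := col_bound (i := i) C R.lo (by omega) h h5
      omega
  base := by
    intro s c _ hs hc hsc
    refine cell_PQ E C hsc ?_ ?_
    · have := col_base (i := i) C R.lo (by omega) hsc (Nat.le_add_left c s) hc
      omega
    · exact row_base (i := i) C R.hi (by omega) hsc (Nat.le_add_right s c) hs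

/-- staircases -/
theorem tru_stair (E : Ext P i J (t : P) S) (H : Gr P r) (hg : ∀ l, l < J → Win.Good P l)
    (C : Cp.Comp J (t : P) lo hi e) (R : StairShape J lo hi) (h3 : i + 3 ≤ J) :
    Tru (topQ E) (fun c => c.1 ≤ c.2) (fun x : PQ S => ccoord lo hi e (x : P)) i J (i + 1)
      (i - lo i + 1) where
  graded := graded_PQ H E.part
  chart := chart_PQ E (chart_stair C H hg R)
  hp := le_rfl
  hq := by omega
  hiJ := h3
  pcl := Or.inl rfl
  qcl := by
    rcases Nat.eq_zero_or_pos (lo i) with h | h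
    · left
      omega
    · right
      intro x hx
      obtain ⟨h4, -, h5⟩ := cell_low E C hx
      have h6 := col_bound (i := i) C R.lo (by omega) h h5
      omega
  base := by
    intro s c hT hs hc hsc
    refine cell_PQ E C hsc ?_ ?_
    · have := col_base (i := i) C R.lo (by omega) hsc (Nat.le_add_left c s) hc
      omega
    · rw [R.hi _ hsc]
      have : s ≤ c := hT
      omega

end tru

section main

/-- the number of sites -/
lemma card_st_ext (E : Ext P i J (t : P) S) (C : Cp.Comp J (t : P) lo hi e) (hiJ : i ≤ J) :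
    (st i S).card = hi i + 1 - lo i :=
  C.toWin.card_st hiJ fun y hy => E.mem y (by omega)

/-- RECTANGLES -/
theorem ec_rect (E : Ext P i J (t : P) S) (H : Gr P r) (hJr : J ≤ r)
    (hg : ∀ l, l < J → Win.Good P l) (C : Cp.Comp J (t : P) lo hi e) (R : RectShape J lo hi)
    (h3 : i + 3 ≤ J) {n : ℕ} (hn : n ≤ 2 * (J - i)) : dd ^ (st i S).card ∣ ZC i S n := by
  have h1 := C.hi_le (k := i) (by omega)
  have h2 := C.lo_le i (by omega)
  refine dvd_ZC_of H (by omega) E.part ?_
  have h4 := (tru_rect E H hg C R h3).rect_clean (by omega) hn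
  rw [card_st_ext E C (by omega)]
  rwa [show hi i + 1 + (i - lo i + 1) - 1 - i = hi i + 1 - lo i by omega] at h4

/-- STAIRCASES -/
theorem ec_stair (E : Ext P i J (t : P) S) (H : Gr P r) (hJr : J ≤ r)
    (hg : ∀ l, l < J → Win.Good P l) (C : Cp.Comp J (t : P) lo hi e) (R : StairShape J lo hi)
    (h3 : i + 3 ≤ J) {n : ℕ} (hn : n ≤ 2 * (J - i))
    (e1 : J = i + 3 → 2 * (J / 2) + 1 = J → n ≤ 5)
    (e2 : J = i + 3 → 2 * (J / 2) = J → n ≤ 4) (e3 : J = i + 4 → 2 * (J / 2) = J → n ≤ 6)
    (e4 : J = i + 5 → 2 * (J / 2) = J → n ≤ 9) : dd ^ (st i S).card ∣ ZC i S n := by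
  have h1 := R.hi i (by omega)
  have h2 := C.lo_le i (by omega)
  refine dvd_ZC_of H (by omega) E.part ?_
  have h4 := (tru_stair E H hg C R h3).stair_clean (by omega) hn e1 e2 e3 e4
  rw [card_st_ext E C (by omega)]
  rwa [show i / 2 + (i - lo i + 1) - i = hi i + 1 - lo i by omega] at h4

/-- STAIRCASES, order one less -/
theorem ec_stair_less (E : Ext P i J (t : P) S) (H : Gr P r) (hJr : J ≤ r)
    (hg : ∀ l, l < J → Win.Good P l) (C : Cp.Comp J (t : P) lo hi e) (R : StairShape J lo hi)
    (h3 : i + 3 ≤ J) {n : ℕ} (hn : n ≤ 2 * (J - i))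
    (e2 : J = i + 3 → 2 * (J / 2) = J → n ≤ 5) (e3 : J = i + 4 → 2 * (J / 2) = J → n ≤ 7) :
    dd ^ ((st i S).card - 1) ∣ ZC i S n := by
  have h1 := R.hi i (by omega)
  have h2 := C.lo_le i (by omega)
  refine dvd_ZC_of H (by omega) E.part ?_
  have h4 := (tru_stair E H hg C R h3).stair_less (by omega) hn e2 e3
  rw [card_st_ext E C (by omega)]
  rwa [show i / 2 + (i - lo i + 1) - i - 1 = hi i + 1 - lo i - 1 by omega] at h4

end main

end Pool.Agent.GaussPoset
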