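import Pool.Agent.W_448ec_h63.EK

/-!
One step: raising the label of one element by one.
-/

namespace Pool.Agent.GaussPoset

set_option linter.unusedSectionVars false

open Finset

universe u

variable {Q : Type u} [Fintype Q] [PartialOrder Q] [DecidableEq Q] {i : ℕ} {e : Q → ℕ} {v : Q}

/-- the label of `v` raised by one -/
def up1 (e : Q → ℕ) (v : Q) : Q → ℕ := fun x => e x + if x = v then 1 else 0

lemma rho_up1_self : rho i (up1 e v) v = rho i e v + 1 := by
  unfold rho up1
  rw [if_pos rfl]
  push_cast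
  ring

lemma rho_up1 {x : Q} (h : x ≠ v) : rho i (up1 e v) x = rho i e x := by
  unfold rho up1
  rw [if_neg h, Nat.add_zero]

lemma rho_le_up1 (x : Q) : rho i e x ≤ rho i (up1 e v) x := by
  by_cases h : x = v
  · subst h
    rw [rho_up1_self]
    omega
  · rw [rho_up1 h]

lemma mem_Pk' {x : Q} : x ∈ Pk i e ↔ ¬ FI i e x ∧ ¬ FA i e x := by
  classical
  unfold Pk
  simp

lemma pk_nonneg {x : Q} (h : x ∈ Pk i e) : 0 ≤ rho i e x := by
  rw [mem_Pk'] at h
  by_contra hcon
  exact h.1 (Or.inl (by omega))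

lemma pk_below {x w : Q} (h : x ∈ Pk i e) (hw : w < x) : rho i e w ≤ rho i e x := by
  rw [mem_Pk'] at h
  by_contra hcon
  exact h.1 (Or.inr ⟨w, hw, by omega⟩)

lemma pk_above {x y : Q} (h : x ∈ Pk i e) (hy : x < y) : rho i e y < rho i e x := by
  rw [mem_Pk'] at h
  by_contra hcon
  exact h.2 ⟨y, hy, by omega⟩

lemma FI_up1 {x : Q} (h : FI i e x) (hx : x ≠ v) : FI i (up1 e v) x := by
  rcases h with h | ⟨w, hw, h⟩
  · left
    rw [rho_up1 hx]
    exact h
  · refine Or.inr ⟨w, hw, ?_⟩
    rw [rho_up1 hx]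
    exact h.trans_le (rho_le_up1 w)

lemma FA_up1 {x : Q} (h : FA i e x) (hx : x ≠ v) : FA i (up1 e v) x := by
  obtain ⟨y, hy, h⟩ := h
  refine ⟨y, hy, ?_⟩
  rw [rho_up1 hx]
  exact h.trans (rho_le_up1 y)

lemma pk_of_up1 {x : Q} (h : x ∈ Pk i (up1 e v)) (hx : x ≠ v) : x ∈ Pk i e := by
  rw [mem_Pk'] at h ⊢
  exact ⟨fun h' => h.1 (FI_up1 h' hx), fun h' => h.2 (FA_up1 h' hx)⟩

lemma pk_self (h : v ∈ Pk i e) : v ∈ Pk i (up1 e v) := by
  rw [mem_Pk']
  constructor
  · rintro (h1 | ⟨w, hw, h1⟩)
    · rw [rho_up1_self] at h1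
      have := pk_nonneg h
      omega
    · rw [rho_up1_self, rho_up1 hw.ne] at h1
      have := pk_below h hw
      omega
  · rintro ⟨y, hy, h1⟩
    rw [rho_up1_self, rho_up1 hy.ne'] at h1
    have := pk_above h hy
    omega

/-- a lost peak -/
lemma lost_cases {x : Q} (h : x ∈ Pk i e) (hx : x ∉ Pk i (up1 e v)) :
    (v < x ∧ rho i e x = rho i e v) ∨ (x < v ∧ rho i e x = rho i e v + 1) := by
  have hne : x ≠ v := by
    rintro rfl
    exact hx (pk_self h)
  rw [mem_Pk', not_and_or, not_not, not_not] at hx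
  rcases hx with (h1 | ⟨w, hw, h1⟩) | ⟨y, hy, h1⟩
  · rw [rho_up1 hne] at h1
    have := pk_nonneg h
    omega
  · rw [rho_up1 hne] at h1
    by_cases hwv : w = v
    · subst hwv
      rw [rho_up1_self] at h1
      have := pk_below h hw
      exact Or.inl ⟨hw, by omega⟩
    · rw [rho_up1 hwv] at h1
      have := pk_below h hw
      omega
  · rw [rho_up1 hne] at h1
    by_cases hyv : y = v
    · subst hyv
      rw [rho_up1_self] at h1
      have := pk_above h hy
      exact Or.inr ⟨hy, by omega⟩
    · rw [rho_up1 hyv] at h1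
      have := pk_above h hy
      omega

lemma lost_up {x : Q} (hA : Adm i (up1 e v)) (h : x ∈ Pk i e) (hvx : v < x)
    (hr : rho i e x = rho i e v) : v ⋖ x := by
  refine ⟨hvx, fun y hy1 hy2 => hA y ⟨?_, ?_⟩⟩
  · refine Or.inr ⟨v, hy1, ?_⟩
    rw [rho_up1_self, rho_up1 hy1.ne']
    have := pk_below h hy2
    omega
  · refine ⟨x, hy2, ?_⟩
    rw [rho_up1 hy1.ne', rho_up1 hvx.ne']
    exact pk_below h hy2

lemma lost_dn {x : Q} (hA : Adm i (up1 e v)) (h : x ∈ Pk i e) (hxv : x < v)
    (hr : rho i e x = rho i e v + 1) : x ⋖ v := by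
  refine ⟨hxv, fun y hy1 hy2 => hA y ⟨?_, ?_⟩⟩
  · refine Or.inr ⟨x, hy1, ?_⟩
    rw [rho_up1 hy2.ne, rho_up1 hxv.ne]
    exact pk_above h hy1
  · refine ⟨v, hy2, ?_⟩
    rw [rho_up1_self, rho_up1 hy2.ne]
    have := pk_above h hy1
    omega

lemma gain_up (hU : ∀ y, v ⋖ y → y ∈ Pk i e ∧ rho i e y = rho i e v) (hex : ∃ y, v ⋖ y) :
    v ∈ Pk i (up1 e v) := by
  rw [mem_Pk']
  obtain ⟨y0, hy0⟩ := hex
  obtain ⟨h0, h0'⟩ := hU y0 hy0
  constructor
  · rintro (h1 | ⟨w, hw, h1⟩)
    · rw [rho_up1_self] at h1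
      have := pk_nonneg h0
      omega
    · rw [rho_up1_self, rho_up1 hw.ne] at h1
      have := pk_below h0 (hw.trans hy0.lt)
      omega
  · rintro ⟨u, hu, h1⟩
    rw [rho_up1_self, rho_up1 hu.ne'] at h1
    obtain ⟨y, hy, hyu⟩ := exists_covBy_le hu
    obtain ⟨h2, h3⟩ := hU y hy
    rcases eq_or_lt_of_le hyu with h4 | h4
    · rw [← h4] at h1
      omega
    · have := pk_above h2 h4
      omega

/-- covers from below -/
lemma exists_le_covBy {z y : Q} (h : z < y) : ∃ w, z ≤ w ∧ w ⋖ y := by
  classical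
  let T : Finset Q := univ.filter (fun w => z ≤ w ∧ w < y)
  obtain ⟨w, hw⟩ := T.exists_maximal ⟨z, by simp [T, h]⟩
  have hw1 : z ≤ w ∧ w < y := by simpa [T] using hw.1
  refine ⟨w, hw1.1, hw1.2, fun u hu1 hu2 => ?_⟩
  have hu : u ∈ T := by simp [T, hu2, hw1.1.trans hu1.le]
  exact absurd (hw.2 hu hu1.le) (not_le_of_gt hu1)

lemma gain_dn (hD : ∀ y, y ⋖ v → y ∈ Pk i e ∧ rho i e y = rho i e v + 1) (hex : ∃ y, y ⋖ v) :
    v ∈ Pk i (up1 e v) := by
  rw [mem_Pk']
  obtain ⟨y0, hy0⟩ := hex
  obtain ⟨h0, h0'⟩ := hD y0 hy0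
  constructor
  · rintro (h1 | ⟨w, hw, h1⟩)
    · rw [rho_up1_self] at h1
      have := pk_nonneg h0
      omega
    · rw [rho_up1_self, rho_up1 hw.ne] at h1
      obtain ⟨y, hy1, hy2⟩ := exists_le_covBy hw
      obtain ⟨h2, h3⟩ := hD y hy2
      rcases eq_or_lt_of_le hy1 with h4 | h4
      · rw [h4] at h1
        omega
      · have := pk_below h2 h4
        omega
  · rintro ⟨u, hu, h1⟩
    rw [rho_up1_self, rho_up1 hu.ne'] at h1
    have := pk_above h0 (hy0.lt.trans hu)
    omega

/-- at most two upper and lower covers -/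
structure Two (Q : Type u) [PartialOrder Q] : Prop where
  up : ∀ v a b c : Q, v ⋖ a → v ⋖ b → v ⋖ c → a ≠ b → c = a ∨ c = b
  dn : ∀ v a b c : Q, a ⋖ v → b ⋖ v → c ⋖ v → a ≠ b → c = a ∨ c = b

/-- two peaks cover `v` -/
def Low2 (i : ℕ) (e : Q → ℕ) (v : Q) : Prop := ∃ x x', x ≠ x' ∧ v ⋖ x ∧ v ⋖ x' ∧ x ∈ Pk i e ∧
  x' ∈ Pk i e ∧ rho i e x = rho i e v ∧ rho i e x' = rho i e v

/-- `v` covers two peaks -/
def Up2 (i : ℕ) (e : Q → ℕ) (v : Q) : Prop := ∃ x x', x ≠ x' ∧ x ⋖ v ∧ x' ⋖ v ∧ x ∈ Pk i e ∧
  x' ∈ Pk i e ∧ rho i e x = rho i e v + 1 ∧ rho i e x' = rho i e v + 1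

/-- one lost peak above, and `v` is not a new peak -/
def Mix1 (i : ℕ) (e : Q → ℕ) (v : Q) : Prop := ∃ x, v ⋖ x ∧ x ∈ Pk i e ∧
  rho i e x = rho i e v ∧ ∃ u, v < u ∧ rho i e v + 1 ≤ rho i e u

/-- one lost peak below, and `v` is not a new peak -/
def Mix2 (i : ℕ) (e : Q → ℕ) (v : Q) : Prop := ∃ x, x ⋖ v ∧ x ∈ Pk i e ∧
  rho i e x = rho i e v + 1 ∧ ∃ w, w < v ∧ rho i e v + 1 < rho i e w

/-- ONE STEP -/
theorem step_cases (hT : Two Q) (hA : Adm i (up1 e v)) :
    (Pk i e).card ≤ (Pk i (up1 e v)).card ∨ ((Pk i e).card = (Pk i (up1 e v)).card + 1 ∧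
      (Low2 i e v ∨ Up2 i e v ∨ Mix1 i e v ∨ Mix2 i e v)) := by
  classical
  set B := Pk i e \ Pk i (up1 e v) with hB
  have hcard : (Pk i e).card = B.card + (Pk i e ∩ Pk i (up1 e v)).card := by
    rw [hB, add_comm, ← card_inter_add_card_sdiff (Pk i e) (Pk i (up1 e v))]
  have hmemB : ∀ x ∈ B, x ∈ Pk i e ∧ x ∉ Pk i (up1 e v) := fun x hx => mem_sdiff.1 hx
  have hgain : v ∉ Pk i e → v ∈ Pk i (up1 e v) →
      (Pk i e ∩ Pk i (up1 e v)).card + 1 ≤ (Pk i (up1 e v)).card := by
    intro h1 h2
    have h3 : insert v (Pk i e ∩ Pk i (up1 e v)) ⊆ Pk i (up1 e v) := by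
      intro x hx
      rw [mem_insert, mem_inter] at hx
      rcases hx with rfl | hx
      · exact h2
      · exact hx.2
    have h4 := card_le_card h3
    rwa [card_insert_of_notMem (by
      rw [mem_inter]
      exact fun h => h1 h.1)] at h4
  have hle : (Pk i e ∩ Pk i (up1 e v)).card ≤ (Pk i (up1 e v)).card :=
    card_le_card inter_subset_right
  rcases B.eq_empty_or_nonempty with hB0 | ⟨x, hx⟩
  · left
    rw [hcard, hB0, card_empty, zero_add]
    exact hle
  obtain ⟨hx1, hx2⟩ := hmemB x hx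
  rcases lost_cases hx1 hx2 with ⟨h1, h2⟩ | ⟨h1, h2⟩
  · -- upper
    have hcx := lost_up hA hx1 h1 h2
    have hall : ∀ y ∈ B, v ⋖ y ∧ y ∈ Pk i e ∧ rho i e y = rho i e v := by
      intro y hy
      obtain ⟨hy1, hy2⟩ := hmemB y hy
      rcases lost_cases hy1 hy2 with ⟨h3, h4⟩ | ⟨h3, h4⟩
      · exact ⟨lost_up hA hy1 h3 h4, hy1, h4⟩
      · have := pk_below hx1 (h3.trans h1)
        omega
    have hvn : v ∉ Pk i e := fun h => by
      have := pk_above h h1
      omega
    by_cases h3 : ∃ x' ∈ B, x' ≠ x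
    · obtain ⟨x', hx', hne⟩ := h3
      obtain ⟨h4, h5, h6⟩ := hall x' hx'
      have hB2 : B = {x, x'} := by
        ext y
        rw [mem_insert, mem_singleton]
        constructor
        · intro hy
          exact hT.up v x x' y hcx h4 (hall y hy).1 hne.symm
        · rintro (rfl | rfl)
          · exact hx
          · exact hx'
      have hBc : B.card = 2 := by rw [hB2, card_pair hne.symm]
      have hg := hgain hvn (gain_up (fun y hy => by
        rcases hT.up v x x' y hcx h4 hy hne.symm with rfl | rfl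
        · exact ⟨hx1, h2⟩
        · exact ⟨h5, h6⟩) ⟨x, hcx⟩)
      have hlow : Low2 i e v := ⟨x, x', hne.symm, hcx, h4, hx1, h5, h2, h6⟩
      by_cases h7 : (Pk i e).card ≤ (Pk i (up1 e v)).card
      · exact Or.inl h7
      · exact Or.inr ⟨by omega, Or.inl hlow⟩
    · push Not at h3
      have hBc : B.card = 1 := by
        rw [card_eq_one]
        refine ⟨x, ?_⟩
        ext y
        rw [mem_singleton]
        exact ⟨fun hy => h3 y hy, fun h => h ▸ hx⟩
      by_cases h7 : (Pk i e).card ≤ (Pk i (up1 e v)).card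
      · exact Or.inl h7
      · refine Or.inr ⟨by omega, Or.inr (Or.inr (Or.inl ⟨x, hcx, hx1, h2, ?_⟩))⟩
        have h8 : v ∉ Pk i (up1 e v) := fun h => by
          have := hgain hvn h
          omega
        rw [mem_Pk', not_and_or, not_not, not_not] at h8
        rcases h8 with (h9 | ⟨w, hw, h9⟩) | ⟨y, hy, h9⟩
        · rw [rho_up1_self] at h9
          have := pk_nonneg hx1
          omega
        · rw [rho_up1_self, rho_up1 hw.ne] at h9
          have := pk_below hx1 (hw.trans h1)
          omega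
        · rw [rho_up1_self, rho_up1 hy.ne'] at h9
          exact ⟨y, hy, h9⟩
  · have hcx := lost_dn hA hx1 h1 h2
    have hall : ∀ y ∈ B, y ⋖ v ∧ y ∈ Pk i e ∧ rho i e y = rho i e v + 1 := by
      intro y hy
      obtain ⟨hy1, hy2⟩ := hmemB y hy
      rcases lost_cases hy1 hy2 with ⟨h3, h4⟩ | ⟨h3, h4⟩
      · have := pk_below hy1 (h1.trans h3)
        omega
      · exact ⟨lost_dn hA hy1 h3 h4, hy1, h4⟩
    have hvn : v ∉ Pk i e := fun h => by
      have := pk_below h h1
      omega
    by_cases h3 : ∃ x' ∈ B, x' ≠ x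
    · obtain ⟨x', hx', hne⟩ := h3
      obtain ⟨h4, h5, h6⟩ := hall x' hx'
      have hB2 : B = {x, x'} := by
        ext y
        rw [mem_insert, mem_singleton]
        constructor
        · intro hy
          exact hT.dn v x x' y hcx h4 (hall y hy).1 hne.symm
        · rintro (rfl | rfl)
          · exact hx
          · exact hx'
      have hBc : B.card = 2 := by rw [hB2, card_pair hne.symm]
      have hg := hgain hvn (gain_dn (fun y hy => by
        rcases hT.dn v x x' y hcx h4 hy hne.symm with rfl | rfl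
        · exact ⟨hx1, h2⟩
        · exact ⟨h5, h6⟩) ⟨x, hcx⟩)
      have hup : Up2 i e v := ⟨x, x', hne.symm, hcx, h4, hx1, h5, h2, h6⟩
      by_cases h7 : (Pk i e).card ≤ (Pk i (up1 e v)).card
      · exact Or.inl h7
      · exact Or.inr ⟨by omega, Or.inr (Or.inl hup)⟩
    · push Not at h3
      have hBc : B.card = 1 := by
        rw [card_eq_one]
        refine ⟨x, ?_⟩
        ext y
        rw [mem_singleton]
        exact ⟨fun hy => h3 y hy, fun h => h ▸ hx⟩
      by_cases h7 : (Pk i e).card ≤ (Pk i (up1 e v)).card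
      · exact Or.inl h7
      · refine Or.inr ⟨by omega, Or.inr (Or.inr (Or.inr ⟨x, hcx, hx1, h2, ?_⟩))⟩
        have h8 : v ∉ Pk i (up1 e v) := fun h => by
          have := hgain hvn h
          omega
        rw [mem_Pk', not_and_or, not_not, not_not] at h8
        rcases h8 with (h9 | ⟨w, hw, h9⟩) | ⟨y, hy, h9⟩
        · rw [rho_up1_self] at h9
          have := pk_nonneg hx1
          omega
        · rw [rho_up1_self, rho_up1 hw.ne] at h9
          exact ⟨w, hw, h9⟩
        · rw [rho_up1_self, rho_up1 hy.ne'] at h9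
          have := pk_above hx1 (h1.trans hy)
          omega

/-- a lower double -/
theorem low2_exact (hT : Two Q) (hA : Adm i e) (h : Low2 i e v) :
    Adm i (up1 e v) ∧ (Pk i e).card = (Pk i (up1 e v)).card + 1 ∧
      nf i (up1 e v) = nf i e + 2 := by
  classical
  obtain ⟨x, x', hne, hcx, hcx', hx, hx', hr, hr'⟩ := h
  have hU : ∀ y, v ⋖ y → y ∈ Pk i e ∧ rho i e y = rho i e v := by
    intro y hy
    rcases hT.up v x x' y hcx hcx' hy hne with rfl | rfl
    · exact ⟨hx, hr⟩
    · exact ⟨hx', hr'⟩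
  have hg := gain_up hU ⟨x, hcx⟩
  have hvn : v ∉ Pk i e := fun h => by
    have := pk_above h hcx.lt
    omega
  have hab : ∀ y, v < y → rho i e y = rho i e v → y = x ∨ y = x' := by
    intro y hy h1
    obtain ⟨u, hu, huy⟩ := exists_covBy_le hy
    obtain ⟨h2, h3⟩ := hU u hu
    rcases eq_or_lt_of_le huy with h4 | h4
    · rw [← h4]
      exact hT.up v x x' u hcx hcx' hu hne
    · have := pk_above h2 h4
      omega
  -- changes of forced elements
  have hFI : ∀ y, y ≠ v → (FI i (up1 e v) y ↔ FI i e y ∨ y = x ∨ y = x') := by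
    intro y hy
    constructor
    · rintro (h1 | ⟨w, hw, h1⟩)
      · rw [rho_up1 hy] at h1
        exact Or.inl (Or.inl h1)
      · rw [rho_up1 hy] at h1
        by_cases hwv : w = v
        · subst hwv
          rw [rho_up1_self] at h1
          by_cases h2 : rho i e y < rho i e w
          · exact Or.inl (Or.inr ⟨w, hw, h2⟩)
          · exact Or.inr (hab y hw (by omega))
        · rw [rho_up1 hwv] at h1
          exact Or.inl (Or.inr ⟨w, hw, h1⟩)
    · rintro (h1 | h1 | h1)
      · exact FI_up1 h1 hy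
      · subst h1
        refine Or.inr ⟨v, hcx.lt, ?_⟩
        rw [rho_up1_self, rho_up1 hy]
        omega
      · subst h1
        refine Or.inr ⟨v, hcx'.lt, ?_⟩
        rw [rho_up1_self, rho_up1 hy]
        omega
  have hFIv : ¬ FI i (up1 e v) v := (mem_Pk'.1 hg).1
  have hFIv' : ¬ FI i e v := by
    rintro (h1 | ⟨w, hw, h1⟩)
    · have := pk_nonneg hx
      omega
    · have := pk_below hx (hw.trans hcx.lt)
      omega
  refine ⟨?_, ?_, ?_⟩
  · rintro y ⟨h1, h2⟩
    by_cases hyv : y = v
    · subst hyv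
      exact hFIv h1
    · rcases (hFI y hyv).1 h1 with h3 | h3
      · obtain ⟨u, hu, h4⟩ := h2
        rw [rho_up1 hyv] at h4
        by_cases huv : u = v
        · subst huv
          rw [rho_up1_self] at h4
          by_cases h5 : rho i e y ≤ rho i e u
          · exact hA y ⟨h3, u, hu, h5⟩
          · have := pk_below hx (hu.trans hcx.lt)
            omega
        · rw [rho_up1 huv] at h4
          exact hA y ⟨h3, u, hu, h4⟩
      · have hvy : v < y := by
          rcases h3 with rfl | rfl
          · exact hcx.lt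
          · exact hcx'.lt
        have hyP : y ∈ Pk i e := by
          rcases h3 with rfl | rfl
          · exact hx
          · exact hx'
        obtain ⟨u, hu, h4⟩ := h2
        rw [rho_up1 hyv, rho_up1 (hvy.trans hu).ne'] at h4
        have := pk_above hyP hu
        omega
  · have h1 : Pk i (up1 e v) = insert v ((Pk i e).erase x |>.erase x') := by
      ext y
      rw [mem_insert, mem_erase, mem_erase]
      constructor
      · intro h2
        by_cases hyv : y = v
        · exact Or.inl hyv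
        · have h3 := (mem_Pk'.1 h2).1
          rw [hFI y hyv] at h3
          push Not at h3
          exact Or.inr ⟨h3.2.2, h3.2.1, pk_of_up1 h2 hyv⟩
      · rintro (rfl | ⟨h2, h3, h4⟩)
        · exact hg
        · have hyv : y ≠ v := fun h => hvn (h ▸ h4)
          by_contra hcon
          rcases lost_cases h4 hcon with ⟨h5, h6⟩ | ⟨h5, h6⟩
          · rcases hab y h5 h6 with h7 | h7
            · exact h3 h7
            · exact h2 h7
          · have := pk_below hx (h5.trans hcx.lt)
            omega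
    have h2 : v ∉ ((Pk i e).erase x |>.erase x') := fun h => hvn (mem_of_mem_erase (mem_of_mem_erase h))
    have h3 : x' ∈ (Pk i e).erase x := mem_erase.2 ⟨hne.symm, hx'⟩
    rw [h1, card_insert_of_notMem h2, card_erase_of_mem h3, card_erase_of_mem hx]
    have h4 : 2 ≤ (Pk i e).card := by
      have h5 : ({x, x'} : Finset Q) ⊆ Pk i e := by
        intro y hy
        rw [mem_insert, mem_singleton] at hy
        rcases hy with rfl | rfl
        · exact hx
        · exact hx'
      have h6 := card_le_card h5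
      rwa [card_pair hne] at h6
    omega
  · have h1 : (univ.filter (fun y => FI i (up1 e v) y)) =
        insert x (insert x' (univ.filter (fun y => FI i e y))) := by
      ext y
      rw [mem_insert, mem_insert, mem_filter, mem_filter]
      by_cases hyv : y = v
      · subst hyv
        constructor
        · rintro ⟨-, h⟩
          exact absurd h hFIv
        · rintro (h | h | h)
          · exact absurd h hcx.lt.ne
          · exact absurd h hcx'.lt.ne
          · exact absurd h.2 hFIv'
      · rw [hFI y hyv]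
        simp only [mem_univ, true_and]
        tauto
    unfold nf
    rw [h1, card_insert_of_notMem, card_insert_of_notMem]
    · rw [mem_filter]
      exact fun h => (mem_Pk'.1 hx').1 h.2
    · rw [mem_insert, mem_filter]
      rintro (h | h)
      · exact hne h
      · exact (mem_Pk'.1 hx).1 h.2

/-- an upper double -/
theorem up2_exact (hT : Two Q) (hA : Adm i e) (h : Up2 i e v) :
    Adm i (up1 e v) ∧ (Pk i e).card = (Pk i (up1 e v)).card + 1 ∧
      nf i e = nf i (up1 e v) + 1 := by
  classical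
  obtain ⟨x, x', hne, hcx, hcx', hx, hx', hr, hr'⟩ := h
  have hD : ∀ y, y ⋖ v → y ∈ Pk i e ∧ rho i e y = rho i e v + 1 := by
    intro y hy
    rcases hT.dn v x x' y hcx hcx' hy hne with rfl | rfl
    · exact ⟨hx, hr⟩
    · exact ⟨hx', hr'⟩
  have hg := gain_dn hD ⟨x, hcx⟩
  have hvn : v ∉ Pk i e := fun h => by
    have := pk_below h hcx.lt
    omega
  -- the elements above `v` with the same height are forced in
  have hab : ∀ y, v < y → rho i e y ≤ rho i e v → FI i e y := by
    intro y hy h1
    exact Or.inr ⟨x, hcx.lt.trans hy, by omega⟩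
  have hFI : ∀ y, y ≠ v → (FI i (up1 e v) y ↔ FI i e y) := by
    intro y hy
    constructor
    · rintro (h1 | ⟨w, hw, h1⟩)
      · rw [rho_up1 hy] at h1
        exact Or.inl h1
      · rw [rho_up1 hy] at h1
        by_cases hwv : w = v
        · subst hwv
          rw [rho_up1_self] at h1
          exact hab y hw (by omega)
        · rw [rho_up1 hwv] at h1
          exact Or.inr ⟨w, hw, h1⟩
    · intro h1
      exact FI_up1 h1 hy
  have hFIv : ¬ FI i (up1 e v) v := (mem_Pk'.1 hg).1
  have hFIv' : FI i e v := Or.inr ⟨x, hcx.lt, by omega⟩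
  refine ⟨?_, ?_, ?_⟩
  · rintro y ⟨h1, h2⟩
    by_cases hyv : y = v
    · subst hyv
      exact hFIv h1
    · have h3 := (hFI y hyv).1 h1
      obtain ⟨u, hu, h4⟩ := h2
      rw [rho_up1 hyv] at h4
      by_cases huv : u = v
      · subst huv
        rw [rho_up1_self] at h4
        obtain ⟨y', hy1, hy2⟩ := exists_le_covBy hu
        obtain ⟨h5, h6⟩ := hD y' hy2
        rcases eq_or_lt_of_le hy1 with h7 | h7
        · rw [h7] at h3
          exact (mem_Pk'.1 h5).1 h3
        · exact hA y ⟨h3, y', h7, by omega⟩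
      · rw [rho_up1 huv] at h4
        exact hA y ⟨h3, u, hu, h4⟩
  · have h1 : Pk i (up1 e v) = insert v ((Pk i e).erase x |>.erase x') := by
      ext y
      rw [mem_insert, mem_erase, mem_erase]
      constructor
      · intro h2
        by_cases hyv : y = v
        · exact Or.inl hyv
        · refine Or.inr ⟨?_, ?_, pk_of_up1 h2 hyv⟩
          · rintro rfl
            refine (mem_Pk'.1 h2).2 ⟨v, hcx'.lt, ?_⟩
            rw [rho_up1_self, rho_up1 hyv]
            omega
          · rintro rfl
            refine (mem_Pk'.1 h2).2 ⟨v, hcx.lt, ?_⟩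
            rw [rho_up1_self, rho_up1 hyv]
            omega
      · rintro (rfl | ⟨h2, h3, h4⟩)
        · exact hg
        · by_contra hcon
          rcases lost_cases h4 hcon with ⟨h5, h6⟩ | ⟨h5, h6⟩
          · have := pk_below h4 (hcx.lt.trans h5)
            omega
          · obtain ⟨y', hy1, hy2⟩ := exists_le_covBy h5
            rcases eq_or_lt_of_le hy1 with h7 | h7
            · rcases hT.dn v x x' y' hcx hcx' hy2 hne with h8 | h8
              · exact h3 (h7.trans h8)
              · exact h2 (h7.trans h8)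
            · have h9 := pk_above h4 h7
              have h10 := (hD y' hy2).2
              omega
    have h2 : v ∉ ((Pk i e).erase x |>.erase x') := fun h => hvn (mem_of_mem_erase (mem_of_mem_erase h))
    have h3 : x' ∈ (Pk i e).erase x := mem_erase.2 ⟨hne.symm, hx'⟩
    rw [h1, card_insert_of_notMem h2, card_erase_of_mem h3, card_erase_of_mem hx]
    have h4 : 2 ≤ (Pk i e).card := by
      have h5 : ({x, x'} : Finset Q) ⊆ Pk i e := by
        intro y hy
        rw [mem_insert, mem_singleton] at hy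
        rcases hy with rfl | rfl
        · exact hx
        · exact hx'
      have h6 := card_le_card h5
      rwa [card_pair hne] at h6
    omega
  · have h1 : (univ.filter (fun y => FI i e y)) =
        insert v (univ.filter (fun y => FI i (up1 e v) y)) := by
      ext y
      rw [mem_insert, mem_filter, mem_filter]
      by_cases hyv : y = v
      · subst hyv
        simp only [mem_univ, true_and, true_or, iff_true]
        exact hFIv'
      · rw [hFI y hyv]
        simp only [mem_univ, true_and, hyv, false_or]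
    unfold nf
    rw [h1, card_insert_of_notMem]
    rw [mem_filter]
    exact fun h => hFIv h.2

end Pool.Agent.GaussPoset
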