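import Pool.Agent.W_448ec_h63.EL

/-!
The energy after the leading one: dangerous configurations are the cheapest one plus one unit.
-/

namespace Pool.Agent.GaussPoset

set_option linter.unusedSectionVars false

open Finset Polynomial

universe u

variable {Q : Type u} [Fintype Q] [PartialOrder Q] [DecidableEq Q] {i n : ℕ} {R : Finset Q}
variable {h : Q → ℕ}

open Classical in
/-- the term of a configuration -/
noncomputable def tmZ (i : ℕ) (e : Q → ℕ) : ℤ[X] :=
  if Adm i e then (X : ℤ[X]) ^ (nf i e) * (1 + X) ^ (Pk i e).card else 0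

open Classical in
lemma tmZ_eq (e : Q → ℕ) :
    tmZ i e = ∑ F : Finset Q, if Vd i e F then (X : ℤ[X]) ^ F.card else 0 := by
  unfold tmZ
  have := sum_vd i e
  convert this.symm using 1

lemma tmZ_zero {e : Q → ℕ} (h : ¬ Adm i e) : tmZ i e = 0 := by
  unfold tmZ
  rw [if_neg h]

lemma tmZ_adm {e : Q → ℕ} (h : Adm i e) :
    tmZ i e = (X : ℤ[X]) ^ (nf i e) * (1 + X) ^ (Pk i e).card := by
  unfold tmZ
  rw [if_pos h]

lemma dvd_tmZ {e : Q → ℕ} {k : ℕ} (h : Adm i e → k ≤ (Pk i e).card) :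
    (1 + X : ℤ[X]) ^ k ∣ tmZ i e := by
  by_cases hA : Adm i e
  · rw [tmZ_adm hA]
    exact Dvd.dvd.mul_left (pow_dvd_pow _ (h hA)) _
  · rw [tmZ_zero hA]
    exact dvd_zero _

open Classical in
/-- the dangerous part -/
theorem DG_tm (hlev : ∀ x ∈ R, i < lev x) (Pd : Finset Q)
    (hPd : ∀ z ∈ Pd, z ∈ bdR R ∧ h z = 1) (hout : ∀ z ∈ bdR R, z ∉ Pd → n < cst i h z) :
    DG i R h n = ∑ e ∈ ((univ : Finset Q).piAntidiag n).filter (fun e => ∃ z ∈ Pd, 1 ≤ e z),
      tmZ i e := by
  have h1 : ∀ e : Q → ℕ, tmZ i e =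
      ∑ F : Finset Q, if Vd i e F then (X : ℤ[X]) ^ F.card else 0 := tmZ_eq
  rw [Finset.sum_congr rfl fun e _ => h1 e, Finset.sum_comm]
  unfold DG
  refine Finset.sum_congr rfl fun F _ => ?_
  rw [← Finset.sum_filter, Finset.filter_filter]
  refine Finset.sum_congr (Finset.filter_congr fun e he => ?_) fun _ _ => rfl
  rw [mem_piAntidiag] at he
  constructor
  · rintro ⟨hV, z, hz, hd⟩
    have hzR := hlev z (mem_filter.1 hz).1
    have h2 : ∀ x, ez i h z x ≤ e x := ez_le hV hzR hd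
    have h3 : cst i h z ≤ n := by
      rw [← he.1]
      exact Finset.sum_le_sum fun x _ => h2 x
    have hzP : z ∈ Pd := by
      by_contra hcon
      have := hout z hz hcon
      omega
    refine ⟨⟨z, hzP, ?_⟩, hV⟩
    rcases hd with hd | hd
    · have := sub_le_of_mem hV hd
      omega
    · rw [(hPd z hzP).2] at hd
      exact hd
  · rintro ⟨⟨z, hz, hz1⟩, hV⟩
    refine ⟨hV, z, (hPd z hz).1, Or.inr ?_⟩
    rw [(hPd z hz).2]
    exact hz1

open Classical in
/-- inclusion and exclusion over the dangerous elements -/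
theorem dvd_dangerous {D : ℤ[X]} (Pd : Finset Q)
    (h1 : ∀ z ∈ Pd, D ∣ ∑ e ∈ ((univ : Finset Q).piAntidiag n).filter (fun e => 1 ≤ e z), tmZ i e)
    (h2 : ∀ z ∈ Pd, ∀ z' ∈ Pd, z ≠ z' → ∀ e ∈ (univ : Finset Q).piAntidiag n, 1 ≤ e z →
      1 ≤ e z' → D ∣ tmZ i e) :
    D ∣ ∑ e ∈ ((univ : Finset Q).piAntidiag n).filter (fun e => ∃ z ∈ Pd, 1 ≤ e z), tmZ i e := by
  induction Pd using Finset.induction_on with
  | empty =>
    have : ((univ : Finset Q).piAntidiag n).filter (fun e => ∃ z ∈ (∅ : Finset Q), 1 ≤ e z) = ∅ := by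
      refine Finset.filter_eq_empty_iff.mpr fun e _ => ?_
      simp
    rw [this, Finset.sum_empty]
    exact dvd_zero _
  | insert z A hzA ih =>
    have ih' := ih (fun w hw => h1 w (mem_insert_of_mem hw))
      (fun w hw w' hw' => h2 w (mem_insert_of_mem hw) w' (mem_insert_of_mem hw'))
    set T := (univ : Finset Q).piAntidiag n with hT
    have e1 : T.filter (fun e => ∃ w ∈ insert z A, 1 ≤ e w) =
        T.filter (fun e => ∃ w ∈ A, 1 ≤ e w) ∪
          ((T.filter (fun e => 1 ≤ e z)).filter (fun e => ¬ ∃ w ∈ A, 1 ≤ e w)) := by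
      ext e
      simp only [mem_filter, mem_union, mem_insert]
      constructor
      · rintro ⟨he, w, hw, hw1⟩
        by_cases hc : ∃ w ∈ A, 1 ≤ e w
        · exact Or.inl ⟨he, hc⟩
        · rcases hw with rfl | hw
          · exact Or.inr ⟨⟨he, hw1⟩, hc⟩
          · exact absurd ⟨w, hw, hw1⟩ hc
      · rintro (⟨he, w, hw, hw1⟩ | ⟨⟨he, hz1⟩, -⟩)
        · exact ⟨he, w, Or.inr hw, hw1⟩
        · exact ⟨he, z, Or.inl rfl, hz1⟩
    rw [e1, Finset.sum_union]
    · refine dvd_add ih' ?_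
      have e2 := Finset.sum_filter_add_sum_filter_not (T.filter (fun e => 1 ≤ e z))
        (fun e => ∃ w ∈ A, 1 ≤ e w) (fun e => tmZ i e)
      have e3 : ∑ e ∈ (T.filter (fun e => 1 ≤ e z)).filter (fun e => ¬ ∃ w ∈ A, 1 ≤ e w),
          tmZ i e = ∑ e ∈ T.filter (fun e => 1 ≤ e z), tmZ i e -
          ∑ e ∈ (T.filter (fun e => 1 ≤ e z)).filter (fun e => ∃ w ∈ A, 1 ≤ e w), tmZ i e := by
        rw [← e2]
        ring
      rw [e3]
      refine dvd_sub (h1 z (mem_insert_self _ _)) (dvd_sum fun e he => ?_)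
      simp only [mem_filter] at he
      obtain ⟨⟨he, hz1⟩, w, hw, hw1⟩ := he
      exact h2 z (mem_insert_self _ _) w (mem_insert_of_mem hw)
        (fun hzw => hzA (hzw ▸ hw)) e he hz1 hw1
    · rw [disjoint_left]
      intro e he he'
      simp only [mem_filter] at he he'
      exact he'.2 he.2

lemma up1_inj {e : Q → ℕ} {v v' : Q} (h : up1 e v = up1 e v') : v = v' := by
  by_contra hne
  have h1 := congrFun h v
  unfold up1 at h1
  rw [if_pos rfl, if_neg hne] at h1
  omega

lemma sum_up1 {e : Q → ℕ} {v : Q} : ∑ x, up1 e v x = ∑ x, e x + 1 := by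
  unfold up1
  rw [Finset.sum_add_distrib]
  simp

/-- one unit more -/
lemma exists_up1 {e g : Q → ℕ} (hle : ∀ x, g x ≤ e x) (hs : ∑ x, e x = ∑ x, g x + 1) :
    ∃ v, e = up1 g v := by
  classical
  have h1 : ∃ v, g v < e v := by
    by_contra hcon
    push Not at hcon
    have : ∑ x, e x ≤ ∑ x, g x := Finset.sum_le_sum fun x _ => hcon x
    omega
  obtain ⟨v, hv⟩ := h1
  refine ⟨v, ?_⟩
  have h2 : ∀ x, up1 g v x ≤ e x := by
    intro x
    unfold up1
    by_cases hx : x = v
    · subst hx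
      rw [if_pos rfl]
      omega
    · rw [if_neg hx]
      exact hle x
  have h3 : ∑ x, up1 g v x = ∑ x, e x := by rw [sum_up1, hs]
  funext x
  exact ((Finset.sum_eq_sum_iff_of_le (fun x _ => h2 x)).mp h3 x (mem_univ x)).symm

/-- an admissible configuration has a valid filter -/
lemma adm_vd {e : Q → ℕ} (hA : Adm i e) : ∃ F, Vd i e F := by
  classical
  refine ⟨univ.filter (fun x => FI i e x), ?_⟩
  rw [vd_iff]
  constructor
  · intro x hx
    rw [mem_filter]
    exact ⟨mem_univ _, hx⟩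
  · intro x hx hx2
    rw [mem_filter] at hx2
    exact hA x ⟨hx2.2, hx⟩

/-- a configuration which excites `z` -/
lemma ge_ez {e : Q → ℕ} (hA : Adm i e) {z : Q} (hz : i < lev z) (h1 : h z = 1)
    (he : 1 ≤ e z) (x : Q) : ez i h z x ≤ e x := by
  obtain ⟨F, hF⟩ := adm_vd hA
  exact ez_le hF hz (Or.inr (by rw [h1]; exact he)) x

open Classical in
/-- the configurations which excite `z`, one unit above the cost of `z` -/
theorem sum_excite {z : Q} (hz : i < lev z) (h1 : h z = 1) (hn : n = cst i h z + 1) :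
    ∑ e ∈ ((univ : Finset Q).piAntidiag n).filter (fun e => 1 ≤ e z), tmZ i e =
      ∑ v : Q, tmZ i (up1 (ez i h z) v) := by
  have hinj : ∀ v ∈ (univ : Finset Q), ∀ v' ∈ (univ : Finset Q),
      up1 (ez i h z) v = up1 (ez i h z) v' → v = v' := fun v _ v' _ h => up1_inj h
  rw [← Finset.sum_image (g := fun v => up1 (ez i h z) v) (f := fun e => tmZ i e) hinj]
  symm
  refine Finset.sum_subset ?_ ?_
  · intro e he
    rw [mem_image] at he
    obtain ⟨v, -, rfl⟩ := he
    rw [mem_filter, mem_piAntidiag]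
    refine ⟨⟨?_, fun _ _ => mem_univ _⟩, ?_⟩
    · rw [sum_up1, hn]
      rfl
    · have h2 : ez i h z z = 1 := by
        rw [ez_self (by omega), h1]
      unfold up1
      omega
  · intro e he hne
    rw [mem_filter, mem_piAntidiag] at he
    by_contra hcon
    have hA : Adm i e := by
      by_contra hA
      exact hcon (tmZ_zero hA)
    obtain ⟨v, hv⟩ := exists_up1 (g := ez i h z) (e := e) (ge_ez hA hz h1 he.2) (by
      rw [he.1.1, hn]
      rfl)
    exact hne (mem_image.2 ⟨v, mem_univ _, hv.symm⟩)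

end Pool.Agent.GaussPoset
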