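import Pool.Agent.W_448ec_h63.EM

/-!
The first excitations of a cheapest configuration cancel.
-/

namespace Pool.Agent.GaussPoset

set_option linter.unusedSectionVars false

open Finset Polynomial

universe u

variable {Q : Type u} [Fintype Q] [PartialOrder Q] [DecidableEq Q] {i n : ℕ}

open Classical in
/-- the lower doubles -/
noncomputable def LowS (i : ℕ) (e : Q → ℕ) : Finset Q := univ.filter (fun v => Low2 i e v)

open Classical in
/-- the upper doubles -/
noncomputable def EcUpS (i : ℕ) (e : Q → ℕ) : Finset Q := univ.filter (fun v => Up2 i e v)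

lemma mem_LowS {e : Q → ℕ} {v : Q} : v ∈ LowS i e ↔ Low2 i e v := by
  unfold LowS
  simp

lemma mem_UpS {e : Q → ℕ} {v : Q} : v ∈ EcUpS i e ↔ Up2 i e v := by
  unfold EcUpS
  simp

/-- first excitations -/
theorem dvd_sum_up1 {e : Q → ℕ} (hT : Two Q) (hA : Adm i e)
    (hmix : ∀ v, Adm i (up1 e v) → ¬ Mix1 i e v ∧ ¬ Mix2 i e v)
    (hLU : (LowS i e).card = (EcUpS i e).card) :
    (1 + X : ℤ[X]) ^ (Pk i e).card ∣ ∑ v : Q, tmZ i (up1 e v) := by
  classical
  have hdisj : Disjoint (LowS i e) (EcUpS i e) := by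
    rw [disjoint_left]
    intro v hv hv'
    rw [mem_LowS] at hv
    rw [mem_UpS] at hv'
    have h1 := (low2_exact hT hA hv).2.2
    have h2 := (up2_exact hT hA hv').2.2
    omega
  have hsplit : ∑ v : Q, tmZ i (up1 e v) = ∑ v ∈ LowS i e ∪ EcUpS i e, tmZ i (up1 e v) +
      ∑ v ∈ (LowS i e ∪ EcUpS i e)ᶜ, tmZ i (up1 e v) := (Finset.sum_add_sum_compl _ _).symm
  rw [hsplit, Finset.sum_union hdisj]
  refine dvd_add ?_ ?_
  · have hL : ∑ v ∈ LowS i e, tmZ i (up1 e v) =
        (LowS i e).card • ((X : ℤ[X]) ^ (nf i e + 2) * (1 + X) ^ ((Pk i e).card - 1)) := by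
      rw [← Finset.sum_const]
      refine Finset.sum_congr rfl fun v hv => ?_
      obtain ⟨h1, h2, h3⟩ := low2_exact hT hA (mem_LowS.1 hv)
      rw [tmZ_adm h1, h3, h2, Nat.add_sub_cancel]
    have hU : ∑ v ∈ EcUpS i e, tmZ i (up1 e v) =
        (EcUpS i e).card • ((X : ℤ[X]) ^ (nf i e - 1) * (1 + X) ^ ((Pk i e).card - 1)) := by
      rw [← Finset.sum_const]
      refine Finset.sum_congr rfl fun v hv => ?_
      obtain ⟨h1, h2, h3⟩ := up2_exact hT hA (mem_UpS.1 hv)
      rw [tmZ_adm h1, h2, Nat.add_sub_cancel, h3, Nat.add_sub_cancel]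
    rw [hL, hU, hLU, ← smul_add]
    rcases Finset.eq_empty_or_nonempty (EcUpS i e) with h0 | ⟨v, hv⟩
    · rw [h0, card_empty, zero_smul]
      exact dvd_zero _
    · obtain ⟨-, h2, h3⟩ := up2_exact hT hA (mem_UpS.1 hv)
      refine Dvd.dvd.mul_left ?_ _ |>.trans (by rw [nsmul_eq_mul])
      obtain ⟨N, hN⟩ : ∃ N, nf i e = N + 1 := ⟨nf i (up1 e v), h3⟩
      obtain ⟨K, hK⟩ : ∃ K, (Pk i e).card = K + 1 := ⟨(Pk i (up1 e v)).card, h2⟩
      rw [hN, hK, Nat.add_sub_cancel, Nat.add_sub_cancel]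
      refine ⟨X ^ N * (1 - X + X ^ 2), ?_⟩
      ring
  · refine dvd_sum fun v hv => dvd_tmZ fun hAv => ?_
    rw [mem_compl, mem_union, not_or, mem_LowS, mem_UpS] at hv
    rcases step_cases hT hAv with h1 | ⟨-, h1 | h1 | h1 | h1⟩
    · exact h1
    · exact absurd h1 hv.1
    · exact absurd h1 hv.2
    · exact absurd h1 (hmix v hAv).1
    · exact absurd h1 (hmix v hAv).2

section ez

variable {h : Q → ℕ} {z : Q}

/-- heights of the cheapest configuration -/
lemma rho_ez1 (h1 : h z = 1) (x : Q) : (z ≤ x → i < lev x → rho i (ez i h z) x = 1) ∧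
    (¬ (z ≤ x ∧ i < lev x) → rho i (ez i h z) x = -((i - lev x : ℕ) : ℤ)) := by
  constructor
  · intro hzx hx
    rw [rho_ez_of_ge hzx (by omega), h1]
    rfl
  · intro hx
    by_cases hzx : z ≤ x
    · have hx2 : ¬ i < lev x := fun h' => hx ⟨hzx, h'⟩
      rw [rho_ez_of_le hzx (by omega)]
      omega
    · exact rho_ez_of_not hzx

/-- the peaks of the cheapest configuration -/
lemma mem_pk_ez (hgr : GradedBelow Q) (hz : i < lev z) (h1 : h z = 1) {x : Q} :
    x ∈ Pk i (ez i h z) ↔ (¬ z ≤ x ∧ lev x = i) ∨ (z ≤ x ∧ lev x = i + 1) := by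
  rw [mem_Pk', FI_ez hgr (by omega) (by omega), FA_ez, h1]
  by_cases hzx : z ≤ x
  · simp only [hzx, true_and, not_true_eq_false, and_false, false_or, false_and]
    omega
  · simp only [hzx, false_and, not_false_eq_true, and_true, or_false, true_and]
    omega

/-- no mixed excitations -/
lemma no_mix (hgr : GradedBelow Q) (hz : i < lev z) (h1 : h z = 1) (v : Q)
    (hA : Adm i (up1 (ez i h z) v)) :
    ¬ Mix1 i (ez i h z) v ∧ ¬ Mix2 i (ez i h z) v := by
  have hle1 : ∀ x, rho i (ez i h z) x ≤ 1 := by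
    intro x
    by_cases hx : z ≤ x ∧ i < lev x
    · rw [(rho_ez1 h1 x).1 hx.1 hx.2]
    · rw [(rho_ez1 h1 x).2 hx]
      omega
  constructor
  · rintro ⟨x, hvx, hx, hr, u, hu, hru⟩
    have h2 := hle1 u
    have h3 := hgr.lev_covBy hvx
    rcases (mem_pk_ez hgr hz h1).1 hx with ⟨h4, h5⟩ | ⟨h4, h5⟩
    · have h6 := lev_strictAnti hu
      have h7 := (rho_ez1 (i := i) h1 u).2 (by omega)
      have h8 := (rho_ez1 (i := i) h1 x).2 (by omega)
      omega
    · have h8 := (rho_ez1 (i := i) h1 x).1 h4 (by omega)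
      omega
  · rintro ⟨x, hxv, hx, hr, w, hw, hrw⟩
    have h2 := hle1 w
    have h3 := hgr.lev_covBy hxv
    rcases (mem_pk_ez hgr hz h1).1 hx with ⟨h4, h5⟩ | ⟨h4, h5⟩
    · have h8 := (rho_ez1 (i := i) h1 x).2 (by omega)
      -- a site between
      have h9 : i < lev w := by
        by_contra hcon
        have := (rho_ez1 (i := i) h1 w).2 (by omega)
        omega
      obtain ⟨s, hs1, hs2, hs3⟩ := exists_between hgr hw.le (l := i) (by omega) h9.le
      have hsv : s ≠ v := by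
        rintro rfl
        omega
      have hws : w < s := lt_of_le_of_ne hs1 (by rintro rfl; omega)
      have h10 := (rho_ez1 (i := i) h1 s).2 (by omega)
      refine hA s ⟨Or.inr ⟨w, hws, ?_⟩, v, lt_of_le_of_ne hs2 hsv, ?_⟩
      · rw [rho_up1 hsv, rho_up1 hw.ne]
        omega
      · rw [rho_up1 hsv, rho_up1_self]
        omega
    · have h8 := (rho_ez1 (i := i) h1 x).1 h4 (by omega)
      omega

end ez

end Pool.Agent.GaussPoset
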