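import Pool.Agent.W_448ec_h63.EN

/-!
Staircases with a pendant below the fold: order one less at the next energy.
-/

namespace Pool.Agent.GaussPoset

set_option linter.unusedSectionVars false

open Finset Polynomial

universe u

variable {Q : Type u} [Fintype Q] [PartialOrder Q] [DecidableEq Q] {i n : ℕ}
variable {t : Q} {T : ℕ × ℕ → Prop} {co : Q → ℕ × ℕ} {J p q : ℕ}

lemma prd_of_cov (H : Tru t T co i J p q) {v x : Q} (hv : lev v ≤ J) (h : v ⋖ x) :
    Prd (co v) (co x) := by
  have h1 := H.graded.lev_covBy h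
  have h2 := (H.chart.le_iff v (mem_loN.2 hv) x (mem_loN.2 (by omega))).1 h.le
  have h3 := H.chart.lev v (mem_loN.2 hv)
  have h4 := H.chart.lev x (mem_loN.2 (by omega))
  have h5 : (co x).1 ≤ (co v).1 := h2.1
  have h6 : (co x).2 ≤ (co v).2 := h2.2
  unfold Prd
  omega

lemma cov_of_prd (H : Tru t T co i J p q) {v x : Q} (hv : lev v ≤ J) (hx : lev x ≤ J)
    (h : Prd (co v) (co x)) : v ⋖ x := by
  have h1 : v ≤ x := (H.chart.le_iff v (mem_loN.2 hv) x (mem_loN.2 hx)).2 h.le
  have h3 := H.chart.lev v (mem_loN.2 hv)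
  have h4 := H.chart.lev x (mem_loN.2 hx)
  have h5 : lev v = lev x + 1 := by
    rcases h with h | h <;> omega
  refine ⟨lt_of_le_of_ne h1 (by rintro rfl; omega), fun y hy1 hy2 => ?_⟩
  have := lev_strictAnti hy1
  have := lev_strictAnti hy2
  omega

/-- two covers -/
lemma prd_two {c d d' : ℕ × ℕ} (h : Prd c d) (h' : Prd c d') (hne : d ≠ d') :
    1 ≤ c.1 ∧ 1 ≤ c.2 ∧ ((d = (c.1 - 1, c.2) ∧ d' = (c.1, c.2 - 1)) ∨
      (d' = (c.1 - 1, c.2) ∧ d = (c.1, c.2 - 1))) := by
  obtain ⟨a, b⟩ := c
  obtain ⟨a1, b1⟩ := d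
  obtain ⟨a2, b2⟩ := d'
  unfold Prd at h h'
  simp only [ne_eq, Prod.mk.injEq] at h h' hne ⊢
  omega

/-- two lower covers -/
lemma prd_two' {c d d' : ℕ × ℕ} (h : Prd d c) (h' : Prd d' c) (hne : d ≠ d') :
    (d = (c.1 + 1, c.2) ∧ d' = (c.1, c.2 + 1)) ∨ (d' = (c.1 + 1, c.2) ∧ d = (c.1, c.2 + 1)) := by
  obtain ⟨a, b⟩ := c
  obtain ⟨a1, b1⟩ := d
  obtain ⟨a2, b2⟩ := d'
  unfold Prd at h h'
  simp only [ne_eq, Prod.mk.injEq] at h h' hne ⊢
  omega

/-- the doubles of the two kinds correspond to each other -/
theorem card_low_up (H : Tru t (fun c => c.1 ≤ c.2) co i J (i + 1) q) {h : Q → ℕ} {z xF : Q}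
    (hz : J < lev z) (h1 : h z = 1) (hzx : z ⋖ xF) (hxl : lev xF = J)
    (hf : (co xF).1 = (co xF).2) (hnab : nab J z = 1) :
    (LowS i (ez i h z)).card = (EcUpS i (ez i h z)).card := by
  classical
  have hiJ := H.hiJ
  have hzi : i < lev z := by omega
  have hpk := fun x : Q => mem_pk_ez (x := x) H.graded hzi h1
  -- everything above `z` is above `xF`
  have habove : ∀ x, z ≤ x → lev x ≤ J → xF ≤ x := by
    intro x hx hxJ
    obtain ⟨w, hw1, hw2, hw3⟩ := exists_between H.graded hx (l := J) hxJ hz.le
    have hwx : w = xF := by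
      by_contra hne
      have := two_le_nab hw1 hzx.le hw3 hxl hne
      omega
    rw [← hwx]
    exact hw2
  have hlow : ∀ v ∈ LowS i (ez i h z), lev v ≤ i + 2 := by
    intro v hv
    obtain ⟨x, x', -, hvx, -, hx, -⟩ := mem_LowS.1 hv
    have h2 := H.graded.lev_covBy hvx
    rcases (hpk x).1 hx with h3 | h3 <;> omega
  have hup : ∀ v ∈ EcUpS i (ez i h z), lev v ≤ i := by
    intro v hv
    obtain ⟨x, x', -, hvx, -, hx, -⟩ := mem_UpS.1 hv
    have h2 := H.graded.lev_covBy hvx
    rcases (hpk x).1 hx with h3 | h3 <;> omega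
  have key : (LowS i (ez i h z)).image co =
      (EcUpS i (ez i h z)).image (fun v => ((co v).1 + 1, (co v).2 + 1)) := by
    ext c
    rw [mem_image, mem_image]
    constructor
    · rintro ⟨v, hv, rfl⟩
      have hvl := hlow v hv
      obtain ⟨x, x', hne, hvx, hvx', hx, hx', hr, hr'⟩ := mem_LowS.1 hv
      have g1 := H.graded.lev_covBy hvx
      have g2 := H.graded.lev_covBy hvx'
      have g3 := prd_of_cov H (by omega) hvx
      have g4 := prd_of_cov H (by omega) hvx'
      have g5 : co x ≠ co x' := fun h' =>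
        hne (H.chart.inj x (mem_loN.2 (by omega)) x' (mem_loN.2 (by omega)) h')
      obtain ⟨g6, g7, g8⟩ := prd_two g3 g4 g5
      have m1 : (co x).1 ≤ (co x).2 := H.chart.mem x (mem_loN.2 (by omega))
      have m2 : (co x').1 ≤ (co x').2 := H.chart.mem x' (mem_loN.2 (by omega))
      have lv := H.chart.lev v (mem_loN.2 (by omega))
      obtain ⟨v', hv', hcv'⟩ := H.chart.low v (mem_loN.2 (by omega))
        ((co v).1 - 1, (co v).2 - 1) ⟨Nat.sub_le _ _, Nat.sub_le _ _⟩ (by
          simp only
          rcases g8 with ⟨e1, e2⟩ | ⟨e1, e2⟩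
          · rw [e2] at m2
            simp only at m2
            omega
          · rw [e2] at m1
            simp only at m1
            omega)
      have lv' := H.chart.lev v' hv'
      rw [hcv'] at lv'
      simp only at lv'
      refine ⟨v', ?_, ?_⟩
      · rw [mem_UpS]
        have c1 : x ⋖ v' := by
          refine cov_of_prd H (by omega) (by omega) ?_
          rw [hcv']
          rcases g8 with ⟨e1, e2⟩ | ⟨e1, e2⟩
          · rw [e1]
            exact Or.inr ⟨rfl, by simp only; omega⟩
          · rw [e2]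
            exact Or.inl ⟨by simp only; omega, rfl⟩
        have c2 : x' ⋖ v' := by
          refine cov_of_prd H (by omega) (by omega) ?_
          rw [hcv']
          rcases g8 with ⟨e1, e2⟩ | ⟨e1, e2⟩
          · rw [e2]
            exact Or.inl ⟨by simp only; omega, rfl⟩
          · rw [e1]
            exact Or.inr ⟨rfl, by simp only; omega⟩
        have hrho : ∀ y, y ∈ Pk i (ez i h z) → lev y = lev v' + 1 →
            rho i (ez i h z) y = rho i (ez i h z) v' + 1 := by
          intro y hy hyl
          have r1 := (rho_ez1 (i := i) h1 v').2 (by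
            rcases (hpk y).1 hy with h3 | h3 <;> omega)
          rcases (hpk y).1 hy with ⟨h3, h4⟩ | ⟨h3, h4⟩
          · have r2 := (rho_ez1 (i := i) h1 y).2 (by omega)
            omega
          · have r2 := (rho_ez1 (i := i) h1 y).1 h3 (by omega)
            omega
        exact ⟨x, x', hne, c1, c2, hx, hx', hrho x hx (by omega), hrho x' hx' (by omega)⟩
      · rw [hcv']
        exact Prod.ext (by simp only; omega) (by simp only; omega)
    · rintro ⟨v', hv', rfl⟩
      have hvl := hup v' hv'
      obtain ⟨x, x', hne, hvx, hvx', hx, hx', hr, hr'⟩ := mem_UpS.1 hv'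
      have g1 := H.graded.lev_covBy hvx
      have g2 := H.graded.lev_covBy hvx'
      have g3 := prd_of_cov H (by omega) hvx
      have g4 := prd_of_cov H (by omega) hvx'
      have g5 : co x ≠ co x' := fun h' =>
        hne (H.chart.inj x (mem_loN.2 (by omega)) x' (mem_loN.2 (by omega)) h')
      have g8 := prd_two' g3 g4 g5
      have m1 : (co v').1 ≤ (co v').2 := H.chart.mem v' (mem_loN.2 (by omega))
      have lv' := H.chart.lev v' (mem_loN.2 (by omega))
      -- the cell exists
      have hex : ∃ v, lev v ≤ J ∧ co v = ((co v').1 + 1, (co v').2 + 1) ∧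
          (lev x = i + 1 → z ≤ v) := by
        rcases (hpk x).1 hx with ⟨h3, h4⟩ | ⟨h3, h4⟩
        · obtain ⟨v, hv1, hv2⟩ := H.base ((co v').1 + 1) ((co v').2 + 1) (by simp only; omega)
            (by omega) (by
              rcases H.qcl with hq | hq
              · omega
              · rcases g8 with ⟨e1, e2⟩ | ⟨e1, e2⟩
                · have := hq x' (by omega)
                  rw [e2] at this
                  exact this
                · have := hq x (by omega)
                  rw [e2] at this
                  exact this) (by omega)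
          exact ⟨v, hv1, hv2, fun h' => by omega⟩
        · have h5 : z ≤ x' := by
            rcases (hpk x').1 hx' with ⟨h6, h7⟩ | ⟨h6, h7⟩
            · omega
            · exact h6
          have f1 := (H.chart.le_iff xF (mem_loN.2 (by omega)) x (mem_loN.2 (by omega))).1
            (habove x h3 (by omega))
          have f2 := (H.chart.le_iff xF (mem_loN.2 (by omega)) x' (mem_loN.2 (by omega))).1
            (habove x' h5 (by omega))
          have f3 : (co x).1 ≤ (co xF).1 := f1.1
          have f4 : (co x).2 ≤ (co xF).2 := f1.2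
          have f5 : (co x').1 ≤ (co xF).1 := f2.1
          have f6 : (co x').2 ≤ (co xF).2 := f2.2
          obtain ⟨v, hv1, hv2⟩ := H.chart.low xF (mem_loN.2 (by omega))
            ((co v').1 + 1, (co v').2 + 1) (by
              rcases g8 with ⟨e1, e2⟩ | ⟨e1, e2⟩
              · rw [e1] at f3
                rw [e2] at f6
                exact ⟨f3, f6⟩
              · rw [e1] at f5
                rw [e2] at f4
                exact ⟨f5, f4⟩) (by simp only; omega)
          refine ⟨v, mem_loN.1 hv1, hv2, fun _ => hzx.le.trans ?_⟩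
          rw [H.chart.le_iff xF (mem_loN.2 (by omega)) v hv1, hv2]
          rcases g8 with ⟨e1, e2⟩ | ⟨e1, e2⟩
          · rw [e1] at f3
            rw [e2] at f6
            exact ⟨f3, f6⟩
          · rw [e1] at f5
            rw [e2] at f4
            exact ⟨f5, f4⟩
      obtain ⟨v, hvJ, hcv, hzv⟩ := hex
      have lv := H.chart.lev v (mem_loN.2 hvJ)
      rw [hcv] at lv
      simp only at lv
      refine ⟨v, ?_, hcv⟩
      rw [mem_LowS]
      have c1 : v ⋖ x := by
        refine cov_of_prd H hvJ (by omega) ?_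
        rw [hcv]
        rcases g8 with ⟨e1, e2⟩ | ⟨e1, e2⟩
        · rw [e1]
          exact Or.inr ⟨rfl, rfl⟩
        · rw [e2]
          exact Or.inl ⟨rfl, rfl⟩
      have c2 : v ⋖ x' := by
        refine cov_of_prd H hvJ (by omega) ?_
        rw [hcv]
        rcases g8 with ⟨e1, e2⟩ | ⟨e1, e2⟩
        · rw [e2]
          exact Or.inl ⟨rfl, rfl⟩
        · rw [e1]
          exact Or.inr ⟨rfl, rfl⟩
      have hrho : ∀ y, y ∈ Pk i (ez i h z) → v ⋖ y → lev y = lev x →
          rho i (ez i h z) y = rho i (ez i h z) v := by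
        intro y hy hvy hyl
        have g9 := H.graded.lev_covBy hvy
        rcases (hpk y).1 hy with ⟨h3, h4⟩ | ⟨h3, h4⟩
        · have r2 := (rho_ez1 (i := i) h1 y).2 (by omega)
          have r1 := (rho_ez1 (i := i) h1 v).2 (fun h' => h3 (h'.1.trans hvy.le))
          omega
        · have r2 := (rho_ez1 (i := i) h1 y).1 h3 (by omega)
          have r1 := (rho_ez1 (i := i) h1 v).1 (hzv (by omega)) (by omega)
          omega
      exact ⟨x, x', hne, c1, c2, hx, hx', hrho x hx c1 rfl, hrho x' hx' c2 (by omega)⟩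
  have i1 : ((LowS i (ez i h z)).image co).card = (LowS i (ez i h z)).card := by
    refine card_image_of_injOn ?_
    intro a ha b hb hab
    have e1 := hlow a ha
    have e2 := hlow b hb
    exact H.chart.inj a (mem_loN.2 (by omega)) b (mem_loN.2 (by omega)) hab
  have i2 : ((EcUpS i (ez i h z)).image (fun v => ((co v).1 + 1, (co v).2 + 1))).card =
      (EcUpS i (ez i h z)).card := by
    refine card_image_of_injOn ?_
    intro a ha b hb hab
    have e1 := hup a ha
    have e2 := hup b hb
    simp only [Prod.mk.injEq] at hab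
    exact H.chart.inj a (mem_loN.2 (by omega)) b (mem_loN.2 (by omega))
      (Prod.ext (by omega) (by omega))
  rw [← i1, ← i2, key]

end Pool.Agent.GaussPoset
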