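import Pool.Agent.W_448ec_h63.EO

/-!
Staircases: order one less at all energies up to twice the distance.
-/

namespace Pool.Agent.GaussPoset

set_option linter.unusedSectionVars false

open Finset Polynomial

universe u

variable {Q : Type u} [Fintype Q] [PartialOrder Q] [DecidableEq Q] {i n : ℕ}
variable {t : Q} {co : Q → ℕ × ℕ} {J q : ℕ}

/-- label one, exact cost -/
lemma cost_one_eq {h : Q → ℕ} {z : Q} (hz : lev z = J + 1) (hiJ : i ≤ J) (h1 : h z = 1) :
    cst i h z = 1 + ∑ m ∈ range (J - i), nab (J - m) z := by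
  classical
  have e1 : cst i h z = nab (J + 1) z + ∑ k ∈ range (J + 1), min (h z) (k - i) * nab k z := by
    rw [cst_eq, hz, Finset.sum_range_succ, h1, add_comm]
    congr 1
    rw [Nat.min_eq_left (by omega), one_mul]
  have e2 : ∑ m ∈ range (J - i), nab (J - m) z =
      ∑ k ∈ range (J + 1), min (h z) (k - i) * nab k z := by
    have h3 : (range (J - i)).image (fun m => J - m) ⊆ range (J + 1) := by
      intro k hk
      rw [mem_image] at hk
      obtain ⟨m, -, rfl⟩ := hk
      rw [mem_range]
      omega
    rw [← Finset.sum_subset h3]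
    · rw [Finset.sum_image]
      · refine Finset.sum_congr rfl fun m hm => ?_
        rw [mem_range] at hm
        rw [h1, Nat.min_eq_left (by omega), one_mul]
      · intro a ha b hb hab
        rw [mem_coe, mem_range] at ha hb
        have hab' : J - a = J - b := hab
        omega
    · intro k hk hk2
      rw [mem_range] at hk
      have h4 : k - i = 0 := by
        by_contra hcon
        refine hk2 (mem_image.2 ⟨J - k, ?_, ?_⟩)
        · rw [mem_range]
          omega
        · change J - (J - k) = k
          omega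
      rw [h4, Nat.min_zero, zero_mul]
  have e3 : nab (J + 1) z = 1 := by
    rw [← hz]
    exact nab_self
  rw [e1, e2, e3]

/-- the elements of level `J + 1` below the fold with another cover are expensive -/
lemma fold_two (H : Tru t (fun c => c.1 ≤ c.2) co i J (i + 1) q) {z x x' : Q} (hzx : z ≤ x)
    (hzx' : z ≤ x') (hx : lev x = J) (hx' : lev x' = J) (hne : x ≠ x')
    (hf : (co x).1 = (co x).2) : 2 ≤ nab (J - 1) z := by
  have hiJ := H.hiJ
  have l1 := H.chart.lev x (mem_loN.2 (by omega))
  have l2 := H.chart.lev x' (mem_loN.2 (by omega))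
  have m2 : (co x').1 ≤ (co x').2 := H.chart.mem x' (mem_loN.2 (by omega))
  have hc : (co x').1 < (co x).1 := by
    by_contra hcon
    exact hne (H.chart.inj x (mem_loN.2 (by omega)) x' (mem_loN.2 (by omega))
      (Prod.ext (by omega) (by omega)))
  obtain ⟨y, hy, hcy⟩ := H.chart.low x (mem_loN.2 (by omega)) ((co x).1 - 1, (co x).2)
    ⟨Nat.sub_le _ _, le_rfl⟩ (by simp only; omega)
  have ly := H.chart.lev y hy
  rw [hcy] at ly
  simp only at ly
  have hxy : x ≤ y := by
    rw [H.chart.le_iff x (mem_loN.2 (by omega)) y hy, hcy]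
    exact ⟨Nat.sub_le _ _, le_rfl⟩
  have hex : ∃ y', x' ≤ y' ∧ lev y' = J - 1 ∧ co y' ≠ co y := by
    rcases Nat.eq_zero_or_pos (co x').1 with h0 | h0
    · obtain ⟨y', hy', hcy'⟩ := H.chart.low x' (mem_loN.2 (by omega)) ((co x').1, (co x').2 - 1)
        ⟨le_rfl, Nat.sub_le _ _⟩ (by simp only; omega)
      have ly' := H.chart.lev y' hy'
      rw [hcy'] at ly'
      simp only at ly'
      refine ⟨y', ?_, by omega, ?_⟩
      · rw [H.chart.le_iff x' (mem_loN.2 (by omega)) y' hy', hcy']
        exact ⟨le_rfl, Nat.sub_le _ _⟩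
      · rw [hcy, hcy']
        intro h
        simp only [Prod.mk.injEq] at h
        omega
    · obtain ⟨y', hy', hcy'⟩ := H.chart.low x' (mem_loN.2 (by omega)) ((co x').1 - 1, (co x').2)
        ⟨Nat.sub_le _ _, le_rfl⟩ (by simp only; omega)
      have ly' := H.chart.lev y' hy'
      rw [hcy'] at ly'
      simp only at ly'
      refine ⟨y', ?_, by omega, ?_⟩
      · rw [H.chart.le_iff x' (mem_loN.2 (by omega)) y' hy', hcy']
        exact ⟨Nat.sub_le _ _, le_rfl⟩
      · rw [hcy, hcy']
        intro h
        simp only [Prod.mk.injEq] at h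
        omega
  obtain ⟨y', h3, h4, h5⟩ := hex
  exact two_le_nab (hzx.trans hxy) (hzx'.trans h3) (by omega) h4 (fun h' => h5 (h' ▸ rfl))

/-- the dangerous elements at the two exceptional energies -/
theorem fold_pd (H : Tru t (fun c => c.1 ≤ c.2) co i J (i + 1) q) {z : Q}
    (hz : z ∈ bdR (hiN Q J)) (hJ : 2 * (J / 2) = J)
    (hn : (J = i + 3 ∧ n = 6) ∨ (J = i + 4 ∧ n = 8)) (hc : cst i (hS co i J q) z ≤ n) :
    hS co i J q z = 1 ∧ n = cst i (hS co i J q) z + 1 ∧ nab i z ≤ nab (i + 1) z + 1 ∧
      ∃ x, z ⋖ x ∧ lev x = J ∧ (co x).1 = (co x).2 ∧ nab J z = 1 := by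
  classical
  have hiJ := H.hiJ
  have hq := H.hq
  have hl := bd_lev' H hz
  have h1 : hS co i J q z = 1 := by
    by_contra hne
    obtain ⟨x, -, -, hx⟩ := hcan_spec (θ := thJ J (i + 1) q co) hz
    change ¬ hcan (hiN Q J) (thJ J (i + 1) q co) z = 1 at hne
    have h2 := cost_two (h := hS co i J q) (i := i) hl (by omega)
      (show 2 ≤ hcan (hiN Q J) (thJ J (i + 1) q co) z by omega)
    omega
  refine ⟨h1, ?_⟩
  obtain ⟨x, hzx, hxl, hsc, hcq, h | h | h⟩ := stair_cost_one H hz h1
  · exfalso
    obtain ⟨L, hL⟩ : ∃ L, J - i = L + 2 := ⟨J - i - 2, by omega⟩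
    rw [hL, sum_gR] at h
    omega
  · exfalso
    omega
  obtain ⟨hf, hcost, -⟩ := h
  have hcx := cost_one_eq (i := i) (h := hS co i J q) hl (by omega) h1
  -- only one cover
  have hnab : nab J z = 1 := by
    by_contra hne
    have h2 : 1 ≤ nab J z := one_le_nab (by omega)
    have h3 : ∃ x', z ≤ x' ∧ lev x' = J ∧ x' ≠ x := by
      by_contra hcon
      push Not at hcon
      apply hne
      have h4 : (lv Q J).filter (fun y => z ≤ y) = {x} := by
        ext y
        rw [mem_filter, mem_lv, mem_singleton]
        exact ⟨fun h => hcon y h.2 h.1, fun h => by rw [h]; exact ⟨hxl, hzx.le⟩⟩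
      unfold nab
      rw [card_eq_one]
      refine ⟨x, ?_⟩
      rw [← h4]
    obtain ⟨x', hx1, hx2, hx3⟩ := h3
    have h4 := fold_two H hzx.le hx1 hxl hx2 hx3.symm (by omega)
    have h5 : 2 ≤ nab J z := two_le_nab hzx.le hx1 hxl hx2 hx3.symm
    have h6 : 2 ≤ nab (J - 2) z := by
      refine le_trans ?_ (nab_mono hzx.le)
      exact nab_two H (by omega) (a := (co x).1 - 2) (b := (co x).2) (a' := (co x).1 - 1)
        (b' := (co x).2 - 1) (by omega) (by omega) (by omega) (by omega) (by omega) (by omega)
        (by omega) (by simp only; omega) (by simp only; omega)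
    have h7 : 2 ≤ nab (J - 3) z ∨ J = i + 3 := by
      rcases hn with h | h
      · exact Or.inr h.1
      · left
        refine le_trans ?_ (nab_mono hzx.le)
        exact nab_two H (by omega) (a := (co x).1 - 3) (b := (co x).2) (a' := (co x).1 - 2)
          (b' := (co x).2 - 1) (by omega) (by omega) (by omega) (by omega) (by omega) (by omega)
          (by omega) (by simp only; omega) (by simp only; omega)
    rcases hn with h | h
    · rw [show J - i = 3 by omega, Finset.sum_range_succ, Finset.sum_range_succ,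
        Finset.sum_range_succ, Finset.sum_range_zero] at hcx
      simp only [Nat.sub_zero] at hcx
      omega
    · rw [show J - i = 4 by omega, Finset.sum_range_succ, Finset.sum_range_succ,
        Finset.sum_range_succ, Finset.sum_range_succ, Finset.sum_range_zero] at hcx
      simp only [Nat.sub_zero] at hcx
      omega
  have hnab' : nab (lev x) z = 1 := by
    rw [hxl]
    exact hnab
  have hn1 := nab_of_single H.graded hzx.le hnab' (l := J - 1) (by omega)
  have hn2 := nab_of_single H.graded hzx.le hnab' (l := J - 2) (by omega)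
  have hn3 := nab_of_single H.graded hzx.le hnab' (l := J - 3) (by omega)
  have hn4 := nab_of_single H.graded hzx.le hnab' (l := J - 4) (by omega)
  have up : ∀ k, nab (J - k) x ≤ ((J - k) / 2 + 1) - ((co x).1 - k) := by
    intro k
    exact nab_upper H hxl.le (l := J - k) (lo := (co x).1 - k) (hi := (J - k) / 2 + 1) (by
      intro a ha1 ha2 ha3 ha4
      simp only at ha4
      omega)
  have u1 := up 1
  have u2 := up 2
  have u3 := up 3
  have u4 := up 4
  have lo1 : 1 ≤ nab (J - 1) x := one_le_nab (by omega)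
  have lo2 : 2 ≤ nab (J - 2) x := nab_two H (by omega) (a := (co x).1 - 2) (b := (co x).2)
    (a' := (co x).1 - 1) (b' := (co x).2 - 1) (by omega) (by omega) (by omega) (by omega)
    (by omega) (by omega) (by omega) (by simp only; omega) (by simp only; omega)
  rcases hn with h | h
  · rw [show J - i = 3 by omega, Finset.sum_range_succ, Finset.sum_range_succ,
      Finset.sum_range_succ, Finset.sum_range_zero] at hcx
    simp only [Nat.sub_zero] at hcx
    rw [show J - 2 = i + 1 by omega] at *
    rw [show J - 3 = i by omega] at *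
    refine ⟨by omega, by omega, x, hzx, hxl, by omega, hnab⟩
  · have lo3 : 2 ≤ nab (J - 3) x := nab_two H (by omega) (a := (co x).1 - 3) (b := (co x).2)
      (a' := (co x).1 - 2) (b' := (co x).2 - 1) (by omega) (by omega) (by omega) (by omega)
      (by omega) (by omega) (by omega) (by simp only; omega) (by simp only; omega)
    rw [show J - i = 4 by omega, Finset.sum_range_succ, Finset.sum_range_succ,
      Finset.sum_range_succ, Finset.sum_range_succ, Finset.sum_range_zero] at hcx
    simp only [Nat.sub_zero] at hcx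
    rw [show J - 3 = i + 1 by omega] at *
    rw [show J - 4 = i by omega] at *
    refine ⟨by omega, by omega, x, hzx, hxl, by omega, hnab⟩

/-- STAIRCASES: order one less, all energies -/
theorem Tru.stair_all (H : Tru t (fun c => c.1 ≤ c.2) co i J (i + 1) q) (hT : Two Q)
    (hr : i + 2 ≤ 2 * q) {n : ℕ} (hn : n ≤ 2 * (J - i)) :
    (1 + X : ℤ[X]) ^ (i / 2 + q - i - 1) ∣ Z Q i n := by
  classical
  have hiJ := H.hiJ
  have hlv := H.lv_stair
  by_cases hexc : 2 * (J / 2) = J ∧ ((J = i + 3 ∧ n = 6) ∨ (J = i + 4 ∧ n = 8))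
  swap
  · exact H.stair_less hr hn (fun h1 h2 => by omega) (fun h1 h2 => by omega)
  obtain ⟨hJ, hexc⟩ := hexc
  have hF := H.farT (H.cln_stair hr (n0 := n + 1) (by omega) (fun _ _ => hJ))
  rw [Z_split i (hiN Q J) (hS co i J q) n]
  refine dvd_add ((pow_dvd_pow _ (Nat.sub_le _ _)).trans
    (dvd_ND hF.hlev _ n fun g h1 h2 => hF.clean g h1 h2 n (by omega))) ?_
  set Pd := (bdR (hiN Q J)).filter (fun z => cst i (hS co i J q) z ≤ n) with hPd
  have hP : ∀ z ∈ Pd, _ := fun z hz => fold_pd H (mem_filter.1 hz).1 hJ hexc (mem_filter.1 hz).2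
  rw [DG_tm hF.hlev Pd (fun z hz => ⟨(mem_filter.1 hz).1, (hP z hz).1⟩) (fun z hz hz2 => by
    by_contra hcon
    exact hz2 (mem_filter.2 ⟨hz, by omega⟩))]
  have hlevz : ∀ z ∈ Pd, lev z = J + 1 := fun z hz => bd_lev' H (mem_filter.1 hz).1
  have hK : ∀ z ∈ Pd, i / 2 + q - i - 1 ≤ (Pk i (ez i (hS co i J q) z)).card := by
    intro z hz
    obtain ⟨h1, -, h3, -⟩ := hP z hz
    have h4 := pk_ez (i := i) (h := hS co i J q) (z := z) H.graded
      (by have := hlevz z hz; omega) (by omega)
    rw [h1] at h4
    omega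
  have hAdm : ∀ z ∈ Pd, Adm i (ez i (hS co i J q) z) := by
    intro z hz
    have h1 := (hP z hz).1
    exact adm_ez H.graded (by have := hlevz z hz; omega) (by omega)
  refine dvd_dangerous Pd ?_ ?_
  · intro z hz
    obtain ⟨h1, h2, h3, x, hzx, hxl, hf, hnab⟩ := hP z hz
    have hzl := hlevz z hz
    rw [sum_excite (by omega) h1 h2]
    refine (pow_dvd_pow _ (hK z hz)).trans ?_
    exact dvd_sum_up1 hT (hAdm z hz) (no_mix H.graded (by omega) h1)
      (card_low_up H (by omega) h1 hzx hxl hf hnab)
  · intro z hz z' hz' hne e he h1 h2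
    refine dvd_tmZ fun hA => ?_
    obtain ⟨g1, g2, -, -⟩ := hP z hz
    have hzl := hlevz z hz
    have hzl' := hlevz z' hz'
    rw [mem_piAntidiag] at he
    obtain ⟨v, hv⟩ := exists_up1 (g := ez i (hS co i J q) z) (e := e)
      (ge_ez hA (by omega) g1 h1) (by
        rw [he.1, g2]
        rfl)
    have hvz : v = z' := by
      by_contra hcon
      have h3 : ez i (hS co i J q) z z' = 0 := by
        unfold ez
        rw [if_neg]
        intro h4
        have := lev_strictAnti (lt_of_le_of_ne h4 hne)
        omega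
      rw [hv] at h2
      unfold up1 at h2
      rw [h3, if_neg (fun h => hcon h.symm)] at h2
      omega
    subst hvz
    have hpk := fun x : Q => mem_pk_ez (x := x) H.graded (show i < lev z by omega) g1
    have hno : ∀ x, x ∈ Pk i (ez i (hS co i J q) z) → lev x = J ∨ lev x = J + 2 → False := by
      intro x hx hxl
      rcases (hpk x).1 hx with h3 | h3 <;> omega
    rw [hv] at hA ⊢
    rcases step_cases hT hA with h3 | ⟨-, h3 | h3 | h3 | h3⟩
    · exact (hK z hz).trans h3
    · exfalso
      obtain ⟨x, x', -, h4, -, h5, -⟩ := h3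
      have := H.graded.lev_covBy h4
      exact hno x h5 (by omega)
    · exfalso
      obtain ⟨x, x', -, h4, -, h5, -⟩ := h3
      have := H.graded.lev_covBy h4
      exact hno x h5 (by omega)
    · exact absurd h3 (no_mix H.graded (show i < lev z by omega) g1 v hA).1
    · exact absurd h3 (no_mix H.graded (show i < lev z by omega) g1 v hA).2

end Pool.Agent.GaussPoset
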